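import Pool.Agent.Lib.MP_9abcb7_co.One

set_option autoImplicit false

open Function

namespace Pool.Agent.Lib.MP_9abcb7_co

open scoped Classical

theorem fac_mem {V : Finset ℕ} {F : Finset Cube} {w : ℕ} {a : Bool} {C : Cube} (_h : PH V F)
    (hC : C ∈ F) (hw : C w ≠ some (!a)) {P : ℕ → Option Bool → Prop}
    (hP : ∀ D ∈ fac F w a, ∀ x, x ≠ w → P x (D x)) : ∀ x, x ≠ w → P x (C x) := by
  intro x hx
  have := hP _ (PH.mem_fac_of hC hw) x hx
  rwa [update_of_ne hx] at this

/-- number of cubes with value `b` at `w` in which `x` is free -/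
theorem lack_eq (F : Finset Cube) (w : ℕ) (b : Bool) (x : ℕ) :
    cn F (fun D => D w = some b ∧ D x = none) + dg2 F w b x = ct F w b := by
  unfold cn dg2 ct
  rw [← Finset.card_union_of_disjoint]
  · congr 1
    ext D
    simp only [Finset.mem_filter, Finset.mem_union]
    by_cases hx : D x = none <;> simp [hx]
  · rw [Finset.disjoint_left]
    intro D h1 h2
    simp only [Finset.mem_filter] at h1 h2
    exact h2.2.2 h1.2.2

/-- the situation where the facet `w = a` has deficiency one -/
structure Ctx (V : Finset ℕ) (F : Finset Cube) (w : ℕ) (a : Bool) (k : ℕ) : Prop where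
  h : UH V F
  good : Good V F w
  hT : (fac F w a).card = (V.erase w).card + 1
  nu : NoUnit (fac F w a)
  lev : ∀ v ∈ V, k + 2 ≤ dg F v
  cB : ct F w (!a) = k
  cA : 2 ≤ ct F w a

namespace Ctx

variable {V : Finset ℕ} {F : Finset Cube} {w : ℕ} {a : Bool} {k : ℕ}

theorem T (c : Ctx V F w a k) : UH (V.erase w) (fac F w a) := c.h.facet c.good a

theorem lack (c : Ctx V F w a k) {x : ℕ} (hx : x ∈ V.erase w) :
    cn F (fun D => D w = some (!a) ∧ D x = none) + 2 ≤ dg (fac F w a) x := by
  obtain ⟨hxw, hxV⟩ := Finset.mem_erase.mp hx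
  have h1 := lack_eq F w (!a) x
  have h2 := c.h.toPH.dg_fac (v := w) (u := x) a hxw
  have h3 := c.lev x hxV
  have h4 := c.cB
  omega

theorem allB (c : Ctx V F w a k) {x : ℕ} (hx : x ∈ V.erase w) (hd : dg (fac F w a) x = 2) :
    ∀ D ∈ F, D w = some (!a) → D x ≠ none := by
  intro D hD hDw hDx
  have h1 := c.lack hx
  have h2 : 1 ≤ cn F (fun D => D w = some (!a) ∧ D x = none) := cn_pos hD ⟨hDw, hDx⟩
  omega

theorem mem (c : Ctx V F w a k) {C : Cube} (hC : C ∈ F) (hw : C w = some a) :
    update C w none ∈ fac F w a := PH.mem_fac_of hC (by rw [hw]; exact some_ne_not a)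

theorem uniqA (c : Ctx V F w a k) {x : ℕ} (hx : x ∈ V.erase w) (hd : dg (fac F w a) x = 2)
    {e : Bool} {C C' : Cube} (hC : C ∈ F) (hw : C w = some a) (hC' : C' ∈ F) (hw' : C' w = some a)
    (h1 : C x = some e) (h2 : C' x = some e) : C = C' := by
  obtain ⟨hxw, hxV⟩ := Finset.mem_erase.mp hx
  obtain ⟨α, hα, -⟩ := c.T.bot hx hd
  have e1 := (hα e).2.2 _ (c.mem hC hw) (by rw [update_of_ne hxw]; exact h1)
  have e2 := (hα e).2.2 _ (c.mem hC' hw') (by rw [update_of_ne hxw]; exact h2)
  funext y
  by_cases hy : y = w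
  · subst hy; rw [hw, hw']
  · have := congrFun (e1.trans e2.symm) y
    rwa [update_of_ne hy, update_of_ne hy] at this

theorem twoA (c : Ctx V F w a k) : ∃ C C', C ∈ F ∧ C' ∈ F ∧ C w = some a ∧ C' w = some a ∧ C ≠ C' := by
  obtain ⟨C, C', h1, h2, h3⟩ := Finset.one_lt_card_iff.mp (show 1 < (F.filter (fun C => C w = some a)).card from c.cA)
  obtain ⟨h4, h5⟩ := Finset.mem_filter.mp h1
  obtain ⟨h6, h7⟩ := Finset.mem_filter.mp h2
  exact ⟨C, C', h4, h6, h5, h7, h3⟩

/-- both values of a degree-two variable of the facet occur on the other side -/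
theorem bothB (c : Ctx V F w a k) {x : ℕ} (hx : x ∈ V.erase w) (hd : dg (fac F w a) x = 2)
    (e : Bool) : ∃ D ∈ F, D w = some (!a) ∧ D x = some e := by
  obtain ⟨hxw, hxV⟩ := Finset.mem_erase.mp hx
  have key : ∃ C ∈ F, C w = some a ∧ C x ≠ some (!e) := by
    obtain ⟨C, C', hC, hC', hw, hw', hne⟩ := c.twoA
    by_cases h1 : C x = some (!e)
    · refine ⟨C', hC', hw', ?_⟩
      intro h2
      exact hne (c.uniqA hx hd hC hw hC' hw' h1 h2)
    · exact ⟨C, hC, hw, h1⟩
  obtain ⟨C, hC, hw, hCx⟩ := key
  obtain ⟨D, hD, hDw, hm⟩ := c.h.toPH.meet hC hw (fun _ => e)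
  refine ⟨D, hD, hDw, ?_⟩
  rcases ne_none_cases (c.allB hx hd D hD hDw) e with h1 | h1
  · exact h1
  · have := hm x hxw _ h1
    rcases opt_cases (C x) e with h2 | h2 | h2
    · rw [h2] at this; simp at this
    · rw [h2] at this; simp at this
    · exact absurd h2 hCx

/-- cells for two degree-two variables -/
theorem cell (c : Ctx V F w a k) {u v : ℕ} (hu : u ∈ V.erase w) (hdu : dg (fac F w a) u = 2)
    (hv : v ∈ V.erase w) (hdv : dg (fac F w a) v = 2) (huv : u ≠ v) {C : Cube} (hC : C ∈ F)
    (hw : C w = some a) {i j : Bool} (hi : C u ≠ some (!i)) (hj : C v ≠ some (!j)) :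
    1 ≤ cn F (fun D => (D w = some (!a) ∧ D u = some i) ∧ D v = some j) := by
  obtain ⟨D, hD, hDw, h1, h2, -⟩ := c.h.toPH.meet2 hC hw (Finset.mem_erase.mp hu).1
    (Finset.mem_erase.mp hv).1 huv (c.allB hu hdu) (c.allB hv hdv) hi hj
  exact cn_pos hD ⟨⟨hDw, h1⟩, h2⟩

theorem cB' (c : Ctx V F w a k) : cn F (fun D => D w = some (!a)) = k := by
  rw [cn_eq_ct]
  exact c.cB

theorem sumU (c : Ctx V F w a k) {u : ℕ} (hu : u ∈ V.erase w) (hdu : dg (fac F w a) u = 2)
    (i : Bool) : cn F (fun D => D w = some (!a) ∧ D u = some i) +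
      cn F (fun D => D w = some (!a) ∧ D u = some (!i)) = k := by
  have h0 := c.cB'
  have h1 := cn_split' (F := F) (P := fun D => D w = some (!a)) (u := u) i
    (fun D hD hP => c.allB hu hdu D hD hP)
  omega

theorem sumUV (c : Ctx V F w a k) {u v : ℕ} (hv : v ∈ V.erase w) (hdv : dg (fac F w a) v = 2)
    (i j : Bool) :
    cn F (fun D => (D w = some (!a) ∧ D u = some i) ∧ D v = some j) +
    cn F (fun D => (D w = some (!a) ∧ D u = some i) ∧ D v = some (!j)) =
    cn F (fun D => D w = some (!a) ∧ D u = some i) := by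
  have h1 := cn_split' (F := F) (P := fun D => D w = some (!a) ∧ D u = some i) (u := v) j
    (fun D hD hP => c.allB hv hdv D hD hP.1)
  omega

theorem sum4 (c : Ctx V F w a k) {u v : ℕ} (hu : u ∈ V.erase w) (hdu : dg (fac F w a) u = 2)
    (hv : v ∈ V.erase w) (hdv : dg (fac F w a) v = 2) (i j : Bool) :
    cn F (fun D => (D w = some (!a) ∧ D u = some i) ∧ D v = some j) +
    cn F (fun D => (D w = some (!a) ∧ D u = some i) ∧ D v = some (!j)) +
    (cn F (fun D => (D w = some (!a) ∧ D u = some (!i)) ∧ D v = some j) +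
    cn F (fun D => (D w = some (!a) ∧ D u = some (!i)) ∧ D v = some (!j))) = k := by
  rw [c.sumUV hv hdv, c.sumUV hv hdv]
  exact c.sumU hu hdu i

/-- a cube meeting neither of two degree-two variables gives four cells -/
theorem four (c : Ctx V F w a k) {u v : ℕ} (hu : u ∈ V.erase w) (hdu : dg (fac F w a) u = 2)
    (hv : v ∈ V.erase w) (hdv : dg (fac F w a) v = 2) (huv : u ≠ v) {C : Cube} (hC : C ∈ F)
    (hw : C w = some a) (h1 : C u = none) (h2 : C v = none) :
    4 ≤ k ∧ ∀ i j, 1 ≤ cn F (fun D => (D w = some (!a) ∧ D u = some i) ∧ D v = some j) := by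
  have hall : ∀ i j, 1 ≤ cn F (fun D => (D w = some (!a) ∧ D u = some i) ∧ D v = some j) :=
    fun i j => c.cell hu hdu hv hdv huv hC hw (by rw [h1]; simp) (by rw [h2]; simp)
  refine ⟨?_, hall⟩
  have := c.sum4 hu hdu hv hdv true true
  have h3 := hall true true
  have h4 := hall true false
  have h5 := hall false true
  have h6 := hall false false
  simp only [Bool.not_true] at this
  omega

/-- lacking variables -/
theorem lack2 (c : Ctx V F w a k) {u v : ℕ} (hu : u ∈ V.erase w) (hdu : dg (fac F w a) u = 2)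
    (hv : v ∈ V.erase w) (hdv : dg (fac F w a) v = 2) (huv : u ≠ v) {C : Cube} (hC : C ∈ F)
    (hw : C w = some a) {i j : Bool} (hi : C u ≠ some (!i)) (hj : C v ≠ some (!j))
    (h1 : cn F (fun D => (D w = some (!a) ∧ D u = some i) ∧ D v = some j) ≤ 1) {l : ℕ}
    (hlw : l ≠ w) (hlu : l ≠ u) (hlv : l ≠ v) (hCl : C l = none) :
    ∀ D ∈ F, D w = some (!a) → D u = some i → D v = some j → D l = none := by
  intro D hD hDw hDu hDv
  apply c.h.toPH.only2 hC hw (Finset.mem_erase.mp hu).1
    (Finset.mem_erase.mp hv).1 huv (c.allB hu hdu) (c.allB hv hdv) hi hj hlw hlu hlv hCl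
  intro E hE hEw hEu hEv _
  exact cn_le_one h1 hE ⟨⟨hEw, hEu⟩, hEv⟩ hD ⟨⟨hDw, hDu⟩, hDv⟩

theorem mixed3 (c : Ctx V F w a k) (hk : k ≤ 3) (hV : 5 ≤ V.card) {r : ℕ} {u : Bool → ℕ}
    (s : TS (V.erase w) (fac F w a) r u)
    (hc : ∀ b, (fac (fac F w a) r b).card = (occ ((V.erase w).erase r) (fac (fac F w a) r b)).card + 1)
    (hdis : Disjoint (occ ((V.erase w).erase r) (fac (fac F w a) r false))
      (occ ((V.erase w).erase r) (fac (fac F w a) r true)))
    (hsum : (occ ((V.erase w).erase r) (fac (fac F w a) r false)).card +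
      (occ ((V.erase w).erase r) (fac (fac F w a) r true)).card + 1 = (V.erase w).card)
    (hu : ∀ b, u b ∈ occ ((V.erase w).erase r) (fac (fac F w a) r b))
    {C C' : Cube} (hC : C ∈ F) (hw : C w = some a) (hC' : C' ∈ F) (hw' : C' w = some a)
    {c0 c1 : Bool} (h1 : C (u false) = some c0) (h2 : C (u true) = none)
    (h3 : C' (u true) = some c1) (h4 : C' (u false) = none) : False := by
  have hne : u false ≠ u true := s.une c.T (by simp)
  have n1 := c.cell (s.uV false) (s.ud false) (s.uV true) (s.ud true) hne hC hw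
    (i := c0) (j := c1) (by rw [h1]; exact some_ne_not _) (by rw [h2]; simp)
  have n2 := c.cell (s.uV false) (s.ud false) (s.uV true) (s.ud true) hne hC hw
    (i := c0) (j := !c1) (by rw [h1]; exact some_ne_not _) (by rw [h2]; simp)
  have n3 := c.cell (s.uV false) (s.ud false) (s.uV true) (s.ud true) hne hC' hw'
    (i := !c0) (j := c1) (by rw [h4]; simp) (by rw [h3]; exact some_ne_not _)
  have n4 := c.sum4 (s.uV false) (s.ud false) (s.uV true) (s.ud true) c0 c1
  -- no third variable of degree two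
  have huniq : ∀ x ∈ V.erase w, dg (fac F w a) x = 2 → ∃ b, x = u b := by
    intro x hx hdx
    by_contra hnot
    push Not at hnot
    have hCx : C x = none := by
      have := c.T.bots_apart (s.uV false) hx (s.ud false) hdx (Ne.symm (hnot false)) (c.mem hC hw)
        (by rw [update_of_ne (Finset.mem_erase.mp (s.uV false)).1, h1]; simp)
      rwa [update_of_ne (Finset.mem_erase.mp hx).1] at this
    have := (c.four (s.uV true) (s.ud true) hx hdx (Ne.symm (hnot true)) hC hw h2 hCx).1
    omega
  have hdis' : ∀ b, ∀ x ∈ occ ((V.erase w).erase r) (fac (fac F w a) r b),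
      x ∉ occ ((V.erase w).erase r) (fac (fac F w a) r (!b)) := by
    intro b x hx hx'
    cases b
    · exact Finset.disjoint_left.mp hdis hx hx'
    · exact Finset.disjoint_left.mp hdis hx' hx
  have hVw := card_erase' c.good.1
  have hr1 : ∀ C ∈ F, C w = some a → ∀ b, C (u b) ≠ none → C r = some b := by
    intro C hC hw b hCu
    have := s.us b _ (c.mem hC hw) (by rw [update_of_ne (Finset.mem_erase.mp (s.uV b)).1]; exact hCu)
    rwa [update_of_ne (Finset.mem_erase.mp s.hr).1] at this
  by_cases hb : 2 ≤ (occ ((V.erase w).erase r) (fac (fac F w a) r false)).card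
  · obtain ⟨l, hl, hlr, hlu, hdl, hul, hlr'⟩ := (TS_side c.T s hc hdis' hu huniq false).1 hb
    have hlw := (Finset.mem_erase.mp hl).1
    have hC'l : C' l = none := by
      by_contra hne
      have e1 := hlr' _ (c.mem hC' hw') (by rw [update_of_ne hlw]; exact hne)
      rw [update_of_ne (Finset.mem_erase.mp s.hr).1] at e1
      have e2 := hr1 C' hC' hw' true (by rw [h3]; simp)
      rw [e1] at e2; cases e2
    have hlu1 : l ≠ u true := by
      intro he
      rw [he, s.ud] at hdl
      omega
    have L1 := c.lack2 (s.uV false) (s.ud false) (s.uV true) (s.ud true) hne hC' hw'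
      (i := c0) (j := c1) (by rw [h4]; simp) (by rw [h3]; exact some_ne_not _) (by omega)
      hlw hlu hlu1 hC'l
    have L2 := c.lack2 (s.uV false) (s.ud false) (s.uV true) (s.ud true) hne hC' hw'
      (i := !c0) (j := c1) (by rw [h4]; simp) (by rw [h3]; exact some_ne_not _) (by omega)
      hlw hlu hlu1 hC'l
    have hlack := c.lack hl
    obtain ⟨D1, hD1⟩ := cn_exists n1
    obtain ⟨D2, hD2⟩ := cn_exists n3
    have := cn_le_one (show cn F (fun D => D w = some (!a) ∧ D l = none) ≤ 1 by omega)
      hD1.1 ⟨hD1.2.1.1, L1 D1 hD1.1 hD1.2.1.1 hD1.2.1.2 hD1.2.2⟩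
      hD2.1 ⟨hD2.2.1.1, L2 D2 hD2.1 hD2.2.1.1 hD2.2.1.2 hD2.2.2⟩
    have e1 := hD1.2.1.2
    rw [this, hD2.2.1.2] at e1
    exact some_ne_not _ e1.symm
  · obtain ⟨l, hl, hlr, hlu, hdl, hul, hlr'⟩ := (TS_side c.T s hc hdis' hu huniq true).1 (by omega)
    have hlw := (Finset.mem_erase.mp hl).1
    have hCl : C l = none := by
      by_contra hne
      have e1 := hlr' _ (c.mem hC hw) (by rw [update_of_ne hlw]; exact hne)
      rw [update_of_ne (Finset.mem_erase.mp s.hr).1] at e1
      have e2 := hr1 C hC hw false (by rw [h1]; simp)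
      rw [e1] at e2; cases e2
    have hlu0 : l ≠ u false := by
      intro he
      rw [he, s.ud] at hdl
      omega
    have L1 := c.lack2 (s.uV false) (s.ud false) (s.uV true) (s.ud true) hne hC hw
      (i := c0) (j := c1) (by rw [h1]; exact some_ne_not _) (by rw [h2]; simp) (by omega)
      hlw hlu0 hlu hCl
    have L2 := c.lack2 (s.uV false) (s.ud false) (s.uV true) (s.ud true) hne hC hw
      (i := c0) (j := !c1) (by rw [h1]; exact some_ne_not _) (by rw [h2]; simp) (by omega)
      hlw hlu0 hlu hCl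
    have hlack := c.lack hl
    obtain ⟨D1, hD1⟩ := cn_exists n1
    obtain ⟨D2, hD2⟩ := cn_exists n2
    have := cn_le_one (show cn F (fun D => D w = some (!a) ∧ D l = none) ≤ 1 by omega)
      hD1.1 ⟨hD1.2.1.1, L1 D1 hD1.1 hD1.2.1.1 hD1.2.1.2 hD1.2.2⟩
      hD2.1 ⟨hD2.2.1.1, L2 D2 hD2.1 hD2.2.1.1 hD2.2.1.2 hD2.2.2⟩
    have e1 := hD1.2.2
    rw [this, hD2.2.2] at e1
    exact some_ne_not _ e1.symm

/-- no such situation for `k ≤ 3` -/
theorem le_three (c : Ctx V F w a k) (hk : k ≤ 3) (hV : 5 ≤ V.card) : False := by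
  have hVw := card_erase' c.good.1
  obtain ⟨r, u, s, hc, hdis, hsum, hu⟩ := exists_TS c.T c.hT (Finset.card_pos.mp (by omega)) c.nu
  have hne : u false ≠ u true := s.une c.T (by simp)
  obtain ⟨C, C', hC, hC', hw, hw', hCC⟩ := c.twoA
  have hr1 : ∀ C ∈ F, C w = some a → ∀ b, C (u b) ≠ none → C r = some b := by
    intro C hC hw b hCu
    have := s.us b _ (c.mem hC hw) (by rw [update_of_ne (Finset.mem_erase.mp (s.uV b)).1]; exact hCu)
    rwa [update_of_ne (Finset.mem_erase.mp s.hr).1] at this
  have hnb : ∀ C ∈ F, C w = some a → C (u false) ≠ none → C (u true) = none := by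
    intro C hC hw h1
    by_contra h2
    have e1 := hr1 C hC hw false h1
    have e2 := hr1 C hC hw true h2
    rw [e1] at e2; cases e2
  have hor : ∀ C ∈ F, C w = some a → C (u false) = none → C (u true) ≠ none := by
    intro C hC hw h1 h2
    have := (c.four (s.uV false) (s.ud false) (s.uV true) (s.ud true) hne hC hw h1 h2).1
    omega
  by_cases h1 : C (u false) = none
  · have h2 := hor C hC hw h1
    by_cases h3 : C' (u false) = none
    · have h4 := hor C' hC' hw' h3
      -- both contain `u true`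
      rcases ne_none_cases h2 true with e1 | e1 <;> rcases ne_none_cases h4 true with e2 | e2
      · exact hCC (c.uniqA (s.uV true) (s.ud true) hC hw hC' hw' e1 e2)
      · have n1 := c.cell (s.uV false) (s.ud false) (s.uV true) (s.ud true) hne hC hw
          (i := true) (j := true) (by rw [h1]; simp) (by rw [e1]; simp)
        have n2 := c.cell (s.uV false) (s.ud false) (s.uV true) (s.ud true) hne hC hw
          (i := !true) (j := true) (by rw [h1]; simp) (by rw [e1]; simp)
        have n3 := c.cell (s.uV false) (s.ud false) (s.uV true) (s.ud true) hne hC' hw'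
          (i := true) (j := !true) (by rw [h3]; simp) (by rw [e2]; simp)
        have n4 := c.cell (s.uV false) (s.ud false) (s.uV true) (s.ud true) hne hC' hw'
          (i := !true) (j := !true) (by rw [h3]; simp) (by rw [e2]; simp)
        have n5 := c.sum4 (s.uV false) (s.ud false) (s.uV true) (s.ud true) true true
        omega
      · have n1 := c.cell (s.uV false) (s.ud false) (s.uV true) (s.ud true) hne hC' hw'
          (i := true) (j := true) (by rw [h3]; simp) (by rw [e2]; simp)
        have n2 := c.cell (s.uV false) (s.ud false) (s.uV true) (s.ud true) hne hC' hw'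
          (i := !true) (j := true) (by rw [h3]; simp) (by rw [e2]; simp)
        have n3 := c.cell (s.uV false) (s.ud false) (s.uV true) (s.ud true) hne hC hw
          (i := true) (j := !true) (by rw [h1]; simp) (by rw [e1]; simp)
        have n4 := c.cell (s.uV false) (s.ud false) (s.uV true) (s.ud true) hne hC hw
          (i := !true) (j := !true) (by rw [h1]; simp) (by rw [e1]; simp)
        have n5 := c.sum4 (s.uV false) (s.ud false) (s.uV true) (s.ud true) true true
        omega
      · exact hCC (c.uniqA (s.uV true) (s.ud true) hC hw hC' hw' e1 e2)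
    · obtain ⟨c0, hc0⟩ := Option.ne_none_iff_exists'.mp h3
      obtain ⟨c1, hc1⟩ := Option.ne_none_iff_exists'.mp h2
      exact c.mixed3 hk hV s hc hdis hsum hu hC' hw' hC hw hc0 (hnb C' hC' hw' h3) hc1 h1
  · have h2 := hnb C hC hw h1
    by_cases h3 : C' (u false) = none
    · have h4 := hor C' hC' hw' h3
      obtain ⟨c0, hc0⟩ := Option.ne_none_iff_exists'.mp h1
      obtain ⟨c1, hc1⟩ := Option.ne_none_iff_exists'.mp h4
      exact c.mixed3 hk hV s hc hdis hsum hu hC hw hC' hw' hc0 h2 hc1 h3
    · have h4 := hnb C' hC' hw' h3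
      rcases ne_none_cases h1 true with e1 | e1 <;> rcases ne_none_cases h3 true with e2 | e2
      · exact hCC (c.uniqA (s.uV false) (s.ud false) hC hw hC' hw' e1 e2)
      · have n1 := c.cell (s.uV false) (s.ud false) (s.uV true) (s.ud true) hne hC hw
          (i := true) (j := true) (by rw [e1]; simp) (by rw [h2]; simp)
        have n2 := c.cell (s.uV false) (s.ud false) (s.uV true) (s.ud true) hne hC hw
          (i := true) (j := !true) (by rw [e1]; simp) (by rw [h2]; simp)
        have n3 := c.cell (s.uV false) (s.ud false) (s.uV true) (s.ud true) hne hC' hw'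
          (i := !true) (j := true) (by rw [e2]; simp) (by rw [h4]; simp)
        have n4 := c.cell (s.uV false) (s.ud false) (s.uV true) (s.ud true) hne hC' hw'
          (i := !true) (j := !true) (by rw [e2]; simp) (by rw [h4]; simp)
        have n5 := c.sum4 (s.uV false) (s.ud false) (s.uV true) (s.ud true) true true
        omega
      · have n1 := c.cell (s.uV false) (s.ud false) (s.uV true) (s.ud true) hne hC' hw'
          (i := true) (j := true) (by rw [e2]; simp) (by rw [h4]; simp)
        have n2 := c.cell (s.uV false) (s.ud false) (s.uV true) (s.ud true) hne hC' hw'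
          (i := true) (j := !true) (by rw [e2]; simp) (by rw [h4]; simp)
        have n3 := c.cell (s.uV false) (s.ud false) (s.uV true) (s.ud true) hne hC hw
          (i := !true) (j := true) (by rw [e1]; simp) (by rw [h2]; simp)
        have n4 := c.cell (s.uV false) (s.ud false) (s.uV true) (s.ud true) hne hC hw
          (i := !true) (j := !true) (by rw [e1]; simp) (by rw [h2]; simp)
        have n5 := c.sum4 (s.uV false) (s.ud false) (s.uV true) (s.ud true) true true
        omega
      · exact hCC (c.uniqA (s.uV false) (s.ud false) hC hw hC' hw' e1 e2)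

end Ctx

end Pool.Agent.Lib.MP_9abcb7_co
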