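import Mathlib

set_option autoImplicit false

open Function

namespace Pool.Agent.Lib.MP_9abcb7_co

open scoped Classical

/-- A cube (the set of assignments falsifying a clause), given by its prescribed values. -/
abbrev Cube := ℕ → Option Bool

/-- The assignment `σ` lies in the cube `C`. -/
def MemC (σ : ℕ → Bool) (C : Cube) : Prop := ∀ v b, C v = some b → σ v = b

/-- `F` is a partition of the space of assignments into cubes prescribing only variables of `V`. -/
structure PH (V : Finset ℕ) (F : Finset Cube) : Prop where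
  supp : ∀ C ∈ F, ∀ v, C v ≠ none → v ∈ V
  hit : ∀ C ∈ F, ∀ D ∈ F, C ≠ D → ∃ v b, C v = some b ∧ D v = some (!b)
  cov : ∀ σ : ℕ → Bool, ∃ C ∈ F, MemC σ C

/-- A partition into cubes in which every variable of `V` occurs. -/
structure UH (V : Finset ℕ) (F : Finset Cube) : Prop extends PH V F where
  nd : ∀ v ∈ V, ∃ C ∈ F, C v ≠ none

/-- number of cubes with value `b` at `v` -/
noncomputable def ct (F : Finset Cube) (v : ℕ) (b : Bool) : ℕ :=
  (F.filter (fun C => C v = some b)).card

/-- degree of `v` -/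
noncomputable def dg (F : Finset Cube) (v : ℕ) : ℕ :=
  (F.filter (fun C => C v ≠ none)).card

/-- number of cubes with value `b` at `v` in which `u` occurs -/
noncomputable def dg2 (F : Finset Cube) (v : ℕ) (b : Bool) (u : ℕ) : ℕ :=
  (F.filter (fun C => C v = some b ∧ C u ≠ none)).card

/-- the facet `v = b` -/
noncomputable def fac (F : Finset Cube) (v : ℕ) (b : Bool) : Finset Cube :=
  (F.filter (fun C => C v ≠ some (!b))).image (fun C => update C v none)

theorem opt_cases (o : Option Bool) (b : Bool) : o = none ∨ o = some b ∨ o = some (!b) := by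
  rcases o with _ | c
  · exact Or.inl rfl
  · cases b <;> cases c <;> simp

theorem ne_none_cases {o : Option Bool} (h : o ≠ none) (b : Bool) : o = some b ∨ o = some (!b) := by
  rcases opt_cases o b with h' | h' | h'
  · exact absurd h' h
  · exact Or.inl h'
  · exact Or.inr h'

theorem some_ne_not (b : Bool) : (some b : Option Bool) ≠ some (!b) := by cases b <;> simp

theorem dg_eq (F : Finset Cube) (v : ℕ) (b : Bool) : dg F v = ct F v b + ct F v (!b) := by
  unfold dg ct
  rw [← Finset.card_union_of_disjoint]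
  · congr 1
    ext C
    simp only [Finset.mem_filter, Finset.mem_union]
    constructor
    · rintro ⟨h1, h2⟩
      rcases ne_none_cases h2 b with h | h
      · exact Or.inl ⟨h1, h⟩
      · exact Or.inr ⟨h1, h⟩
    · rintro (⟨h1, h2⟩ | ⟨h1, h2⟩)
      · exact ⟨h1, by rw [h2]; simp⟩
      · exact ⟨h1, by rw [h2]; simp⟩
  · rw [Finset.disjoint_filter]
    intro C _ h1 h2
    rw [h1] at h2
    exact some_ne_not b h2

theorem card_eq_ct (F : Finset Cube) (v : ℕ) (b : Bool) :
    (F.filter (fun C => C v ≠ some (!b))).card + ct F v (!b) = F.card := by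
  unfold ct
  rw [add_comm]
  exact Finset.card_filter_add_card_filter_not (fun C : Cube => C v = some (!b))

theorem dg2_le (F : Finset Cube) (v : ℕ) (b : Bool) (u : ℕ) : dg2 F v b u ≤ ct F v b := by
  unfold dg2 ct
  apply Finset.card_le_card
  intro C
  simp only [Finset.mem_filter]
  rintro ⟨h1, h2, -⟩
  exact ⟨h1, h2⟩

theorem dg2_eq_all {F : Finset Cube} {v : ℕ} {b : Bool} {u : ℕ} (h : ct F v b ≤ dg2 F v b u) :
    ∀ C ∈ F, C v = some b → C u ≠ none := by
  intro C hC hv
  have hsub : F.filter (fun C => C v = some b ∧ C u ≠ none) ⊆ F.filter (fun C => C v = some b) := by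
    intro C
    simp only [Finset.mem_filter]
    rintro ⟨h1, h2, -⟩
    exact ⟨h1, h2⟩
  have := Finset.eq_of_subset_of_card_le hsub h
  have h2 : C ∈ F.filter (fun C => C v = some b) := Finset.mem_filter.mpr ⟨hC, hv⟩
  rw [← this] at h2
  exact (Finset.mem_filter.mp h2).2.2

theorem memC_update_self {C : Cube} {v : ℕ} (hv : C v = none) {σ : ℕ → Bool} (h : MemC σ C)
    (b : Bool) : MemC (update σ v b) C := by
  intro u c hu
  have : u ≠ v := by rintro rfl; rw [hv] at hu; exact absurd hu (by simp)
  rw [update_of_ne this]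
  exact h u c hu

/-- a point of a cube -/
def pt (C : Cube) : ℕ → Bool := fun v => (C v).getD false

theorem memC_pt (C : Cube) : MemC (pt C) C := by
  intro v b h
  simp [pt, h]

theorem cube_ext {C D : Cube} (h : ∀ σ, MemC σ C → MemC σ D) : ∀ v b, D v = some b → C v = some b := by
  intro v b hv
  rcases opt_cases (C v) b with h1 | h1 | h1
  · exfalso
    have h2 := h _ (memC_update_self h1 (memC_pt C) (!b)) v b hv
    simp at h2
  · exact h1
  · exfalso
    have h2 := h _ (memC_pt C) v b hv
    simp [pt, h1] at h2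

namespace PH

variable {V : Finset ℕ} {F : Finset Cube}

theorem uniq (h : PH V F) {C D : Cube} (hC : C ∈ F) (hD : D ∈ F) {σ : ℕ → Bool}
    (h1 : MemC σ C) (h2 : MemC σ D) : C = D := by
  by_contra hne
  obtain ⟨v, b, hv, hv'⟩ := h.hit C hC D hD hne
  have e1 := h1 v b hv
  have e2 := h2 v _ hv'
  rw [e1] at e2
  cases b <;> simp at e2

theorem flip (h : PH V F) {C : Cube} (hC : C ∈ F) {w : ℕ} {a : Bool} (hw : C w = some a)
    {σ : ℕ → Bool} (hσ : MemC σ C) :
    ∃ D ∈ F, D w = some (!a) ∧ MemC (update σ w (!a)) D := by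
  obtain ⟨D, hD, hσD⟩ := h.cov (update σ w (!a))
  have hne : C ≠ D := by
    rintro rfl
    have := hσD w a hw
    simp at this
  obtain ⟨v, b, hv, hv'⟩ := h.hit C hC D hD hne
  by_cases hvw : v = w
  · subst hvw
    rw [hw] at hv
    cases hv
    exact ⟨D, hD, hv', hσD⟩
  · exfalso
    have e1 := hσ v b hv
    have e2 := hσD v _ hv'
    rw [update_of_ne hvw, e1] at e2
    cases b <;> simp at e2

theorem card_pos (h : PH V F) : 0 < F.card := by
  obtain ⟨C, hC, -⟩ := h.cov (fun _ => false)
  exact Finset.card_pos.mpr ⟨C, hC⟩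

theorem inj (h : PH V F) (v : ℕ) (b : Bool) : Set.InjOn (fun C : Cube => update C v none)
    (F.filter (fun C => C v ≠ some (!b)) : Finset Cube) := by
  intro C hC D hD he
  simp only [Finset.coe_filter, Set.mem_ofPred_eq] at hC hD
  by_contra hne
  obtain ⟨u, c, hu, hu'⟩ := h.hit C hC.1 D hD.1 hne
  by_cases huv : u = v
  · subst huv
    rw [hu] at hC
    rw [hu'] at hD
    have h1 := hC.2
    have h2 := hD.2
    cases b <;> cases c <;> simp_all
  · have := congrFun he u
    simp only [update_of_ne huv] at this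
    rw [hu, hu'] at this
    exact some_ne_not c this

theorem card_fac (h : PH V F) (v : ℕ) (b : Bool) : (fac F v b).card + ct F v (!b) = F.card := by
  unfold fac
  rw [Finset.card_image_of_injOn (h.inj v b)]
  exact card_eq_ct F v b

theorem mem_fac {v : ℕ} {b : Bool} {D : Cube} :
    D ∈ fac F v b ↔ ∃ C ∈ F, C v ≠ some (!b) ∧ update C v none = D := by
  unfold fac
  simp only [Finset.mem_image, Finset.mem_filter, and_assoc]

theorem mem_fac_of {v : ℕ} {b : Bool} {C : Cube} (hC : C ∈ F) (hv : C v ≠ some (!b)) :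
    update C v none ∈ fac F v b := mem_fac.mpr ⟨C, hC, hv, rfl⟩

theorem facet (h : PH V F) (v : ℕ) (b : Bool) : PH (V.erase v) (fac F v b) := by
  refine ⟨?_, ?_, ?_⟩
  · intro D hD u hu
    obtain ⟨C, hC, hv, rfl⟩ := mem_fac.mp hD
    have huv : u ≠ v := by
      rintro rfl
      simp at hu
    rw [update_of_ne huv] at hu
    exact Finset.mem_erase.mpr ⟨huv, h.supp C hC u hu⟩
  · intro D hD D' hD' hne
    obtain ⟨C, hC, hv, rfl⟩ := mem_fac.mp hD
    obtain ⟨C', hC', hv', rfl⟩ := mem_fac.mp hD'
    have hne' : C ≠ C' := by rintro rfl; exact hne rfl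
    obtain ⟨u, c, hu, hu'⟩ := h.hit C hC C' hC' hne'
    have huv : u ≠ v := by
      rintro rfl
      rw [hu] at hv
      rw [hu'] at hv'
      cases b <;> cases c <;> simp_all
    exact ⟨u, c, by rw [update_of_ne huv]; exact hu, by rw [update_of_ne huv]; exact hu'⟩
  · intro σ
    obtain ⟨C, hC, hσ⟩ := h.cov (update σ v b)
    refine ⟨update C v none, mem_fac_of hC ?_, ?_⟩
    · intro hv
      have := hσ v _ hv
      simp at this
    · intro u c hu
      have huv : u ≠ v := by
        rintro rfl
        simp at hu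
      rw [update_of_ne huv] at hu
      have := hσ u c hu
      rwa [update_of_ne huv] at this

theorem dg_fac (h : PH V F) {v u : ℕ} (b : Bool) (huv : u ≠ v) :
    dg (fac F v b) u + dg2 F v (!b) u = dg F u := by
  have e1 : dg (fac F v b) u = (F.filter (fun C => C v ≠ some (!b) ∧ C u ≠ none)).card := by
    unfold dg
    have : (fac F v b).filter (fun C => C u ≠ none) =
        (F.filter (fun C => C v ≠ some (!b) ∧ C u ≠ none)).image (fun C => update C v none) := by
      ext D
      simp only [Finset.mem_filter, Finset.mem_image, mem_fac]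
      constructor
      · rintro ⟨⟨C, hC, hv, rfl⟩, hu⟩
        rw [update_of_ne huv] at hu
        exact ⟨C, ⟨hC, hv, hu⟩, rfl⟩
      · rintro ⟨C, ⟨hC, hv, hu⟩, rfl⟩
        exact ⟨⟨C, hC, hv, rfl⟩, by rw [update_of_ne huv]; exact hu⟩
    rw [this, Finset.card_image_of_injOn]
    intro C hC D hD he
    simp only [Finset.coe_filter, Set.mem_ofPred_eq] at hC hD
    apply h.inj v b _ _ he
    · simp only [Finset.coe_filter, Set.mem_ofPred_eq]; exact ⟨hC.1, hC.2.1⟩
    · simp only [Finset.coe_filter, Set.mem_ofPred_eq]; exact ⟨hD.1, hD.2.1⟩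
  rw [e1]
  unfold dg2 dg
  rw [← Finset.card_union_of_disjoint]
  · congr 1
    ext C
    simp only [Finset.mem_filter, Finset.mem_union]
    by_cases hv : C v = some (!b) <;> simp [hv]
  · rw [Finset.disjoint_filter]
    rintro C _ ⟨h1, _⟩ ⟨h2, _⟩
    exact h1 h2

end PH

namespace UH

variable {V : Finset ℕ} {F : Finset Cube}

theorem both (h : UH V F) {v : ℕ} (hv : v ∈ V) (b : Bool) : ∃ C ∈ F, C v = some b := by
  obtain ⟨C, hC, hne⟩ := h.nd v hv
  rcases ne_none_cases hne b with h1 | h1
  · exact ⟨C, hC, h1⟩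
  · obtain ⟨D, hD, h2, -⟩ := h.toPH.flip hC h1 (memC_pt C)
    exact ⟨D, hD, by simpa using h2⟩

theorem ct_pos (h : UH V F) {v : ℕ} (hv : v ∈ V) (b : Bool) : 1 ≤ ct F v b := by
  obtain ⟨C, hC, h1⟩ := h.both hv b
  exact Finset.card_pos.mpr ⟨C, Finset.mem_filter.mpr ⟨hC, h1⟩⟩

end UH

/-- both facets at `w` are nondegenerate -/
def Good (V : Finset ℕ) (F : Finset Cube) (w : ℕ) : Prop :=
  w ∈ V ∧ ∀ u ∈ V, u ≠ w → ∀ b, ∃ C ∈ F, C w ≠ some b ∧ C u ≠ none

theorem UH.facet {V : Finset ℕ} {F : Finset Cube} (h : UH V F) {w : ℕ} (hw : Good V F w) (b : Bool) :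
    UH (V.erase w) (fac F w b) := by
  refine ⟨h.toPH.facet w b, ?_⟩
  intro u hu
  obtain ⟨huw, huV⟩ := Finset.mem_erase.mp hu
  obtain ⟨C, hC, h1, h2⟩ := hw.2 u huV huw (!b)
  exact ⟨update C w none, PH.mem_fac_of hC h1, by rw [update_of_ne huw]; exact h2⟩

/-- every variable is good or dominates a good one -/
theorem UH.good_below {V : Finset ℕ} {F : Finset Cube} (h : UH V F) :
    ∀ (n : ℕ) (v : ℕ), v ∈ V → dg F v = n →
      Good V F v ∨ ∃ w, Good V F w ∧ w ≠ v ∧ ∃ b, ∀ C ∈ F, C w ≠ none → C v = some b := by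
  intro n
  induction n using Nat.strong_induction_on with
  | _ n ih =>
    intro v hv hn
    by_cases hg : Good V F v
    · exact Or.inl hg
    right
    unfold Good at hg
    push Not at hg
    obtain ⟨u, huV, huv, b, hb⟩ := hg hv
    have hb' : ∀ C ∈ F, C u ≠ none → C v = some b := by
      intro C hC hu
      by_contra hne
      exact hu (hb C hC hne)
    have hlt : dg F u < dg F v := by
      have h1 : dg F u ≤ ct F v b := by
        unfold dg ct
        apply Finset.card_le_card
        intro C
        simp only [Finset.mem_filter]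
        rintro ⟨h1, h2⟩
        exact ⟨h1, hb' C h1 h2⟩
      have h2 := dg_eq F v b
      have h3 := h.ct_pos hv (!b)
      omega
    rcases ih (dg F u) (by omega) u huV rfl with h1 | ⟨w, hw, hwu, c, hc⟩
    · exact ⟨u, h1, huv, b, hb'⟩
    · have hall : ∀ C ∈ F, C w ≠ none → C v = some b := by
        intro C hC hwC
        apply hb' C hC
        rw [hc C hC hwC]
        simp
      refine ⟨w, hw, ?_, b, hall⟩
      rintro rfl
      obtain ⟨C, hC, h2⟩ := h.both hv (!b)
      have := hall C hC (by rw [h2]; simp)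
      rw [h2] at this
      exact some_ne_not b this.symm

theorem UH.exists_good {V : Finset ℕ} {F : Finset Cube} (h : UH V F) (hV : V.Nonempty) :
    ∃ w, Good V F w := by
  obtain ⟨v, hv⟩ := hV
  rcases h.good_below _ v hv rfl with h1 | ⟨w, hw, -⟩
  · exact ⟨v, h1⟩
  · exact ⟨w, hw⟩

/-- a variable of smallest degree is good -/
theorem UH.good_of_min {V : Finset ℕ} {F : Finset Cube} (h : UH V F) {v : ℕ} (hv : v ∈ V)
    (hm : ∀ u ∈ V, dg F v ≤ dg F u) : Good V F v := by
  rcases h.good_below _ v hv rfl with h1 | ⟨w, hw, -, b, hb⟩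
  · exact h1
  exfalso
  have h1 : dg F w ≤ ct F v b := by
    unfold dg ct
    apply Finset.card_le_card
    intro C
    simp only [Finset.mem_filter]
    rintro ⟨h1, h2⟩
    exact ⟨h1, hb C h1 h2⟩
  have h2 := dg_eq F v b
  have h3 := h.ct_pos hv (!b)
  have h4 := hm w hw.1
  omega

theorem PH.empty {F : Finset Cube} (h : PH ∅ F) : F = {fun _ => none} := by
  have h1 : ∀ C ∈ F, C = fun _ => none := by
    intro C hC
    funext v
    by_contra hne
    exact absurd (h.supp C hC v hne) (by simp)
  obtain ⟨C, hC, -⟩ := h.cov (fun _ => false)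
  ext D
  simp only [Finset.mem_singleton]
  constructor
  · intro hD
    exact h1 D hD
  · rintro rfl
    rw [← h1 C hC]
    exact hC

theorem UH.card_ge : ∀ (n : ℕ) {V : Finset ℕ} {F : Finset Cube}, UH V F → V.card = n →
    V.card + 1 ≤ F.card := by
  intro n
  induction n with
  | zero =>
    intro V F h hn
    have := h.toPH.card_pos
    omega
  | succ n ih =>
    intro V F h hn
    obtain ⟨w, hw⟩ := h.exists_good (Finset.card_pos.mp (by omega))
    have h1 := ih (h.facet hw false) (by rw [Finset.card_erase_of_mem hw.1]; omega)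
    have h2 := h.toPH.card_fac w false
    have h3 := h.ct_pos hw.1 (!false)
    rw [Finset.card_erase_of_mem hw.1] at h1
    omega

theorem UH.lt_card {V : Finset ℕ} {F : Finset Cube} (h : UH V F) : V.card + 1 ≤ F.card :=
  UH.card_ge _ h rfl

end Pool.Agent.Lib.MP_9abcb7_co
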