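import Pool.Agent.Lib.MP_9abcb7_co.TwoFin

set_option autoImplicit false

open Function

namespace Pool.Agent.Lib.MP_9abcb7_co

open scoped Classical

theorem pair_side {V : Finset ℕ} {F : Finset Cube} (h : PH V F) {x y : ℕ} {b : Bool} (hxy : x ≠ y)
    (hP : ∀ j, pr x b y j ∈ F) {C : Cube} (hC : C ∈ F) : C x = some (!b) ∨ ∃ j, C = pr x b y j := by
  by_contra hnot
  push Not at hnot
  obtain ⟨h1, h2⟩ := hnot
  have clash : ∀ j, C y = some (!j) := by
    intro j
    obtain ⟨v, c, hv1, hv2⟩ := h.hit _ (hP j) _ hC (Ne.symm (h2 j))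
    by_cases hvx : v = x
    · subst hvx
      rw [pr_fst b j hxy] at hv1
      cases hv1
      exact absurd hv2 h1
    · by_cases hvy : v = y
      · subst hvy
        rw [pr_snd] at hv1
        cases hv1
        exact hv2
      · rw [pr_ne b j hvx hvy] at hv1
        cases hv1
  have := clash true
  rw [clash false] at this
  cases this

/-- a split unit cube is impossible for deficiency nine with all degrees at least twelve -/
theorem UH.no_split {V : Finset ℕ} {F : Finset Cube} (h : UH V F) (hL : Lev 3 9 V F)
    (hV : 4 ≤ V.card) {x y : ℕ} {b : Bool} (hxy : x ≠ y) (hP : ∀ j, pr x b y j ∈ F) : False := by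
  have hx : x ∈ V := h.supp _ (hP true) x (by rw [pr_fst b true hxy]; simp)
  have hy : y ∈ V := h.supp _ (hP true) y (by rw [pr_snd]; simp)
  have hyx : y ∈ V.erase x := Finset.mem_erase.mpr ⟨Ne.symm hxy, hy⟩
  have hfil : F.filter (fun C => C x = some b) = {pr x b y true, pr x b y false} := by
    ext C
    simp only [Finset.mem_filter, Finset.mem_insert, Finset.mem_singleton]
    constructor
    · rintro ⟨hC, hCx⟩
      rcases pair_side h.toPH hxy hP hC with h1 | ⟨j, hj⟩
      · rw [hCx] at h1
        exact absurd h1 (some_ne_not b)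
      · cases j
        · exact Or.inr hj
        · exact Or.inl hj
    · rintro (rfl | rfl)
      · exact ⟨hP true, pr_fst b true hxy⟩
      · exact ⟨hP false, pr_fst b false hxy⟩
  have hct : ct F x b = 2 := by
    unfold ct
    rw [hfil, Finset.card_insert_of_notMem, Finset.card_singleton]
    rw [Finset.mem_singleton]
    intro he
    have := congrFun he y
    rw [pr_snd, pr_snd] at this
    cases this
  have hd2 : ∀ u, u ≠ x → u ≠ y → dg2 F x b u = 0 := by
    intro u hux huy
    unfold dg2
    rw [Finset.card_eq_zero, Finset.eq_empty_iff_forall_notMem]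
    intro C hC
    simp only [Finset.mem_filter] at hC
    have : C ∈ F.filter (fun C => C x = some b) := Finset.mem_filter.mpr ⟨hC.1, hC.2.1⟩
    rw [hfil] at this
    simp only [Finset.mem_insert, Finset.mem_singleton] at this
    rcases this with h1 | h1
    · exact hC.2.2 (by rw [h1, pr_ne b true hux huy])
    · exact hC.2.2 (by rw [h1, pr_ne b false hux huy])
  set G := fac F x (!b) with hG
  have hcard := h.toPH.card_fac x (!b)
  have hdgG : ∀ u, u ≠ x → dg G u + dg2 F x b u = dg F u := by
    intro u hux
    have := h.toPH.dg_fac (v := x) (u := u) (!b) hux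
    rwa [Bool.not_not] at this
  rw [Bool.not_not] at hcard
  have hVx := card_erase' hx
  have hu12 : ∀ u ∈ V.erase x, u ≠ y → 12 ≤ dg G u := by
    intro u hu huy
    obtain ⟨hux, huV⟩ := Finset.mem_erase.mp hu
    have h1 := hdgG u hux
    have h2 := hd2 u hux huy
    have h3 := hL.2 u huV
    omega
  have hy10 : 10 ≤ dg G y := by
    have h1 := hdgG y (Ne.symm hxy)
    have h2 := dg2_le F x b y
    have h3 := hL.2 y hy
    omega
  have hGU : UH (V.erase x) G := by
    refine ⟨h.toPH.facet x (!b), ?_⟩
    intro v hv
    have h1 : 1 ≤ dg G v := by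
      by_cases hvy : v = y
      · subst hvy; omega
      · have := hu12 v hv hvy; omega
    obtain ⟨C, hC⟩ := Finset.card_pos.mp h1
    exact ⟨C, (Finset.mem_filter.mp hC).1, (Finset.mem_filter.mp hC).2⟩
  have hGc : G.card = (V.erase x).card + 8 := by
    have := hL.1
    rw [← hG] at hcard
    omega
  by_cases hy12 : 12 ≤ dg G y
  · have : Lev 4 8 (V.erase x) G := by
      refine ⟨hGc, ?_⟩
      intro v hv
      by_cases hvy : v = y
      · subst hvy; omega
      · have := hu12 v hv hvy; omega
    have := hGU.level_bound 4 ⟨y, hyx⟩ this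
    omega
  · have hgood : Good (V.erase x) G y := by
      apply hGU.good_of_min hyx
      intro u hu
      by_cases huy : u = y
      · rw [huy]
      · have := hu12 u hu huy; omega
    have hne : ((V.erase x).erase y).Nonempty := by
      have := card_erase' hyx
      exact Finset.card_pos.mp (by omega)
    have key : ∀ c, ∃ kc, 8 ≤ kc + 3 ∧ kc + ct G y (!c) = 9 := by
      intro c
      obtain ⟨kc, h1, h2, h3⟩ := hGU.facet_k hgood hGc c
      refine ⟨kc, ?_, h3⟩
      have : Lev 3 kc ((V.erase x).erase y) (fac G y c) := by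
        refine ⟨h2, ?_⟩
        intro u hu
        obtain ⟨huy, huV⟩ := Finset.mem_erase.mp hu
        have e1 := hGU.toPH.dg_fac (v := y) (u := u) c huy
        have e2 := dg2_le G y (!c) u
        have e3 := hu12 u huV huy
        omega
      exact (hGU.facet hgood c).level_bound 3 hne this
    obtain ⟨k0, a0, b0⟩ := key false
    obtain ⟨k1, a1, b1⟩ := key true
    have h5 := dg_eq G y true
    simp only [Bool.not_false, Bool.not_true] at *
    omega

/-- deficiency at most nine, degrees at least `k + 3`, seven variables: there is a unit cube -/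
theorem UH.nine_unit {V : Finset ℕ} {F : Finset Cube} (h : UH V F) {k : ℕ} (hk : k ≤ 9)
    (hL : Lev 3 k V F) (hV : 7 ≤ V.card) (hn : NoUnit F) : False := by
  obtain ⟨w, hw, hcw⟩ := exists_good_uncovered h (by omega)
  obtain ⟨k0, h01, h02, h03⟩ := h.facet_lev hw hL false
  obtain ⟨k1, h11, h12, h13⟩ := h.facet_lev hw hL true
  have h5 := dg_eq F w true
  have h6 := hL.2 w hw.1
  have hVw := card_erase' hw.1
  simp only [Bool.not_false, Bool.not_true] at *
  by_cases c0 : k0 ≤ 3
  · exact (h.facet hw false).three_unit c0 h02 (by omega) (nounit_fac h.toPH hn hcw false)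
  by_cases c1 : k1 ≤ 3
  · exact (h.facet hw true).three_unit c1 h12 (by omega) (nounit_fac h.toPH hn hcw true)
  have e0 : k0 = 4 := by omega
  have e1 : k1 = 4 := by omega
  have ek : k = 9 := by omega
  subst e0 e1 ek
  obtain ⟨x, y, b, hxy, hP, -⟩ := (h.facet hw false).four_concl h02 (by omega)
    (nounit_fac h.toPH hn hcw false)
  obtain ⟨-, -, -, -, -, t1, ht1, t2, ht2, t3, ht3, h12', h13', h23', d1, d2, d3⟩ :=
    (h.facet hw true).four_concl h12 (by omega) (nounit_fac h.toPH hn hcw true)
  -- every cube with `w = false` contains the tight variables of the other facet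
  have hall : ∀ t ∈ V.erase w, dg (fac F w true) t = 6 → ∀ C ∈ F, C w = some false → C t ≠ none := by
    intro t ht hdt
    obtain ⟨htw, htV⟩ := Finset.mem_erase.mp ht
    have e1 := h.toPH.dg_fac (v := w) (u := t) true htw
    have e2 := hL.2 t htV
    simp only [Bool.not_true] at e1
    exact dg2_eq_all (by omega)
  apply h.no_split hL (by omega) hxy
  intro j
  obtain ⟨C, hC, hCw, he⟩ := PH.mem_fac.mp (hP j)
  have hxw : x ≠ w := by
    rintro rfl
    have := congrFun he x
    rw [update_self, pr_fst b j hxy] at this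
    cases this
  have hyw : y ≠ w := by
    rintro rfl
    have := congrFun he y
    rw [update_self, pr_snd] at this
    cases this
  rcases opt_cases (C w) false with h1 | h1 | h1
  · have : C = pr x b y j := by
      funext v
      by_cases hv : v = w
      · subst hv
        rw [h1, pr_ne b j (Ne.symm hxw) (Ne.symm hyw)]
      · have := congrFun he v
        rwa [update_of_ne hv] at this
    exact this ▸ hC
  · exfalso
    have hin : ∀ t ∈ V.erase w, dg (fac F w true) t = 6 → t = x ∨ t = y := by
      intro t ht hdt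
      by_contra hnot
      push Not at hnot
      apply hall t ht hdt C hC h1
      have := congrFun he t
      rwa [update_of_ne (Finset.mem_erase.mp ht).1, pr_ne b j hnot.1 hnot.2] at this
    rcases hin t1 ht1 d1 with r1 | r1 <;> rcases hin t2 ht2 d2 with r2 | r2 <;>
      rcases hin t3 ht3 d3 with r3 | r3
    · exact h12' (r1.trans r2.symm)
    · exact h12' (r1.trans r2.symm)
    · exact h13' (r1.trans r3.symm)
    · exact h23' (r2.trans r3.symm)
    · exact h23' (r2.trans r3.symm)
    · exact h13' (r1.trans r3.symm)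
    · exact h12' (r1.trans r2.symm)
    · exact h12' (r1.trans r2.symm)
  · exact absurd (by simpa using h1) hCw

theorem UH.step_unit {V : Finset ℕ} {F : Finset Cube} (h : UH V F) {m k K : ℕ}
    (hL : Lev (m + 1) k V F) (hV : 4 ≤ V.card) (hn : NoUnit F) (hk : k + 1 ≤ 2 * K + 1 + m)
    (ih : ∀ {V' : Finset ℕ} {F' : Finset Cube} {k' : ℕ}, UH V' F' → k' ≤ K → Lev m k' V' F' →
      V.card ≤ V'.card + 1 → NoUnit F' → False) : False := by
  obtain ⟨w, hw, hcw⟩ := exists_good_uncovered h hV
  obtain ⟨k0, h01, h02, h03⟩ := h.facet_lev hw hL false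
  obtain ⟨k1, h11, h12, h13⟩ := h.facet_lev hw hL true
  have h5 := dg_eq F w true
  have h6 := hL.2 w hw.1
  have hVw := card_erase' hw.1
  simp only [Bool.not_false, Bool.not_true] at *
  by_cases c0 : k0 ≤ K
  · exact ih (h.facet hw false) c0 h02 (by omega) (nounit_fac h.toPH hn hcw false)
  · exact ih (h.facet hw true) (k' := k1) (by omega) h12 (by omega) (nounit_fac h.toPH hn hcw true)

theorem UH.twentyone_unit {V : Finset ℕ} {F : Finset Cube} (h : UH V F) {k : ℕ} (hk : k ≤ 21)
    (hL : Lev 4 k V F) (hV : 8 ≤ V.card) (hn : NoUnit F) : False := by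
  apply h.step_unit (m := 3) (K := 9) hL (by omega) hn (by omega)
  intro V' F' k' h' hk' hL' hV' hn'
  exact h'.nine_unit hk' hL' (by omega) hn'

/-- deficiency at most 45, degrees at least `k + 5`, nine variables: there is a unit cube -/
theorem UH.fortyfive_unit {V : Finset ℕ} {F : Finset Cube} (h : UH V F) {k : ℕ} (hk : k ≤ 45)
    (hL : Lev 5 k V F) (hV : 9 ≤ V.card) (hn : NoUnit F) : False := by
  apply h.step_unit (m := 4) (K := 21) hL (by omega) hn (by omega)
  intro V' F' k' h' hk' hL' hV' hn'
  exact h'.twentyone_unit hk' hL' (by omega) hn'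

end Pool.Agent.Lib.MP_9abcb7_co
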