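import Mathlib

set_option autoImplicit false

/-!
Clause-sets over the literals `ℤ ∖ {0}`, as in the problem file.
-/

namespace Pool.Agent.MP_9abcb7_co

/-- A clause: a finite set of nonzero integers containing no `x` together with `-x`. -/
def IsClause (C : Finset ℤ) : Prop := (0 : ℤ) ∉ C ∧ ∀ x ∈ C, -x ∉ C

/-- A clause-set: a finite set of clauses. -/
def IsClauseSet (F : Finset (Finset ℤ)) : Prop := ∀ C ∈ F, IsClause C

/-- `var(F)`: the `v ≥ 1` with `v` or `-v` in some clause. -/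
def vars (F : Finset (Finset ℤ)) : Finset ℕ := F.biUnion (fun C => C.image Int.natAbs)

/-- The deficiency `δ(F) = c(F) - n(F)`. -/
def deficiency (F : Finset (Finset ℤ)) : ℤ := (F.card : ℤ) - ((vars F).card : ℤ)

/-- `F` is satisfiable: some clause meets every clause of `F`. -/
def Satisfiable (F : Finset (Finset ℤ)) : Prop :=
  ∃ φ : Finset ℤ, IsClause φ ∧ ∀ C ∈ F, (φ ∩ C).Nonempty

/-- `F` is a minimally unsatisfiable clause-set. -/
def MinUnsat (F : Finset (Finset ℤ)) : Prop :=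
  IsClauseSet F ∧ ¬ Satisfiable F ∧ ∀ C ∈ F, Satisfiable (F.erase C)

/-- `F` is hitting: any two distinct clauses clash. -/
def Hitting (F : Finset (Finset ℤ)) : Prop :=
  ∀ C ∈ F, ∀ D ∈ F, C ≠ D → ∃ x ∈ C, -x ∈ D

/-- `F` is an unsatisfiable hitting clause-set. -/
def UnsatHitting (F : Finset (Finset ℤ)) : Prop :=
  IsClauseSet F ∧ ¬ Satisfiable F ∧ Hitting F

/-- The degree of the variable `v` in `F`. -/
def vdeg (F : Finset (Finset ℤ)) (v : ℕ) : ℕ :=
  (F.filter (fun C => (v : ℤ) ∈ C)).card + (F.filter (fun C => -(v : ℤ) ∈ C)).card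

/-- The min-var-degree `μ(F)` (used only for `n(F) ≥ 1`). -/
noncomputable def minVarDeg (F : Finset (Finset ℤ)) : ℕ :=
  sInf {d : ℕ | ∃ v ∈ vars F, vdeg F v = d}

/-- The set of all `μ(F)` with `F` minimally unsatisfiable, `δ(F) = k` and `n(F) ≥ 1`;
`M(k)` is its greatest element. -/
def musDegrees (k : ℕ) : Set ℕ :=
  {d : ℕ | ∃ F : Finset (Finset ℤ), MinUnsat F ∧ deficiency F = k ∧ 1 ≤ (vars F).card ∧
    minVarDeg F = d}

end Pool.Agent.MP_9abcb7_co
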