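import Pool.Agent.Lib.MP_9abcb7_co.Defs

set_option autoImplicit false

/-!
A minimally unsatisfiable clause-set with 51 clauses and 6 variables, all of degree 50.
-/

namespace Pool.Agent.Lib.MP_9abcb7_co

open Pool.Agent.MP_9abcb7_co

/-- the full clause over `1, …, 6` falsified exactly when the set of true variables is `p` -/
def fullC (p : Finset ℕ) : Finset ℤ :=
  (Finset.Icc 1 6).image (fun v : ℕ => if v ∈ p then -(v : ℤ) else (v : ℤ))

/-- the points outside the two cubes -/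
def pts : Finset (Finset ℕ) :=
  (Finset.Icc 1 6).powerset.filter (fun p => (∃ v ∈ p, v ≤ 3) ∧ (∃ v ∈ p, 4 ≤ v))

/-- the clause-set -/
def G : Finset (Finset ℤ) := insert {1, 2, 3} (insert {4, 5, 6} (pts.image fullC))

theorem mem_fullC {p : Finset ℕ} {x : ℤ} : x ∈ fullC p ↔
    (∃ v : ℕ, 1 ≤ v ∧ v ≤ 6 ∧ v ∈ p ∧ x = -(v : ℤ)) ∨ (∃ v : ℕ, 1 ≤ v ∧ v ≤ 6 ∧ v ∉ p ∧ x = v) := by
  unfold fullC
  simp only [Finset.mem_image, Finset.mem_Icc]
  constructor
  · rintro ⟨v, ⟨h1, h2⟩, rfl⟩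
    by_cases hv : v ∈ p
    · exact Or.inl ⟨v, h1, h2, hv, by rw [if_pos hv]⟩
    · exact Or.inr ⟨v, h1, h2, hv, by rw [if_neg hv]⟩
  · rintro (⟨v, h1, h2, hv, rfl⟩ | ⟨v, h1, h2, hv, rfl⟩)
    · exact ⟨v, ⟨h1, h2⟩, by rw [if_pos hv]⟩
    · exact ⟨v, ⟨h1, h2⟩, by rw [if_neg hv]⟩

theorem mem_pts {p : Finset ℕ} : p ∈ pts ↔
    p ⊆ Finset.Icc 1 6 ∧ (∃ v ∈ p, v ≤ 3) ∧ (∃ v ∈ p, 4 ≤ v) := by
  unfold pts
  rw [Finset.mem_filter, Finset.mem_powerset]

theorem mem_G {C : Finset ℤ} : C ∈ G ↔ C = {1, 2, 3} ∨ C = {4, 5, 6} ∨ ∃ p ∈ pts, fullC p = C := by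
  unfold G
  simp only [Finset.mem_insert, Finset.mem_image]

theorem fullC_clause (p : Finset ℕ) : IsClause (fullC p) := by
  constructor
  · intro h
    rcases mem_fullC.mp h with ⟨v, h1, h2, hv, hx⟩ | ⟨v, h1, h2, hv, hx⟩ <;> omega
  · intro x hx hx'
    rcases mem_fullC.mp hx with ⟨v, h1, h2, hv, rfl⟩ | ⟨v, h1, h2, hv, rfl⟩
    · rcases mem_fullC.mp hx' with ⟨u, h3, h4, hu, he⟩ | ⟨u, h3, h4, hu, he⟩
      · omega
      · have : u = v := by omega
        subst this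
        exact hu hv
    · rcases mem_fullC.mp hx' with ⟨u, h3, h4, hu, he⟩ | ⟨u, h3, h4, hu, he⟩
      · have : u = v := by omega
        subst this
        exact hv hu
      · omega

/-- the clause satisfied exactly at the point `p` -/
def negC (p : Finset ℕ) : Finset ℤ :=
  (Finset.Icc 1 6).image (fun v : ℕ => if v ∈ p then (v : ℤ) else -(v : ℤ))

theorem mem_negC {p : Finset ℕ} {x : ℤ} : x ∈ negC p ↔
    (∃ v : ℕ, 1 ≤ v ∧ v ≤ 6 ∧ v ∈ p ∧ x = (v : ℤ)) ∨ (∃ v : ℕ, 1 ≤ v ∧ v ≤ 6 ∧ v ∉ p ∧ x = -v) := by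
  unfold negC
  simp only [Finset.mem_image, Finset.mem_Icc]
  constructor
  · rintro ⟨v, ⟨h1, h2⟩, rfl⟩
    by_cases hv : v ∈ p
    · exact Or.inl ⟨v, h1, h2, hv, by rw [if_pos hv]⟩
    · exact Or.inr ⟨v, h1, h2, hv, by rw [if_neg hv]⟩
  · rintro (⟨v, h1, h2, hv, rfl⟩ | ⟨v, h1, h2, hv, rfl⟩)
    · exact ⟨v, ⟨h1, h2⟩, by rw [if_pos hv]⟩
    · exact ⟨v, ⟨h1, h2⟩, by rw [if_neg hv]⟩

theorem negC_clause (p : Finset ℕ) : IsClause (negC p) := by
  constructor
  · intro h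
    rcases mem_negC.mp h with ⟨v, h1, h2, hv, hx⟩ | ⟨v, h1, h2, hv, hx⟩ <;> omega
  · intro x hx hx'
    rcases mem_negC.mp hx with ⟨v, h1, h2, hv, rfl⟩ | ⟨v, h1, h2, hv, rfl⟩
    · rcases mem_negC.mp hx' with ⟨u, h3, h4, hu, he⟩ | ⟨u, h3, h4, hu, he⟩
      · omega
      · have : u = v := by omega
        subst this
        exact hu hv
    · rcases mem_negC.mp hx' with ⟨u, h3, h4, hu, he⟩ | ⟨u, h3, h4, hu, he⟩
      · have : u = v := by omega
        subst this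
        exact hv hu
      · omega

/-- `negC p` meets `fullC q` for `p ≠ q` -/
theorem neg_meets {p q : Finset ℕ} (hp : p ⊆ Finset.Icc 1 6) (hq : q ⊆ Finset.Icc 1 6)
    (hne : p ≠ q) : (negC p ∩ fullC q).Nonempty := by
  by_contra hemp
  rw [Finset.not_nonempty_iff_eq_empty] at hemp
  apply hne
  ext v
  constructor
  · intro hv
    by_contra hv'
    have h1 := Finset.mem_Icc.mp (hp hv)
    have : (v : ℤ) ∈ negC p ∩ fullC q := Finset.mem_inter.mpr
      ⟨mem_negC.mpr (Or.inl ⟨v, h1.1, h1.2, hv, rfl⟩), mem_fullC.mpr (Or.inr ⟨v, h1.1, h1.2, hv', rfl⟩)⟩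
    rw [hemp] at this
    simp at this
  · intro hv
    by_contra hv'
    have h1 := Finset.mem_Icc.mp (hq hv)
    have : -(v : ℤ) ∈ negC p ∩ fullC q := Finset.mem_inter.mpr
      ⟨mem_negC.mpr (Or.inr ⟨v, h1.1, h1.2, hv', rfl⟩), mem_fullC.mpr (Or.inl ⟨v, h1.1, h1.2, hv, rfl⟩)⟩
    rw [hemp] at this
    simp at this

theorem G_unsat : ¬ Satisfiable G := by
  rintro ⟨φ, hφ, hmeet⟩
  let p : Finset ℕ := (Finset.Icc 1 6).filter (fun v : ℕ => (v : ℤ) ∈ φ)
  have hp : p ∈ pts := by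
    rw [mem_pts]
    refine ⟨Finset.filter_subset _ _, ?_, ?_⟩
    · obtain ⟨x, hx⟩ := hmeet {1, 2, 3} (mem_G.mpr (Or.inl rfl))
      obtain ⟨h1, h2⟩ := Finset.mem_inter.mp hx
      simp only [Finset.mem_insert, Finset.mem_singleton] at h2
      refine ⟨x.natAbs, Finset.mem_filter.mpr ⟨Finset.mem_Icc.mpr (by omega), ?_⟩, by omega⟩
      have : ((x.natAbs : ℕ) : ℤ) = x := by omega
      rw [this]; exact h1
    · obtain ⟨x, hx⟩ := hmeet {4, 5, 6} (mem_G.mpr (Or.inr (Or.inl rfl)))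
      obtain ⟨h1, h2⟩ := Finset.mem_inter.mp hx
      simp only [Finset.mem_insert, Finset.mem_singleton] at h2
      refine ⟨x.natAbs, Finset.mem_filter.mpr ⟨Finset.mem_Icc.mpr (by omega), ?_⟩, by omega⟩
      have : ((x.natAbs : ℕ) : ℤ) = x := by omega
      rw [this]; exact h1
  obtain ⟨x, hx⟩ := hmeet (fullC p) (mem_G.mpr (Or.inr (Or.inr ⟨p, hp, rfl⟩)))
  obtain ⟨h1, h2⟩ := Finset.mem_inter.mp hx
  rcases mem_fullC.mp h2 with ⟨v, h3, h4, hv, rfl⟩ | ⟨v, h3, h4, hv, rfl⟩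
  · exact hφ.2 _ h1 (by rw [neg_neg]; exact (Finset.mem_filter.mp hv).2)
  · exact hv (Finset.mem_filter.mpr ⟨Finset.mem_Icc.mpr ⟨h3, h4⟩, h1⟩)

theorem G_minUnsat : MinUnsat G := by
  refine ⟨?_, G_unsat, ?_⟩
  · intro C hC
    rcases mem_G.mp hC with rfl | rfl | ⟨p, -, rfl⟩
    · unfold IsClause; decide
    · unfold IsClause; decide
    · exact fullC_clause p
  · intro C hC
    rcases mem_G.mp hC with rfl | rfl | ⟨p, hp, rfl⟩
    · refine ⟨negC {4, 5, 6}, negC_clause _, ?_⟩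
      intro D hD
      obtain ⟨hne, hD⟩ := Finset.mem_erase.mp hD
      rcases mem_G.mp hD with rfl | rfl | ⟨q, hq, rfl⟩
      · exact absurd rfl hne
      · exact ⟨4, by decide⟩
      · refine neg_meets (by decide) (mem_pts.mp hq).1 ?_
        rintro rfl
        obtain ⟨v, hv, hv'⟩ := (mem_pts.mp hq).2.1
        simp only [Finset.mem_insert, Finset.mem_singleton] at hv
        omega
    · refine ⟨negC {1, 2, 3}, negC_clause _, ?_⟩
      intro D hD
      obtain ⟨hne, hD⟩ := Finset.mem_erase.mp hD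
      rcases mem_G.mp hD with rfl | rfl | ⟨q, hq, rfl⟩
      · exact ⟨1, by decide⟩
      · exact absurd rfl hne
      · refine neg_meets (by decide) (mem_pts.mp hq).1 ?_
        rintro rfl
        obtain ⟨v, hv, hv'⟩ := (mem_pts.mp hq).2.2
        simp only [Finset.mem_insert, Finset.mem_singleton] at hv
        omega
    · refine ⟨negC p, negC_clause _, ?_⟩
      obtain ⟨hsub, ⟨v, hv, hv3⟩, ⟨u, hu, hu4⟩⟩ := mem_pts.mp hp
      have hv1 := Finset.mem_Icc.mp (hsub hv)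
      have hu1 := Finset.mem_Icc.mp (hsub hu)
      intro D hD
      obtain ⟨hne, hD⟩ := Finset.mem_erase.mp hD
      rcases mem_G.mp hD with rfl | rfl | ⟨q, hq, rfl⟩
      · refine ⟨(v : ℤ), Finset.mem_inter.mpr ⟨mem_negC.mpr (Or.inl ⟨v, hv1.1, hv1.2, hv, rfl⟩), ?_⟩⟩
        simp only [Finset.mem_insert, Finset.mem_singleton]
        omega
      · refine ⟨(u : ℤ), Finset.mem_inter.mpr ⟨mem_negC.mpr (Or.inl ⟨u, hu1.1, hu1.2, hu, rfl⟩), ?_⟩⟩
        simp only [Finset.mem_insert, Finset.mem_singleton]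
        omega
      · refine neg_meets hsub (mem_pts.mp hq).1 ?_
        rintro rfl
        exact hne rfl

set_option maxRecDepth 100000 in
theorem G_card : G.card = 51 := by decide +kernel

set_option maxRecDepth 100000 in
theorem G_vars : vars G = Finset.Icc 1 6 := by decide +kernel

set_option maxRecDepth 100000 in
theorem G_deg : ∀ v ∈ Finset.Icc 1 6, vdeg G v = 50 := by decide +kernel

theorem G_deficiency : deficiency G = 45 := by
  unfold deficiency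
  rw [G_card, G_vars]
  simp

theorem G_mu : minVarDeg G = 50 := by
  unfold minVarDeg
  have : {d : ℕ | ∃ v ∈ vars G, vdeg G v = d} = {50} := by
    ext d
    simp only [Set.mem_ofPred_eq, Set.mem_singleton_iff]
    rw [G_vars]
    constructor
    · rintro ⟨v, hv, rfl⟩
      exact G_deg v hv
    · rintro rfl
      exact ⟨1, by decide, G_deg 1 (by decide)⟩
  rw [this]
  exact csInf_singleton 50

end Pool.Agent.Lib.MP_9abcb7_co
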