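import Pool.Agent.Lib.MP_9abcb7_co.Arg

set_option autoImplicit false

open Function

namespace Pool.Agent.Lib.MP_9abcb7_co

open scoped Classical

namespace Ctx

variable {V : Finset ℕ} {F : Finset Cube} {w : ℕ} {a : Bool} {k : ℕ}

theorem big (c : Ctx V F w a k) {z v v' : ℕ} (hz : z ∈ V.erase w) (hdz : dg (fac F w a) z = 2)
    (hv : v ∈ V.erase w) (hdv : dg (fac F w a) v = 2)
    (hv' : v' ∈ V.erase w) (hdv' : dg (fac F w a) v' = 2) (hzv : z ≠ v) (hzv' : z ≠ v')
    (hvv : v ≠ v') {C : Cube} (hC : C ∈ F) (hw : C w = some a) {e : Bool} (h1 : C z ≠ some (!e))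
    (h2 : C v = none) (h3 : C v' = none) : 5 ≤ k := by
  have key : ∀ i j, 1 ≤ cn F (fun D => ((D w = some (!a) ∧ D z = some e) ∧ D v = some i) ∧
      D v' = some j) := by
    intro i j
    obtain ⟨D, hD, hDw, hD1, hD2, hD3, -⟩ := c.h.toPH.meet3 hC hw (Finset.mem_erase.mp hv).1
      (Finset.mem_erase.mp hv').1 hvv (c.allB hv hdv) (c.allB hv' hdv') (i := i) (j := j)
      (by rw [h2]; simp) (by rw [h3]; simp) (Finset.mem_erase.mp hz).1 hzv hzv' h1
    refine cn_pos hD ⟨⟨⟨hDw, ?_⟩, hD1⟩, hD2⟩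
    rcases ne_none_cases (c.allB hz hdz D hD hDw) e with h | h
    · exact h
    · exact absurd h hD3
  have s1 := cn_split' (F := F) (P := fun D => (D w = some (!a) ∧ D z = some e) ∧ D v = some true)
    (u := v') true (fun D hD hP => c.allB hv' hdv' D hD hP.1.1)
  have s2 := cn_split' (F := F) (P := fun D => (D w = some (!a) ∧ D z = some e) ∧ D v = some false)
    (u := v') true (fun D hD hP => c.allB hv' hdv' D hD hP.1.1)
  have s3 := cn_split' (F := F) (P := fun D => (D w = some (!a) ∧ D z = some e))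
    (u := v) true (fun D hD hP => c.allB hv hdv D hD hP.1)
  have s4 := c.sumU hz hdz e
  obtain ⟨D, hD, hDw, hDz⟩ := c.bothB hz hdz (!e)
  have s5 : 1 ≤ cn F (fun D => D w = some (!a) ∧ D z = some (!e)) := cn_pos hD ⟨hDw, hDz⟩
  have k1 := key true true
  have k2 := key true false
  have k3 := key false true
  have k4 := key false false
  simp only [Bool.not_true] at s1 s2 s3
  omega

/-- at most two variables of degree two -/
theorem no_third (c : Ctx V F w a k) (hk : k ≤ 4) {z v v' : ℕ} (hz : z ∈ V.erase w)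
    (hdz : dg (fac F w a) z = 2) (hv : v ∈ V.erase w) (hdv : dg (fac F w a) v = 2)
    (hv' : v' ∈ V.erase w) (hdv' : dg (fac F w a) v' = 2) (hzv : z ≠ v) (hzv' : z ≠ v')
    (hvv : v ≠ v') : False := by
  obtain ⟨C, -, hC, -, hw, -, -⟩ := c.twoA
  have hap : ∀ x y, x ∈ V.erase w → y ∈ V.erase w → dg (fac F w a) x = 2 →
      dg (fac F w a) y = 2 → x ≠ y → C x ≠ none → C y = none := by
    intro x y hx hy hdx hdy hxy hCx
    have := c.T.bots_apart hx hy hdx hdy hxy (c.mem hC hw)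
      (by rw [update_of_ne (Finset.mem_erase.mp hx).1]; exact hCx)
    rwa [update_of_ne (Finset.mem_erase.mp hy).1] at this
  have pick : ∀ x, ∃ e, C x ≠ some (!e) := by
    intro x
    rcases opt_cases (C x) true with h | h | h
    · exact ⟨true, by rw [h]; simp⟩
    · exact ⟨true, by rw [h]; simp⟩
    · exact ⟨false, by rw [h]; simp⟩
  by_cases h1 : C v = none
  · by_cases h2 : C v' = none
    · obtain ⟨e, he⟩ := pick z
      have := c.big hz hdz hv hdv hv' hdv' hzv hzv' hvv hC hw he h1 h2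
      omega
    · have h3 := hap v' z hv' hz hdv' hdz (Ne.symm hzv') h2
      obtain ⟨e, he⟩ := pick v'
      have := c.big hv' hdv' hv hdv hz hdz (Ne.symm hvv) (Ne.symm hzv') (Ne.symm hzv) hC hw he h1 h3
      omega
  · have h2 := hap v v' hv hv' hdv hdv' hvv h1
    have h3 := hap v z hv hz hdv hdz (Ne.symm hzv) h1
    obtain ⟨e, he⟩ := pick v
    have := c.big hv hdv hv' hdv' hz hdz hvv (Ne.symm hzv) (Ne.symm hzv') hC hw he h2 h3
    omega

/-- common data for the case analysis with `k = 4` -/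
structure PQ (V : Finset ℕ) (F : Finset Cube) (w : ℕ) (a : Bool) (p q : ℕ) : Prop where
  hp : p ∈ V.erase w
  hdp : dg (fac F w a) p = 2
  hq : q ∈ V.erase w
  hdq : dg (fac F w a) q = 2
  hpq : p ≠ q
  ap : ∀ C ∈ F, C w = some a → C p ≠ none → C q = none

theorem lack_two (c : Ctx V F w a k) {l : ℕ} (hl : l ∈ V.erase w) (hd : dg (fac F w a) l = 3)
    {D E : Cube} (hD : D ∈ F) (hDw : D w = some (!a)) (hDl : D l = none) (hE : E ∈ F)
    (hEw : E w = some (!a)) (hEl : E l = none) : D = E := by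
  have := c.lack hl
  exact cn_le_one (show cn F (fun D => D w = some (!a) ∧ D l = none) ≤ 1 by omega)
    hD ⟨hDw, hDl⟩ hE ⟨hEw, hEl⟩

theorem ne_of_val {D E : Cube} {x : ℕ} {e : Bool} (h1 : D x = some e) (h2 : E x = some (!e)) :
    D ≠ E := by
  rintro rfl
  rw [h1] at h2
  exact some_ne_not e h2

/-- if `C` contains `p` but not `m`, three cubes agree with `C` at `p` -/
theorem three (c : Ctx V F w a 4) {p q : ℕ} (P : PQ V F w a p q) {m : ℕ} (hm : m ∈ V.erase w)
    (hdm : dg (fac F w a) m = 3) (hmp : m ≠ p) (hmq : m ≠ q)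
    {C : Cube} (hC : C ∈ F) (hw : C w = some a) {e : Bool} (hCp : C p = some e) (hCq : C q = none)
    (hCm : C m = none) :
    cn F (fun D => D w = some (!a) ∧ D p = some e) = 3 ∧
    cn F (fun D => D w = some (!a) ∧ D p = some (!e)) = 1 := by
  have n1 := c.cell P.hp P.hdp P.hq P.hdq P.hpq hC hw (i := e) (j := true)
    (by rw [hCp]; exact some_ne_not _) (by rw [hCq]; simp)
  have n2 := c.cell P.hp P.hdp P.hq P.hdq P.hpq hC hw (i := e) (j := false)
    (by rw [hCp]; exact some_ne_not _) (by rw [hCq]; simp)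
  have s1 := c.sumUV (u := p) P.hq P.hdq e true
  have s2 := c.sumU P.hp P.hdp e
  obtain ⟨D, hD, hDw, hDp⟩ := c.bothB P.hp P.hdp (!e)
  have s3 : 1 ≤ cn F (fun D => D w = some (!a) ∧ D p = some (!e)) := cn_pos hD ⟨hDw, hDp⟩
  simp only [Bool.not_true] at s1
  by_contra hnot
  have t1 : cn F (fun D => (D w = some (!a) ∧ D p = some e) ∧ D q = some true) ≤ 1 := by omega
  have t2 : cn F (fun D => (D w = some (!a) ∧ D p = some e) ∧ D q = some false) ≤ 1 := by omega
  obtain ⟨D1, hD1, ⟨hw1, hp1⟩, hq1⟩ := cn_exists n1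
  obtain ⟨D2, hD2, ⟨hw2, hp2⟩, hq2⟩ := cn_exists n2
  have L1 := c.lack2 P.hp P.hdp P.hq P.hdq P.hpq hC hw (i := e) (j := true)
    (by rw [hCp]; exact some_ne_not _) (by rw [hCq]; simp) t1 (Finset.mem_erase.mp hm).1 hmp hmq
    hCm D1 hD1 hw1 hp1 hq1
  have L2 := c.lack2 P.hp P.hdp P.hq P.hdq P.hpq hC hw (i := e) (j := false)
    (by rw [hCp]; exact some_ne_not _) (by rw [hCq]; simp) t2 (Finset.mem_erase.mp hm).1 hmp hmq
    hCm D2 hD2 hw2 hp2 hq2
  have := c.lack_two hm hdm hD1 hw1 L1 hD2 hw2 L2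
  exact ne_of_val hq1 (by simpa using hq2) this

/-- a cube of the first side missing both degree-two variables contains every variable of degree 3 -/
theorem neither (c : Ctx V F w a 4) {p q : ℕ} (P : PQ V F w a p q) {m : ℕ} (hm : m ∈ V.erase w)
    (hdm : dg (fac F w a) m = 3) (hmp : m ≠ p) (hmq : m ≠ q)
    {C : Cube} (hC : C ∈ F) (hw : C w = some a) (hCp : C p = none) (hCq : C q = none) :
    (∀ i j, cn F (fun D => (D w = some (!a) ∧ D p = some i) ∧ D q = some j) = 1) ∧ C m ≠ none := by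
  have h4 := (c.four P.hp P.hdp P.hq P.hdq P.hpq hC hw hCp hCq).2
  have hone : ∀ i j, cn F (fun D => (D w = some (!a) ∧ D p = some i) ∧ D q = some j) = 1 := by
    intro i j
    have := c.sum4 P.hp P.hdp P.hq P.hdq i j
    have h1 := h4 i j
    have h2 := h4 i (!j)
    have h3 := h4 (!i) j
    have h5 := h4 (!i) (!j)
    omega
  refine ⟨hone, ?_⟩
  intro hCm
  obtain ⟨D1, hD1, ⟨hw1, hp1⟩, hq1⟩ := cn_exists (h4 true true)
  obtain ⟨D2, hD2, ⟨hw2, hp2⟩, hq2⟩ := cn_exists (h4 true false)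
  have L1 := c.lack2 P.hp P.hdp P.hq P.hdq P.hpq hC hw (i := true) (j := true)
    (by rw [hCp]; simp) (by rw [hCq]; simp) (hone _ _).le (Finset.mem_erase.mp hm).1 hmp hmq
    hCm D1 hD1 hw1 hp1 hq1
  have L2 := c.lack2 P.hp P.hdp P.hq P.hdq P.hpq hC hw (i := true) (j := false)
    (by rw [hCp]; simp) (by rw [hCq]; simp) (hone _ _).le (Finset.mem_erase.mp hm).1 hmp hmq
    hCm D2 hD2 hw2 hp2 hq2
  have := c.lack_two hm hdm hD1 hw1 L1 hD2 hw2 L2
  exact ne_of_val hq1 (by simpa using hq2) this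

/-- Case I, last step -/
theorem caseI_mixed (c : Ctx V F w a 4) {p q : ℕ} (P : PQ V F w a p q) {l m : ℕ}
    (hl : l ∈ V.erase w) (hdl : dg (fac F w a) l = 3) (hlp : l ≠ p) (hlq : l ≠ q)
    (hm : m ∈ V.erase w) (hdm : dg (fac F w a) m = 3) (hmp : m ≠ p) (hmq : m ≠ q)
    {C C' : Cube} (hC : C ∈ F) (hw : C w = some a) (hC' : C' ∈ F) (hw' : C' w = some a)
    {e f : Bool} (hCp : C p = some e) (hCq : C q = none) (hC'q : C' q = some f) (hC'p : C' p = none)
    {l0 : Bool} (hCl : C l = some l0) (hCm : C m = none) (hC'l : C' l = none) : False := by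
  have P' : PQ V F w a q p := ⟨P.hq, P.hdq, P.hp, P.hdp, Ne.symm P.hpq, by
    intro E hE hEw hEq
    by_contra hne
    exact hEq (P.ap E hE hEw hne)⟩
  obtain ⟨a1, a2⟩ := c.three P hm hdm hmp hmq hC hw hCp hCq hCm
  obtain ⟨b1, b2⟩ := c.three P' hl hdl hlq hlp hC' hw' hC'q hC'p hC'l
  -- cells
  have n1 := c.cell P.hp P.hdp P.hq P.hdq P.hpq hC hw (i := e) (j := f)
    (by rw [hCp]; exact some_ne_not _) (by rw [hCq]; simp)
  have n2 := c.cell P.hp P.hdp P.hq P.hdq P.hpq hC hw (i := e) (j := !f)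
    (by rw [hCp]; exact some_ne_not _) (by rw [hCq]; simp)
  have n3 := c.cell P.hp P.hdp P.hq P.hdq P.hpq hC' hw' (i := !e) (j := f)
    (by rw [hC'p]; simp) (by rw [hC'q]; exact some_ne_not _)
  have s1 := c.sumUV (u := p) P.hq P.hdq e f
  have s2 := c.sumUV (u := p) P.hq P.hdq (!e) f
  have s3 : cn F (fun D => (D w = some (!a) ∧ D p = some e) ∧ D q = some (!f)) ≤
      cn F (fun D => D w = some (!a) ∧ D q = some (!f)) :=
    cn_mono (fun D _ h => ⟨h.1.1, h.2⟩)
  have t1 : cn F (fun D => (D w = some (!a) ∧ D p = some e) ∧ D q = some (!f)) = 1 := by omega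
  have t2 : cn F (fun D => (D w = some (!a) ∧ D p = some (!e)) ∧ D q = some f) = 1 := by omega
  have t3 : cn F (fun D => (D w = some (!a) ∧ D p = some e) ∧ D q = some f) = 2 := by omega
  obtain ⟨D', hD', ⟨hw1, hp1⟩, hq1⟩ := cn_exists n2
  obtain ⟨D'', hD'', ⟨hw2, hp2⟩, hq2⟩ := cn_exists n3
  have L1 := c.lack2 P.hp P.hdp P.hq P.hdq P.hpq hC hw (i := e) (j := !f)
    (by rw [hCp]; exact some_ne_not _) (by rw [hCq]; simp) t1.le (Finset.mem_erase.mp hm).1 hmp hmq
    hCm D' hD' hw1 hp1 hq1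
  have L2 := c.lack2 P.hp P.hdp P.hq P.hdq P.hpq hC' hw' (i := !e) (j := f)
    (by rw [hC'p]; simp) (by rw [hC'q]; exact some_ne_not _) t2.le (Finset.mem_erase.mp hl).1 hlp hlq
    hC'l D'' hD'' hw2 hp2 hq2
  obtain ⟨D1, hD1, hw3, hp3, hq3, hl3, -⟩ := c.h.toPH.meet3 hC' hw' (Finset.mem_erase.mp P.hp).1
    (Finset.mem_erase.mp P.hq).1 P.hpq (c.allB P.hp P.hdp) (c.allB P.hq P.hdq) (i := e) (j := f)
    (by rw [hC'p]; simp) (by rw [hC'q]; exact some_ne_not _) (Finset.mem_erase.mp hl).1 hlp hlq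
    (e := !l0) (by rw [hC'l]; simp)
  have hD1l : D1 l = some (!l0) := by
    rcases opt_cases (D1 l) l0 with h | h | h
    · exfalso
      have := c.lack_two hl hdl hD1 hw3 h hD'' hw2 L2
      exact ne_of_val hp3 hp2 this
    · exact absurd (by simpa using h) hl3
    · exact h
  obtain ⟨D2, hD2, hw4, hp4, hq4, hm4⟩ := c.h.toPH.meet2 hC hw (Finset.mem_erase.mp P.hp).1
    (Finset.mem_erase.mp P.hq).1 P.hpq (c.allB P.hp P.hdp) (c.allB P.hq P.hdq) (i := e) (j := f)
    (by rw [hCp]; exact some_ne_not _) (by rw [hCq]; simp)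
  have hD2l := hm4 l (Finset.mem_erase.mp hl).1 l0 hCl
  have h21 : D2 ≠ D1 := by
    rintro rfl
    exact hD2l hD1l
  have hpair : ∀ E ∈ F, (E w = some (!a) ∧ E p = some e) ∧ E q = some f → E ≠ D1 → E = D2 := by
    intro E hE hEP hE1
    by_contra hE2
    have hsub : ({E, D1, D2} : Finset Cube) ⊆
        F.filter (fun D => (D w = some (!a) ∧ D p = some e) ∧ D q = some f) := by
      intro X hX
      simp only [Finset.mem_insert, Finset.mem_singleton] at hX
      simp only [Finset.mem_filter]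
      rcases hX with rfl | rfl | rfl
      · exact ⟨hE, hEP⟩
      · exact ⟨hD1, ⟨hw3, hp3⟩, hq3⟩
      · exact ⟨hD2, ⟨hw4, hp4⟩, hq4⟩
    have hcard := Finset.card_le_card hsub
    rw [Finset.card_insert_of_notMem (by simp [hE1, hE2]),
      Finset.card_insert_of_notMem (by simpa using Ne.symm h21), Finset.card_singleton] at hcard
    have : cn F (fun D => (D w = some (!a) ∧ D p = some e) ∧ D q = some f) =
        (F.filter (fun D => (D w = some (!a) ∧ D p = some e) ∧ D q = some f)).card := by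
      unfold cn; congr
    omega
  have L3 : D2 m = none := by
    apply c.h.toPH.only2 hC hw (Finset.mem_erase.mp P.hp).1
      (Finset.mem_erase.mp P.hq).1 P.hpq (c.allB P.hp P.hdp) (c.allB P.hq P.hdq) (i := e) (j := f)
      (by rw [hCp]; exact some_ne_not _) (by rw [hCq]; simp) (Finset.mem_erase.mp hm).1 hmp hmq hCm
    intro E hE hEw hEp hEq hEm
    apply hpair E hE ⟨⟨hEw, hEp⟩, hEq⟩
    rintro rfl
    exact hEm l (Finset.mem_erase.mp hl).1 l0 hCl hD1l
  have := c.lack_two hm hdm hD2 hw4 L3 hD' hw1 L1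
  exact ne_of_val hq4 hq1 this

/-- Case I is impossible -/
theorem caseI (c : Ctx V F w a 4) {p q : ℕ} (P : PQ V F w a p q) {l m : ℕ}
    (hl : l ∈ V.erase w) (hdl : dg (fac F w a) l = 3) (hlp : l ≠ p) (hlq : l ≠ q)
    (hm : m ∈ V.erase w) (hdm : dg (fac F w a) m = 3) (hmp : m ≠ p) (hmq : m ≠ q)
    (hpl : ∀ C ∈ F, C w = some a → C p ≠ none → C l ≠ none ∧ C m = none)
    (hqm : ∀ C ∈ F, C w = some a → C q ≠ none → C m ≠ none ∧ C l = none)
    (hlm : ∀ C ∈ F, C w = some a → C l ≠ none → C m = none) : False := by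
  have P' : PQ V F w a q p := ⟨P.hq, P.hdq, P.hp, P.hdp, Ne.symm P.hpq, by
    intro E hE hEw hEq
    by_contra hne
    exact hEq (P.ap E hE hEw hne)⟩
  obtain ⟨C, C', hC, hC', hw, hw', hCC⟩ := c.twoA
  have hor : ∀ C ∈ F, C w = some a → C p = none → C q ≠ none := by
    intro C hC hw h1 h2
    obtain ⟨-, e1⟩ := c.neither P hl hdl hlp hlq hC hw h1 h2
    obtain ⟨-, e2⟩ := c.neither P hm hdm hmp hmq hC hw h1 h2
    exact e2 (hlm C hC hw e1)
  by_cases h1 : C p = none
  · have h2 := hor C hC hw h1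
    obtain ⟨f, hf⟩ := Option.ne_none_iff_exists'.mp h2
    by_cases h3 : C' p = none
    · have h4 := hor C' hC' hw' h3
      obtain ⟨f', hf'⟩ := Option.ne_none_iff_exists'.mp h4
      by_cases hff : f = f'
      · subst hff
        exact hCC (c.uniqA P.hq P.hdq hC hw hC' hw' hf hf')
      · have hff' : f' = !f := by cases f <;> cases f' <;> simp_all
        subst hff'
        have x1 := c.three P' hl hdl hlq hlp hC hw hf h1 (hqm C hC hw h2).2
        have x2 := c.three P' hl hdl hlq hlp hC' hw' hf' h3 (hqm C' hC' hw' h4).2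
        omega
    · obtain ⟨e, he⟩ := Option.ne_none_iff_exists'.mp h3
      obtain ⟨l0, hl0⟩ := Option.ne_none_iff_exists'.mp (hpl C' hC' hw' h3).1
      exact c.caseI_mixed P hl hdl hlp hlq hm hdm hmp hmq hC' hw' hC hw he (P.ap C' hC' hw' h3)
        hf h1 hl0 (hpl C' hC' hw' h3).2 (hqm C hC hw h2).2
  · obtain ⟨e, he⟩ := Option.ne_none_iff_exists'.mp h1
    obtain ⟨l0, hl0⟩ := Option.ne_none_iff_exists'.mp (hpl C hC hw h1).1
    by_cases h3 : C' p = none
    · have h4 := hor C' hC' hw' h3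
      obtain ⟨f, hf⟩ := Option.ne_none_iff_exists'.mp h4
      exact c.caseI_mixed P hl hdl hlp hlq hm hdm hmp hmq hC hw hC' hw' he (P.ap C hC hw h1)
        hf h3 hl0 (hpl C hC hw h1).2 (hqm C' hC' hw' h4).2
    · obtain ⟨e', he'⟩ := Option.ne_none_iff_exists'.mp h3
      by_cases hee : e = e'
      · subst hee
        exact hCC (c.uniqA P.hp P.hdp hC hw hC' hw' he he')
      · have hee' : e' = !e := by cases e <;> cases e' <;> simp_all
        subst hee'
        have x1 := c.three P hm hdm hmp hmq hC hw he (P.ap C hC hw h1) (hpl C hC hw h1).2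
        have x2 := c.three P hm hdm hmp hmq hC' hw' he' (P.ap C' hC' hw' h3) (hpl C' hC' hw' h3).2
        omega

/-- Case II: all cubes of the first side contain `p` -/
theorem caseII (c : Ctx V F w a 4) {p q : ℕ} (P : PQ V F w a p q) {l l' : ℕ}
    (hl : l ∈ V.erase w) (hdl : dg (fac F w a) l = 3) (hlp : l ≠ p) (hlq : l ≠ q)
    (hl' : l' ∈ V.erase w) (hdl' : dg (fac F w a) l' = 4) (hlp' : l' ≠ p) (hlq' : l' ≠ q)
    (hll : l ≠ l') {l0 : Bool}
    (hpl : ∀ C ∈ F, C w = some a → C p ≠ none → C l = some l0)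
    (hpl' : ∀ C ∈ F, C w = some a → C p = none → C l ≠ none → C l = some (!l0))
    (hlam : ∀ C ∈ F, ∀ C' ∈ F, C w = some a → C' w = some a → C l = some (!l0) →
      C' l = some (!l0) → C = C')
    (hql : ∀ C ∈ F, C w = some a → C q ≠ none → C l = none ∧ C l' = none) :
    ∀ C ∈ F, C w = some a → C p ≠ none := by
  have hqp : ∀ C ∈ F, C w = some a → C q ≠ none → C p = none := by
    intro E hE hEw hEq
    by_contra hne
    exact hEq (P.ap E hE hEw hne)
  have P' : PQ V F w a q p := ⟨P.hq, P.hdq, P.hp, P.hdp, Ne.symm P.hpq, hqp⟩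
  intro C hC hw hCp
  by_cases hCq : C q = none
  · -- neither
    obtain ⟨hone, hCl⟩ := c.neither P hl hdl hlp hlq hC hw hCp hCq
    have hCl' := hpl' C hC hw hCp hCl
    -- another element
    obtain ⟨C', hC', hw', hne⟩ : ∃ C' ∈ F, C' w = some a ∧ C' ≠ C := by
      obtain ⟨X, Y, hX, hY, hXw, hYw, hXY⟩ := c.twoA
      by_cases h : X = C
      · exact ⟨Y, hY, hYw, by rintro rfl; exact hXY h⟩
      · exact ⟨X, hX, hXw, h⟩
    by_cases h1 : C' p = none
    · by_cases h2 : C' q = none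
      · obtain ⟨-, h3⟩ := c.neither P hl hdl hlp hlq hC' hw' h1 h2
        exact hne (hlam C' hC' C hC hw' hw (hpl' C' hC' hw' h1 h3) hCl')
      · obtain ⟨e, he⟩ := Option.ne_none_iff_exists'.mp h2
        obtain ⟨D1, hD1, ⟨hw1, hp1⟩, hq1⟩ := cn_exists (hone true e).ge
        obtain ⟨D2, hD2, ⟨hw2, hp2⟩, hq2⟩ := cn_exists (hone false e).ge
        have L1 := c.lack2 P.hp P.hdp P.hq P.hdq P.hpq hC' hw' (i := true) (j := e)
          (by rw [h1]; simp) (by rw [he]; exact some_ne_not _) (hone _ _).le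
          (Finset.mem_erase.mp hl).1 hlp hlq (hql C' hC' hw' h2).1 D1 hD1 hw1 hp1 hq1
        have L2 := c.lack2 P.hp P.hdp P.hq P.hdq P.hpq hC' hw' (i := false) (j := e)
          (by rw [h1]; simp) (by rw [he]; exact some_ne_not _) (hone _ _).le
          (Finset.mem_erase.mp hl).1 hlp hlq (hql C' hC' hw' h2).1 D2 hD2 hw2 hp2 hq2
        have := c.lack_two hl hdl hD1 hw1 L1 hD2 hw2 L2
        exact ne_of_val hp1 (by simpa using hp2) this
    · obtain ⟨e, he⟩ := Option.ne_none_iff_exists'.mp h1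
      have hC'q := P.ap C' hC' hw' h1
      have hC'l := hpl C' hC' hw' h1
      have key : ∀ j, ∃ D ∈ F, D w = some (!a) ∧ D q = some j ∧ D l = none := by
        intro j
        obtain ⟨D1, hD1, hw1, hp1, hq1, hm1⟩ := c.h.toPH.meet2 hC hw (Finset.mem_erase.mp P.hp).1
          (Finset.mem_erase.mp P.hq).1 P.hpq (c.allB P.hp P.hdp) (c.allB P.hq P.hdq) (i := e) (j := j)
          (by rw [hCp]; simp) (by rw [hCq]; simp)
        obtain ⟨D2, hD2, hw2, hp2, hq2, hm2⟩ := c.h.toPH.meet2 hC' hw' (Finset.mem_erase.mp P.hp).1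
          (Finset.mem_erase.mp P.hq).1 P.hpq (c.allB P.hp P.hdp) (c.allB P.hq P.hdq) (i := e) (j := j)
          (by rw [he]; exact some_ne_not _) (by rw [hC'q]; simp)
        have he12 := cn_le_one (hone e j).le hD1 ⟨⟨hw1, hp1⟩, hq1⟩ hD2 ⟨⟨hw2, hp2⟩, hq2⟩
        have z1 := hm1 l (Finset.mem_erase.mp hl).1 _ hCl'
        have z2 := hm2 l (Finset.mem_erase.mp hl).1 _ hC'l
        rw [← he12] at z2
        refine ⟨D1, hD1, hw1, hq1, ?_⟩
        rcases opt_cases (D1 l) l0 with h | h | h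
        · exact h
        · exact absurd (by simpa using h) z1
        · exact absurd h z2
      obtain ⟨D1, hD1, hw1, hq1, L1⟩ := key true
      obtain ⟨D2, hD2, hw2, hq2, L2⟩ := key false
      have := c.lack_two hl hdl hD1 hw1 L1 hD2 hw2 L2
      exact ne_of_val hq1 (by simpa using hq2) this
  · -- `C` contains `q`
    obtain ⟨e, he⟩ := Option.ne_none_iff_exists'.mp hCq
    obtain ⟨hCl, hCl'⟩ := hql C hC hw hCq
    obtain ⟨a1, a2⟩ := c.three P' hl hdl hlq hlp hC hw he hCp hCl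
    have key : ∀ D ∈ F, D w = some (!a) → D q = some e → D l' = none := by
      intro D hD hDw hDq
      by_contra hDl'
      obtain ⟨i, hDp⟩ := Option.ne_none_iff_exists'.mp (c.allB P.hp P.hdp D hD hDw)
      have s1 : cn F (fun D => (D w = some (!a) ∧ D q = some e) ∧ D p = some i) +
          cn F (fun D => (D w = some (!a) ∧ D q = some e) ∧ D p = some (!i)) =
          cn F (fun D => D w = some (!a) ∧ D q = some e) := c.sumUV (u := q) P.hp P.hdp e i
      have n1 := c.cell P.hq P.hdq P.hp P.hdp (Ne.symm P.hpq) hC hw (i := e) (j := !i)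
        (by rw [he]; exact some_ne_not _) (by rw [hCp]; simp)
      have n2 : 2 ≤ cn F (fun D => (D w = some (!a) ∧ D q = some e) ∧ D p = some i) := by
        by_contra hlt
        exact hDl' (c.lack2 P.hq P.hdq P.hp P.hdp (Ne.symm P.hpq) hC hw (i := e) (j := i)
          (by rw [he]; exact some_ne_not _) (by rw [hCp]; simp) (by omega)
          (Finset.mem_erase.mp hl').1 hlq' hlp' hCl' D hD hDw hDq hDp)
      have t1 : cn F (fun D => (D w = some (!a) ∧ D q = some e) ∧ D p = some i) = 2 := by omega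
      have t2 : cn F (fun D => (D w = some (!a) ∧ D q = some e) ∧ D p = some (!i)) = 1 := by omega
      obtain ⟨D3, hD3, ⟨hw3, hq3⟩, hp3⟩ := cn_exists n1
      have L3 := c.lack2 P.hq P.hdq P.hp P.hdp (Ne.symm P.hpq) hC hw (i := e) (j := !i)
        (by rw [he]; exact some_ne_not _) (by rw [hCp]; simp) t2.le
        (Finset.mem_erase.mp hl).1 hlq hlp hCl D3 hD3 hw3 hq3 hp3
      have hDl : D l ≠ none := by
        intro h
        have := c.lack_two hl hdl hD hDw h hD3 hw3 L3
        exact ne_of_val hDp hp3 this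
      obtain ⟨μ, hμ⟩ := Option.ne_none_iff_exists'.mp hDl
      obtain ⟨D2, hD2, hw2, hq2, hp2, hl2, -⟩ := c.h.toPH.meet3 hC hw (Finset.mem_erase.mp P.hq).1
        (Finset.mem_erase.mp P.hp).1 (Ne.symm P.hpq) (c.allB P.hq P.hdq) (c.allB P.hp P.hdp)
        (i := e) (j := i) (by rw [he]; exact some_ne_not _) (by rw [hCp]; simp)
        (Finset.mem_erase.mp hl).1 hlq hlp (e := !μ) (by rw [hCl]; simp)
      have hD2l : D2 l = some (!μ) := by
        rcases opt_cases (D2 l) μ with h | h | h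
        · exfalso
          have := c.lack_two hl hdl hD2 hw2 h hD3 hw3 L3
          exact ne_of_val hp2 hp3 this
        · exact absurd (by simpa using h) hl2
        · exact h
      have h2D : D ≠ D2 := ne_of_val hμ hD2l
      apply hDl'
      apply c.h.toPH.only3 hC hw (Finset.mem_erase.mp P.hq).1
        (Finset.mem_erase.mp P.hp).1 (Ne.symm P.hpq) (c.allB P.hq P.hdq) (c.allB P.hp P.hdp)
        (i := e) (j := i) (by rw [he]; exact some_ne_not _) (by rw [hCp]; simp)
        (Finset.mem_erase.mp hl).1 hlq hlp (e := μ) (by rw [hCl]; simp)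
        (Finset.mem_erase.mp hl').1 hlq' hlp' (Ne.symm hll) hCl'
      intro E hE hEw hEq hEp hEl _
      by_contra hED
      have hEl2 : E ≠ D2 := by
        rintro rfl
        exact hEl hD2l
      have hsub : ({E, D, D2} : Finset Cube) ⊆
          F.filter (fun D => (D w = some (!a) ∧ D q = some e) ∧ D p = some i) := by
        intro X hX
        simp only [Finset.mem_insert, Finset.mem_singleton] at hX
        simp only [Finset.mem_filter]
        rcases hX with rfl | rfl | rfl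
        · exact ⟨hE, ⟨hEw, hEq⟩, hEp⟩
        · exact ⟨hD, ⟨hDw, hDq⟩, hDp⟩
        · exact ⟨hD2, ⟨hw2, hq2⟩, hp2⟩
      have hcard := Finset.card_le_card hsub
      rw [Finset.card_insert_of_notMem (by simp [hED, hEl2]),
        Finset.card_insert_of_notMem (by simpa using h2D), Finset.card_singleton] at hcard
      have : cn F (fun D => (D w = some (!a) ∧ D q = some e) ∧ D p = some i) =
          (F.filter (fun D => (D w = some (!a) ∧ D q = some e) ∧ D p = some i)).card := by
        unfold cn; congr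
      omega
    have hlk := c.lack hl'
    have : cn F (fun D => D w = some (!a) ∧ D q = some e) ≤
        cn F (fun D => D w = some (!a) ∧ D l' = none) :=
      cn_mono (fun D hD h => ⟨h.1, key D hD h.1 h.2⟩)
    omega

end Ctx

end Pool.Agent.Lib.MP_9abcb7_co
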