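import Pool.Agent.Lib.MP_9abcb7_co.Four

set_option autoImplicit false

open Function

namespace Pool.Agent.Lib.MP_9abcb7_co

open scoped Classical

/-- the structure found in deficiency four -/
def Concl (V : Finset ℕ) (F : Finset Cube) : Prop :=
  ∃ x y b, x ≠ y ∧ (∀ j, pr x b y j ∈ F) ∧ ∃ t1 ∈ V, ∃ t2 ∈ V, ∃ t3 ∈ V, t1 ≠ t2 ∧ t1 ≠ t3 ∧
    t2 ≠ t3 ∧ dg F t1 = 6 ∧ dg F t2 = 6 ∧ dg F t3 = 6

theorem fac_inj {V : Finset ℕ} {F : Finset Cube} {w : ℕ} {a : Bool} {C C' : Cube}
    (hw : C w = some a) (hw' : C' w = some a) (h : update C w none = update C' w none) : C = C' := by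
  funext y
  by_cases hy : y = w
  · subst hy; rw [hw, hw']
  · have := congrFun h y
    rwa [update_of_ne hy, update_of_ne hy] at this

theorem three_le {S : Finset Cube} {A B C : Cube} (hA : A ∈ S) (hB : B ∈ S) (hC : C ∈ S)
    (h1 : A ≠ B) (h2 : A ≠ C) (h3 : B ≠ C) : 3 ≤ S.card := by
  have hsub : ({A, B, C} : Finset Cube) ⊆ S := by
    intro X hX
    simp only [Finset.mem_insert, Finset.mem_singleton] at hX
    rcases hX with rfl | rfl | rfl <;> assumption
  have := Finset.card_le_card hsub
  rwa [Finset.card_insert_of_notMem (by simp [h1, h2]),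
    Finset.card_insert_of_notMem (by simpa using h3), Finset.card_singleton] at this

/-- the values at a variable of degree three that occurs next to a variable of degree two -/
theorem near_two {V : Finset ℕ} {T : Finset Cube} (h : UH V T) {p l : ℕ} (hp : p ∈ V) (hl : l ∈ V)
    (hlp : l ≠ p) (hdp : dg T p = 2) (hdl : dg T l = 3) (hpl : ∀ C ∈ T, C p ≠ none → C l ≠ none) :
    ∃ l0, (∀ C ∈ T, C p ≠ none → C l = some l0) ∧
      (∀ C ∈ T, C p = none → C l ≠ none → C l = some (!l0)) ∧
      (∀ C ∈ T, ∀ C' ∈ T, C l = some (!l0) → C' l = some (!l0) → C = C') := by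
  obtain ⟨α, hα, hαx⟩ := h.bot hp hdp
  obtain ⟨l0, hl0⟩ := Option.ne_none_iff_exists'.mp
    (hpl _ (hα false).1 (by rw [(hα false).2.1]; simp))
  have hl1 : ∀ e, α e l = some l0 := by
    intro e
    cases e
    · exact hl0
    · rw [hαx l hlp]; exact hl0
  have hne : α true ≠ α false := by
    intro he
    have := (hα true).2.1
    rw [he, (hα false).2.1] at this
    cases this
  have hmem : ∀ e, α e ∈ T.filter (fun C => C l = some l0) :=
    fun e => Finset.mem_filter.mpr ⟨(hα e).1, hl1 e⟩
  have hct0 : 2 ≤ ct T l l0 := by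
    have hsub : ({α true, α false} : Finset Cube) ⊆ T.filter (fun C => C l = some l0) := by
      intro X hX
      simp only [Finset.mem_insert, Finset.mem_singleton] at hX
      rcases hX with rfl | rfl
      · exact hmem true
      · exact hmem false
    have := Finset.card_le_card hsub
    rwa [Finset.card_insert_of_notMem (by simpa using hne), Finset.card_singleton] at this
  have hct1 := h.ct_pos hl (!l0)
  have hdg := dg_eq T l l0
  have hval : ∀ C ∈ T, C p ≠ none → C l = some l0 := by
    intro C hC hCp
    obtain ⟨e, he⟩ := Option.ne_none_iff_exists'.mp hCp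
    rw [(hα e).2.2 C hC he]
    exact hl1 e
  refine ⟨l0, hval, ?_, ?_⟩
  · intro C hC hCp hCl
    rcases ne_none_cases hCl l0 with e | e
    · exfalso
      have h3 : 3 ≤ ct T l l0 := three_le (hmem true) (hmem false)
        (Finset.mem_filter.mpr ⟨hC, e⟩) hne
        (by rintro rfl; rw [(hα true).2.1] at hCp; cases hCp)
        (by rintro rfl; rw [(hα false).2.1] at hCp; cases hCp)
      omega
    · exact e
  · intro C hC C' hC' h1 h2
    have : (T.filter (fun C => C l = some (!l0))).card ≤ 1 := by
      change ct T l (!l0) ≤ 1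
      omega
    exact Finset.card_le_one.mp this C (Finset.mem_filter.mpr ⟨hC, h1⟩) C'
      (Finset.mem_filter.mpr ⟨hC', h2⟩)

theorem dg_le_add {V : Finset ℕ} {F : Finset Cube} (h : PH V F) {w : ℕ} {a : Bool} {x : ℕ}
    (hx : x ≠ w) : dg2 F w a x ≤ dg (fac F w a) x := by
  have h1 := h.dg_fac (v := w) (u := x) a hx
  have h2 : dg2 F w a x + dg2 F w (!a) x ≤ dg F x := by
    unfold dg2 dg
    rw [← Finset.card_union_of_disjoint]
    · apply Finset.card_le_card
      intro C hC
      simp only [Finset.mem_union, Finset.mem_filter] at hC ⊢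
      rcases hC with ⟨e1, -, e2⟩ | ⟨e1, -, e2⟩ <;> exact ⟨e1, e2⟩
    · rw [Finset.disjoint_left]
      intro C h1 h2
      simp only [Finset.mem_filter] at h1 h2
      rw [h1.2.1] at h2
      exact some_ne_not a h2.2.1
  omega

namespace Ctx

variable {V : Finset ℕ} {F : Finset Cube} {w : ℕ} {a : Bool} {k : ℕ}

theorem finish (c : Ctx V F w a 4) {r : ℕ} {u : Bool → ℕ} (s : TS (V.erase w) (fac F w a) r u)
    {b : Bool} (hpair : ∀ j, pr r b (u b) j ∈ fac F w a)
    (hall : ∀ C ∈ F, C w = some a → C (u (!b)) ≠ none) : Concl V F := by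
  have hne : u b ≠ u (!b) := s.une c.T (by cases b <;> simp)
  have hp := s.uV (!b)
  have hq := s.uV b
  have hpw := (Finset.mem_erase.mp hp).1
  have hqw := (Finset.mem_erase.mp hq).1
  have hrw := (Finset.mem_erase.mp s.hr).1
  have d1 := c.h.toPH.dg_fac (v := w) (u := u (!b)) a hpw
  have d2 := c.h.toPH.dg_fac (v := w) (u := u b) a hqw
  have d3 := dg2_le F w (!a) (u (!b))
  have d4 := dg2_le F w (!a) (u b)
  have d5 := c.cB
  have d6 := s.ud b
  have d7 := s.ud (!b)
  have d8 := c.lev _ (Finset.mem_erase.mp hp).2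
  have d9 := c.lev _ (Finset.mem_erase.mp hq).2
  have d10 := c.lev _ c.good.1
  have d11 := dg_eq F w a
  have d12 : ct F w a ≤ dg2 F w a (u (!b)) := by
    unfold ct dg2
    apply Finset.card_le_card
    intro C hC
    simp only [Finset.mem_filter] at hC ⊢
    exact ⟨hC.1, hC.2, hall C hC.1 hC.2⟩
  have d13 := dg_le_add c.h.toPH (w := w) (a := a) hpw
  refine ⟨r, u b, b, Ne.symm (s.ur b), ?_, w, c.good.1, u b, (Finset.mem_erase.mp hq).2, u (!b),
    (Finset.mem_erase.mp hp).2, Ne.symm hqw, Ne.symm hpw, hne, by omega, by omega, by omega⟩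
  intro j
  obtain ⟨C, hC, hCw, he⟩ := PH.mem_fac.mp (hpair j)
  rcases opt_cases (C w) a with h | h | h
  · have : C = pr r b (u b) j := by
      funext x
      by_cases hx : x = w
      · subst hx
        rw [h, pr_ne b j (Ne.symm hrw) (Ne.symm hqw)]
      · have := congrFun he x
        rwa [update_of_ne hx] at this
    exact this ▸ hC
  · exfalso
    apply hall C hC h
    have := congrFun he (u (!b))
    rw [update_of_ne hpw, pr_ne b j (s.ur (!b)) (Ne.symm hne)] at this
    exact this
  · exact absurd h hCw

theorem four_case (c : Ctx V F w a 4) (hV : 6 ≤ V.card) : Concl V F := by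
  have hVw := card_erase' c.good.1
  obtain ⟨r, u, s, hc, hdis, hsum, hu⟩ := exists_TS c.T c.hT (Finset.card_pos.mp (by omega)) c.nu
  have hne : u false ≠ u true := s.une c.T (by simp)
  have hdis' : ∀ b, ∀ x ∈ occ ((V.erase w).erase r) (fac (fac F w a) r b),
      x ∉ occ ((V.erase w).erase r) (fac (fac F w a) r (!b)) := by
    intro b x hx hx'
    cases b
    · exact Finset.disjoint_left.mp hdis hx hx'
    · exact Finset.disjoint_left.mp hdis hx' hx
  have huniq : ∀ x ∈ V.erase w, dg (fac F w a) x = 2 → ∃ b, x = u b := by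
    intro x hx hdx
    by_contra hnot
    push Not at hnot
    exact c.no_third le_rfl hx hdx (s.uV false) (s.ud false) (s.uV true) (s.ud true)
      (hnot false) (hnot true) hne
  have hrw := (Finset.mem_erase.mp s.hr).1
  have hr1 : ∀ C ∈ F, C w = some a → ∀ b, C (u b) ≠ none → C r = some b := by
    intro C hC hw b hCu
    have := s.us b _ (c.mem hC hw) (by rw [update_of_ne (Finset.mem_erase.mp (s.uV b)).1]; exact hCu)
    rwa [update_of_ne hrw] at this
  have hap : ∀ b, ∀ C ∈ F, C w = some a → C (u b) ≠ none → C (u (!b)) = none := by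
    intro b C hC hw h1
    by_contra h2
    have e1 := hr1 C hC hw b h1
    have e2 := hr1 C hC hw (!b) h2
    rw [e1] at e2
    exact some_ne_not b e2
  have P : ∀ b, PQ V F w a (u b) (u (!b)) := by
    intro b
    exact ⟨s.uV b, s.ud b, s.uV _, s.ud _, s.une c.T (by cases b <;> simp), hap b⟩
  -- transport from the facet
  have tr : ∀ {x y : ℕ}, x ≠ w → y ≠ w → (∀ C ∈ fac F w a, C x ≠ none → C y ≠ none) →
      ∀ C ∈ F, C w = some a → C x ≠ none → C y ≠ none := by
    intro x y hx hy hxy C hC hw hCx
    have := hxy _ (c.mem hC hw) (by rw [update_of_ne hx]; exact hCx)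
    rwa [update_of_ne hy] at this
  have trr : ∀ {x : ℕ} {b : Bool}, x ≠ w → (∀ C ∈ fac F w a, C x ≠ none → C r = some b) →
      ∀ C ∈ F, C w = some a → C x ≠ none → C r = some b := by
    intro x b hx hxy C hC hw hCx
    have := hxy _ (c.mem hC hw) (by rw [update_of_ne hx]; exact hCx)
    rwa [update_of_ne hrw] at this
  have two : ∀ b, (occ ((V.erase w).erase r) (fac (fac F w a) r b)).card = 1 →
      3 ≤ (occ ((V.erase w).erase r) (fac (fac F w a) r (!b))).card → Concl V F := by
    intro b h1 h3
    obtain ⟨l, hl, l', hl', hlr, hlu, hlr', hlu', hll, hdl, hdl', hul, hul', hr, hr'⟩ :=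
      (TS_side c.T s hc hdis' hu huniq (!b)).2.1 h3
    have hpair := (TS_side c.T s hc hdis' hu huniq b).2.2 h1
    obtain ⟨l0, v1, v2, v3⟩ := near_two c.T (s.uV (!b)) hl hlu (s.ud _) hdl hul
    have hlw := (Finset.mem_erase.mp hl).1
    have hlw' := (Finset.mem_erase.mp hl').1
    have huw := (Finset.mem_erase.mp (s.uV (!b))).1
    have hlb : l ≠ u b := by
      intro he
      rw [he, s.ud] at hdl
      omega
    have hlb' : l' ≠ u b := by
      intro he
      rw [he, s.ud] at hdl'
      omega
    have Pb := P (!b)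
    rw [Bool.not_not] at Pb
    apply c.finish s hpair
    apply c.caseII Pb hl hdl hlu hlb hl' hdl' hlu' hlb' hll (l0 := l0)
    · intro C hC hw hCp
      have := v1 _ (c.mem hC hw) (by rw [update_of_ne huw]; exact hCp)
      rwa [update_of_ne hlw] at this
    · intro C hC hw hCp hCl
      have := v2 _ (c.mem hC hw) (by rw [update_of_ne huw]; exact hCp)
        (by rw [update_of_ne hlw]; exact hCl)
      rwa [update_of_ne hlw] at this
    · intro C hC C' hC' hw hw' h1 h2
      exact fac_inj (V := V) (F := F) hw hw' (v3 _ (c.mem hC hw) _ (c.mem hC' hw')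
        (by rw [update_of_ne hlw]; exact h1) (by rw [update_of_ne hlw]; exact h2))
    · intro C hC hw hCq
      have e0 := hr1 C hC hw b hCq
      constructor
      · by_contra hne'
        have := trr hlw hr C hC hw hne'
        rw [e0] at this
        exact some_ne_not b this
      · by_contra hne'
        have := trr hlw' hr' C hC hw hne'
        rw [e0] at this
        exact some_ne_not b this
  have hpos : ∀ b, 1 ≤ (occ ((V.erase w).erase r) (fac (fac F w a) r b)).card :=
    fun b => Finset.card_pos.mpr ⟨_, hu b⟩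
  have p0 := hpos false
  have p1 := hpos true
  by_cases h0 : (occ ((V.erase w).erase r) (fac (fac F w a) r false)).card = 1
  · exact two false h0 (by simp only [Bool.not_false]; omega)
  · by_cases h1 : (occ ((V.erase w).erase r) (fac (fac F w a) r true)).card = 1
    · exact two true h1 (by simp only [Bool.not_true]; omega)
    · exfalso
      obtain ⟨l, hl, hlr, hlu, hdl, hul, hr⟩ :=
        (TS_side c.T s hc hdis' hu huniq false).1 (by omega)
      obtain ⟨m, hm, hmr, hmu, hdm, hum, hr'⟩ :=
        (TS_side c.T s hc hdis' hu huniq true).1 (by omega)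
      have hlw := (Finset.mem_erase.mp hl).1
      have hmw := (Finset.mem_erase.mp hm).1
      have hlt : l ≠ u true := by
        intro he
        rw [he, s.ud] at hdl
        omega
      have hmf : m ≠ u false := by
        intro he
        rw [he, s.ud] at hdm
        omega
      have huwf := (Finset.mem_erase.mp (s.uV false)).1
      have huwt := (Finset.mem_erase.mp (s.uV true)).1
      refine c.caseI (P false) hl hdl hlu hlt hm hdm hmf hmu ?_ ?_ ?_
      · intro C hC hw hCp
        refine ⟨tr huwf hlw hul C hC hw hCp, ?_⟩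
        by_contra hne'
        have e1 := hr1 C hC hw false hCp
        have e2 := trr hmw hr' C hC hw hne'
        rw [e1] at e2; cases e2
      · intro C hC hw hCq
        refine ⟨tr huwt hmw hum C hC hw hCq, ?_⟩
        by_contra hne'
        have e1 := hr1 C hC hw true hCq
        have e2 := trr hlw hr C hC hw hne'
        rw [e1] at e2; cases e2
      · intro C hC hw hCl
        by_contra hne'
        have e1 := trr hlw hr C hC hw hCl
        have e2 := trr hmw hr' C hC hw hne'
        rw [e1] at e2; cases e2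

end Ctx

end Pool.Agent.Lib.MP_9abcb7_co
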