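import Pool.Agent.Lib.MP_9abcb7_co.Tree

set_option autoImplicit false

open Function

namespace Pool.Agent.Lib.MP_9abcb7_co

open scoped Classical

theorem sg_self (v : ℕ) (b : Bool) : sg v b v = some b := by simp [sg]
theorem sg_ne {v x : ℕ} (b : Bool) (h : x ≠ v) : sg v b x = none := by simp [sg, update_of_ne h]

theorem pr_snd (v : ℕ) (b : Bool) (u : ℕ) (c : Bool) : pr v b u c u = some c := by simp [pr]
theorem pr_fst {v u : ℕ} (b c : Bool) (h : v ≠ u) : pr v b u c v = some b := by
  simp [pr, update_of_ne h, sg_self]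
theorem pr_ne {v u x : ℕ} (b c : Bool) (h1 : x ≠ v) (h2 : x ≠ u) : pr v b u c x = none := by
  simp [pr, update_of_ne h2, sg_ne b h1]
theorem pr_comm {v u : ℕ} (b c : Bool) (h : v ≠ u) : pr v b u c = pr u c v b := by
  funext x
  by_cases h1 : x = v
  · subst h1
    rw [pr_fst b c h, pr_snd]
  · by_cases h2 : x = u
    · subst h2
      rw [pr_snd, pr_fst c b (Ne.symm h)]
    · rw [pr_ne b c h1 h2, pr_ne c b h2 h1]

/-- `v` occurs in a cube prescribing exactly two values -/
def Covd (F : Finset Cube) (v : ℕ) : Prop := ∃ u b c, u ≠ v ∧ pr v b u c ∈ F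

theorem covd_aux {V : Finset ℕ} {F : Finset Cube} (h : PH V F) {p q : ℕ} {b c : Bool} (hpq : p ≠ q)
    (hP : pr p b q c ∈ F) {v : ℕ} (hvp : v ≠ p) (hvq : v ≠ q) (hv : Covd F v) :
    ∃ d, pr v d p (!b) ∈ F ∨ pr v d q (!c) ∈ F := by
  obtain ⟨u, d, e, huv, hQ⟩ := hv
  have hne : pr p b q c ≠ pr v d u e := by
    intro he
    have := congrFun he v
    rw [pr_ne b c hvp hvq, pr_fst d e (Ne.symm huv)] at this
    cases this
  obtain ⟨x, f, h1, h2⟩ := h.hit _ hP _ hQ hne
  by_cases hxp : x = p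
  · subst hxp
    rw [pr_fst b c hpq] at h1
    cases h1
    by_cases hxu : x = u
    · subst hxu
      rw [pr_snd] at h2
      cases h2
      exact ⟨d, Or.inl hQ⟩
    · rw [pr_ne d e (Ne.symm hvp) hxu] at h2
      cases h2
  · by_cases hxq : x = q
    · subst hxq
      rw [pr_snd] at h1
      cases h1
      by_cases hxu : x = u
      · subst hxu
        rw [pr_snd] at h2
        cases h2
        exact ⟨d, Or.inr hQ⟩
      · rw [pr_ne d e (Ne.symm hvq) hxu] at h2
        cases h2
    · rw [pr_ne b c hxp hxq] at h1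
      cases h1

theorem no_clash_pr {V : Finset ℕ} {F : Finset Cube} (h : PH V F) {v v' p : ℕ} {d d' b : Bool}
    (hvv : v ≠ v') (hvp : v ≠ p) (hvp' : v' ≠ p) (h1 : pr v d p b ∈ F) (h2 : pr v' d' p b ∈ F) :
    False := by
  have hne : pr v d p b ≠ pr v' d' p b := by
    intro he
    have := congrFun he v
    rw [pr_fst d b hvp, pr_ne d' b hvv hvp] at this
    cases this
  obtain ⟨x, f, e1, e2⟩ := h.hit _ h1 _ h2 hne
  by_cases hxp : x = p
  · subst hxp
    rw [pr_snd] at e1 e2
    rw [e1] at e2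
    exact some_ne_not f e2
  · by_cases hxv : x = v
    · subst hxv
      rw [pr_ne d' b hvv hxp] at e2
      cases e2
    · rw [pr_ne d b hxv hxp] at e1
      cases e1

theorem no_clash_pr' {V : Finset ℕ} {F : Finset Cube} (h : PH V F) {v v' p q : ℕ} {d d' b c : Bool}
    (hvv : v ≠ v') (hpq : p ≠ q) (hvp : v ≠ p) (hvq : v ≠ q) (hvp' : v' ≠ p) (hvq' : v' ≠ q)
    (h1 : pr v d p b ∈ F) (h2 : pr v' d' q c ∈ F) : False := by
  have hne : pr v d p b ≠ pr v' d' q c := by
    intro he
    have := congrFun he v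
    rw [pr_fst d b hvp, pr_ne d' c hvv hvq] at this
    cases this
  obtain ⟨x, f, e1, e2⟩ := h.hit _ h1 _ h2 hne
  by_cases hxp : x = p
  · subst hxp
    rw [pr_ne d' c (Ne.symm hvp') hpq] at e2
    cases e2
  · by_cases hxv : x = v
    · subst hxv
      rw [pr_ne d' c hvv hvq] at e2
      cases e2
    · rw [pr_ne d b hxv hxp] at e1
      cases e1

/-- the cubes prescribing two values cover few variables -/
theorem covd_few {V : Finset ℕ} {F : Finset Cube} (h : PH V F) {p q : ℕ} {b c : Bool} (hpq : p ≠ q)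
    (hP : pr p b q c ∈ F) {v v' : ℕ} (hvp : v ≠ p) (hvq : v ≠ q) (hvp' : v' ≠ p) (hvq' : v' ≠ q)
    (hvv : v ≠ v') (hv : Covd F v) (hv' : Covd F v') : False := by
  obtain ⟨d, h1 | h1⟩ := covd_aux h hpq hP hvp hvq hv
  · obtain ⟨d', h2 | h2⟩ := covd_aux h hpq hP hvp' hvq' hv'
    · exact no_clash_pr h hvv hvp hvp' h1 h2
    · exact no_clash_pr' h hvv hpq hvp hvq hvp' hvq' h1 h2
  · obtain ⟨d', h2 | h2⟩ := covd_aux h hpq hP hvp' hvq' hv'
    · exact no_clash_pr' h (Ne.symm hvv) hpq hvp' hvq' hvp hvq h2 h1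
    · exact no_clash_pr h hvv hvq hvq' h1 h2

theorem exists_uncovered {V : Finset ℕ} {F : Finset Cube} (h : PH V F) (hV : 4 ≤ V.card) :
    ∃ v ∈ V, ¬ Covd F v := by
  by_contra hall
  push Not at hall
  obtain ⟨p, hp⟩ := Finset.card_pos.mp (show 0 < V.card by omega)
  obtain ⟨q, b, c, hqp, hP⟩ := hall p hp
  have h1 : 2 ≤ ((V.erase p).erase q).card := by
    have := Finset.pred_card_le_card_erase (s := V.erase p) (a := q)
    have := card_erase' hp
    omega
  obtain ⟨v, v', hv, hv', hvv⟩ := Finset.one_lt_card_iff.mp (show 1 < ((V.erase p).erase q).card by omega)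
  simp only [Finset.mem_erase] at hv hv'
  exact covd_few h (Ne.symm hqp) hP hv.2.1 hv.1 hv'.2.1 hv'.1 hvv (hall v hv.2.2) (hall v' hv'.2.2)

theorem exists_good_uncovered {V : Finset ℕ} {F : Finset Cube} (h : UH V F) (hV : 4 ≤ V.card) :
    ∃ w, Good V F w ∧ ¬ Covd F w := by
  obtain ⟨v, hv, hcv⟩ := exists_uncovered h.toPH hV
  rcases h.good_below _ v hv rfl with h1 | ⟨w, hw, hwv, b, hb⟩
  · exact ⟨v, h1, hcv⟩
  · refine ⟨w, hw, ?_⟩
    rintro ⟨u, c, d, huw, hmem⟩
    have h2 := hb _ hmem (by rw [pr_fst c d (Ne.symm huw)]; simp)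
    by_cases hvu : v = u
    · subst hvu
      rw [pr_comm c d (Ne.symm huw)] at hmem
      exact hcv ⟨w, d, c, hwv, hmem⟩
    · rw [pr_ne c d (Ne.symm hwv) hvu] at h2
      cases h2

theorem nounit_fac {V : Finset ℕ} {F : Finset Cube} (_h : PH V F) (hn : NoUnit F) {w : ℕ}
    (hw : ¬ Covd F w) (b : Bool) : NoUnit (fac F w b) := by
  intro v c hmem
  obtain ⟨C, hC, hCw, he⟩ := PH.mem_fac.mp hmem
  have hvw : v ≠ w := by
    rintro rfl
    have := congrFun he v
    rw [sg_self] at this
    simp at this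
  rcases hcase : C w with _ | d
  · have : C = sg v c := by
      rw [← he]
      funext x
      by_cases hx : x = w
      · subst hx; simp [hcase]
      · rw [update_of_ne hx]
    exact hn v c (this ▸ hC)
  · have : C = pr w d v c := by
      funext x
      by_cases hx : x = w
      · subst hx
        rw [hcase, pr_fst d c (Ne.symm hvw)]
      · have h1 := congrFun he x
        rw [update_of_ne hx] at h1
        rw [h1]
        by_cases hxv : x = v
        · subst hxv
          rw [sg_self, pr_snd]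
        · rw [sg_ne c hxv, pr_ne d c hx hxv]
    exact hw ⟨v, d, c, hvw, this ▸ hC⟩

/-- flip a cube across `w`, choosing the free values by `τ` -/
theorem PH.meet {V : Finset ℕ} {F : Finset Cube} (h : PH V F) {C : Cube} (hC : C ∈ F) {w : ℕ}
    {a : Bool} (hw : C w = some a) (τ : ℕ → Bool) :
    ∃ D ∈ F, D w = some (!a) ∧ ∀ x, x ≠ w → ∀ c, D x = some c → (C x).getD (τ x) = c := by
  have hm : MemC (fun x => (C x).getD (τ x)) C := by
    intro v b hv
    simp [hv]
  obtain ⟨D, hD, hDw, hDm⟩ := h.flip hC hw hm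
  refine ⟨D, hD, hDw, ?_⟩
  intro x hx c hc
  have := hDm x c hc
  rwa [update_of_ne hx] at this

/-- if a single cube `D₀` covers the mirror image of (part of) `C`, free variables of `C` are free in
`D₀` -/
theorem PH.only {V : Finset ℕ} {F : Finset Cube} (h : PH V F) {C : Cube} (hC : C ∈ F) {w : ℕ}
    {a : Bool} (hw : C w = some a) {x : ℕ} (hx : x ≠ w) (hCx : C x = none) (τ : ℕ → Bool)
    (D₀ : Cube)
    (H : ∀ c, ∀ D ∈ F, D w = some (!a) →
      (∀ y, y ≠ w → ∀ e, D y = some e → (C y).getD (update τ x c y) = e) → D = D₀) :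
    D₀ x = none := by
  obtain ⟨D1, hD1, hw1, hm1⟩ := h.meet hC hw (update τ x true)
  obtain ⟨D2, hD2, hw2, hm2⟩ := h.meet hC hw (update τ x false)
  have e1 := H true D1 hD1 hw1 hm1
  have e2 := H false D2 hD2 hw2 hm2
  rw [e1] at hm1
  rw [e2] at hm2
  rcases opt_cases (D₀ x) true with h1 | h1 | h1
  · exact h1
  · have := hm2 x hx _ h1
    rw [hCx] at this
    simp at this
  · have := hm1 x hx _ h1
    rw [hCx] at this
    simp at this

/-- structure of deficiency one -/
theorem UH.split1 {V : Finset ℕ} {T : Finset Cube} (h : UH V T) (hk : T.card = V.card + 1)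
    (hV : V.Nonempty) : ∃ r ∈ V, (∀ C ∈ T, C r ≠ none) ∧
      (∀ b, (fac T r b).card = (occ (V.erase r) (fac T r b)).card + 1) ∧
      Disjoint (occ (V.erase r) (fac T r false)) (occ (V.erase r) (fac T r true)) := by
  obtain ⟨r, hr, hfull⟩ := h.full _ hk rfl hV
  obtain ⟨h1, h2, h3⟩ := h.sides hfull
  have e0 := (h1 false).lt_card
  have e1 := (h1 true).lt_card
  have e2 := Finset.card_union_add_card_inter (occ (V.erase r) (fac T r false))
    (occ (V.erase r) (fac T r true))
  rw [h2] at e2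
  have e3 := card_erase' hr
  refine ⟨r, hr, hfull, ?_, ?_⟩
  · intro b
    cases b <;> omega
  · rw [Finset.disjoint_iff_inter_eq_empty, ← Finset.card_eq_zero]
    omega

theorem side_nonempty {V : Finset ℕ} {T : Finset Cube} (h : UH V T) (hn : NoUnit T) {r : ℕ}
    (hfull : ∀ C ∈ T, C r ≠ none) (b : Bool) : (occ (V.erase r) (fac T r b)).Nonempty := by
  by_contra hne
  rw [Finset.not_nonempty_iff_eq_empty] at hne
  have h1 := (h.sides hfull).1 b
  rw [hne] at h1
  have h2 := h1.toPH.empty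
  have h3 : (fun _ => none : Cube) ∈ fac T r b := by rw [h2]; simp
  obtain ⟨C, hC, hCr, he⟩ := PH.mem_fac.mp h3
  rcases ne_none_cases (hfull C hC) b with e | e
  · have : C = sg r b := by
      funext x
      by_cases hx : x = r
      · subst hx; rw [e, sg_self]
      · have := congrFun he x
        rw [update_of_ne hx] at this
        rw [this, sg_ne b hx]
    exact hn r b (this ▸ hC)
  · exact hCr e

theorem side_val {V : Finset ℕ} {T : Finset Cube} {r : ℕ}
    (hfull : ∀ C ∈ T, C r ≠ none) {b : Bool} {x : ℕ} (hx : x ∈ V.erase r)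
    (hx' : x ∉ occ (V.erase r) (fac T r (!b))) {C : Cube} (hC : C ∈ T) (hCx : C x ≠ none) :
    C r = some b := by
  rcases ne_none_cases (hfull C hC) b with e | e
  · exact e
  · exfalso
    apply hx'
    refine Finset.mem_filter.mpr ⟨hx, update C r none, PH.mem_fac_of hC (by rw [e]; simp), ?_⟩
    rw [update_of_ne (Finset.mem_erase.mp hx).1]
    exact hCx

theorem side_dg {V : Finset ℕ} {T : Finset Cube} (h : UH V T) {r : ℕ}
    (hfull : ∀ C ∈ T, C r ≠ none) {b : Bool} {x : ℕ} (hx : x ≠ r)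
    (hx' : x ∉ occ (V.erase r) (fac T r (!b))) : dg T x = dg (fac T r b) x := by
  have h1 := h.dg_sides hfull hx
  have h2 := dg_zero_of_not_occ (h.toPH.facet r (!b)) hx'
  cases b <;> simp only [Bool.not_false, Bool.not_true] at h2 <;> omega

end Pool.Agent.Lib.MP_9abcb7_co
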