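import Pool.Agent.Lib.MP_9abcb7_co.Low

set_option autoImplicit false

open Function

namespace Pool.Agent.Lib.MP_9abcb7_co

open scoped Classical

/-- number of cubes with a property -/
noncomputable def cn (F : Finset Cube) (P : Cube → Prop) : ℕ := (F.filter P).card

theorem cn_pos {F : Finset Cube} {P : Cube → Prop} {D : Cube} (hD : D ∈ F) (hP : P D) : 1 ≤ cn F P :=
  Finset.card_pos.mpr ⟨D, Finset.mem_filter.mpr ⟨hD, hP⟩⟩

theorem cn_exists {F : Finset Cube} {P : Cube → Prop} (h : 1 ≤ cn F P) : ∃ D ∈ F, P D := by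
  obtain ⟨D, hD⟩ := Finset.card_pos.mp h
  exact ⟨D, (Finset.mem_filter.mp hD).1, (Finset.mem_filter.mp hD).2⟩

theorem cn_eq_ct (F : Finset Cube) (v : ℕ) (b : Bool) : cn F (fun D => D v = some b) = ct F v b := by
  unfold cn ct
  congr

theorem cn_le_one {F : Finset Cube} {P : Cube → Prop} (h : cn F P ≤ 1) {D E : Cube} (hD : D ∈ F)
    (hP : P D) (hE : E ∈ F) (hQ : P E) : D = E :=
  Finset.card_le_one.mp h D (Finset.mem_filter.mpr ⟨hD, hP⟩) E (Finset.mem_filter.mpr ⟨hE, hQ⟩)

theorem cn_mono {F : Finset Cube} {P Q : Cube → Prop} (h : ∀ D ∈ F, P D → Q D) : cn F P ≤ cn F Q := by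
  unfold cn
  apply Finset.card_le_card
  intro D
  simp only [Finset.mem_filter]
  rintro ⟨h1, h2⟩
  exact ⟨h1, h D h1 h2⟩

theorem cn_split (F : Finset Cube) (P : Cube → Prop) (u : ℕ) (c : Bool) :
    cn F P = cn F (fun D => P D ∧ D u = some c) + cn F (fun D => P D ∧ D u = some (!c)) +
      cn F (fun D => P D ∧ D u = none) := by
  unfold cn
  rw [← Finset.card_union_of_disjoint, ← Finset.card_union_of_disjoint]
  · congr 1
    ext D
    simp only [Finset.mem_filter, Finset.mem_union]
    constructor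
    · rintro ⟨h1, h2⟩
      rcases opt_cases (D u) c with e | e | e
      · exact Or.inr ⟨h1, h2, e⟩
      · exact Or.inl (Or.inl ⟨h1, h2, e⟩)
      · exact Or.inl (Or.inr ⟨h1, h2, e⟩)
    · rintro ((⟨h1, h2, -⟩ | ⟨h1, h2, -⟩) | ⟨h1, h2, -⟩) <;> exact ⟨h1, h2⟩
  · rw [Finset.disjoint_left]
    intro D h1 h2
    simp only [Finset.mem_filter, Finset.mem_union] at h1 h2
    rcases h1 with h1 | h1
    · rw [h1.2.2] at h2; exact absurd h2.2.2 (by simp)
    · rw [h1.2.2] at h2; exact absurd h2.2.2 (by simp)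
  · rw [Finset.disjoint_left]
    intro D h1 h2
    simp only [Finset.mem_filter] at h1 h2
    rw [h1.2.2] at h2
    exact some_ne_not c h2.2.2

theorem cn_split' {F : Finset Cube} {P : Cube → Prop} {u : ℕ} (c : Bool)
    (hP : ∀ D ∈ F, P D → D u ≠ none) :
    cn F P = cn F (fun D => P D ∧ D u = some c) + cn F (fun D => P D ∧ D u = some (!c)) := by
  rw [cn_split F P u c]
  have : cn F (fun D => P D ∧ D u = none) = 0 := by
    unfold cn
    rw [Finset.card_eq_zero, Finset.eq_empty_iff_forall_notMem]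
    intro D hD
    simp only [Finset.mem_filter] at hD
    exact hP D hD.1 hD.2.1 hD.2.2
  omega

/-- the mirror image of a cube meets cubes with prescribed values at `u`, `v`, compatible with the
value `e` at `x` -/
theorem PH.meet3 {V : Finset ℕ} {F : Finset Cube} (h : PH V F) {C : Cube} (hC : C ∈ F) {w : ℕ}
    {a : Bool} (hw : C w = some a) {u v : ℕ} (huw : u ≠ w) (hvw : v ≠ w) (huv : u ≠ v)
    (hBu : ∀ D ∈ F, D w = some (!a) → D u ≠ none) (hBv : ∀ D ∈ F, D w = some (!a) → D v ≠ none)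
    {i j : Bool} (hi : C u ≠ some (!i)) (hj : C v ≠ some (!j)) {x : ℕ} {e : Bool} (hxw : x ≠ w)
    (hxu : x ≠ u) (hxv : x ≠ v) (hx : C x ≠ some (!e)) :
    ∃ D ∈ F, D w = some (!a) ∧ D u = some i ∧ D v = some j ∧ D x ≠ some (!e) ∧
      ∀ y, y ≠ w → ∀ c, C y = some c → D y ≠ some (!c) := by
  obtain ⟨D, hD, hDw, hm⟩ := h.meet hC hw (update (update (update (fun _ => false) x e) v j) u i)
  refine ⟨D, hD, hDw, ?_, ?_, ?_, ?_⟩
  · rcases ne_none_cases (hBu D hD hDw) i with h1 | h1
    · exact h1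
    · have := hm u huw _ h1
      rcases opt_cases (C u) i with h2 | h2 | h2
      · rw [h2] at this; simp at this
      · rw [h2] at this; simp at this
      · exact absurd h2 hi
  · rcases ne_none_cases (hBv D hD hDw) j with h1 | h1
    · exact h1
    · have := hm v hvw _ h1
      rcases opt_cases (C v) j with h2 | h2 | h2
      · rw [h2] at this; simp [update_of_ne (Ne.symm huv)] at this
      · rw [h2] at this; simp at this
      · exact absurd h2 hj
  · intro h1
    have := hm x hxw _ h1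
    rcases opt_cases (C x) e with h2 | h2 | h2
    · rw [h2] at this; simp [update_of_ne hxu, update_of_ne hxv] at this
    · rw [h2] at this; simp at this
    · exact absurd h2 hx
  · intro y hy c hc h1
    have := hm y hy _ h1
    rw [hc] at this
    simp at this

theorem PH.meet2 {V : Finset ℕ} {F : Finset Cube} (h : PH V F) {C : Cube} (hC : C ∈ F) {w : ℕ}
    {a : Bool} (hw : C w = some a) {u v : ℕ} (huw : u ≠ w) (hvw : v ≠ w) (huv : u ≠ v)
    (hBu : ∀ D ∈ F, D w = some (!a) → D u ≠ none) (hBv : ∀ D ∈ F, D w = some (!a) → D v ≠ none)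
    {i j : Bool} (hi : C u ≠ some (!i)) (hj : C v ≠ some (!j)) :
    ∃ D ∈ F, D w = some (!a) ∧ D u = some i ∧ D v = some j ∧
      ∀ y, y ≠ w → ∀ c, C y = some c → D y ≠ some (!c) := by
  obtain ⟨D, hD, hDw, hm⟩ := h.meet hC hw (update (update (fun _ => false) v j) u i)
  refine ⟨D, hD, hDw, ?_, ?_, ?_⟩
  · rcases ne_none_cases (hBu D hD hDw) i with h1 | h1
    · exact h1
    · have := hm u huw _ h1
      rcases opt_cases (C u) i with h2 | h2 | h2
      · rw [h2] at this; simp at this
      · rw [h2] at this; simp at this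
      · exact absurd h2 hi
  · rcases ne_none_cases (hBv D hD hDw) j with h1 | h1
    · exact h1
    · have := hm v hvw _ h1
      rcases opt_cases (C v) j with h2 | h2 | h2
      · rw [h2] at this; simp [update_of_ne (Ne.symm huv)] at this
      · rw [h2] at this; simp at this
      · exact absurd h2 hj
  · intro y hy c hc h1
    have := hm y hy _ h1
    rw [hc] at this
    simp at this

/-- if only one cube covers the mirror image of the part of `C` with values `i`, `j`, `e` at
`u`, `v`, `x`, then it does not involve a variable free in `C` -/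
theorem PH.only3 {V : Finset ℕ} {F : Finset Cube} (h : PH V F) {C : Cube} (hC : C ∈ F) {w : ℕ}
    {a : Bool} (hw : C w = some a) {u v : ℕ} (huw : u ≠ w) (hvw : v ≠ w) (huv : u ≠ v)
    (hBu : ∀ D ∈ F, D w = some (!a) → D u ≠ none) (hBv : ∀ D ∈ F, D w = some (!a) → D v ≠ none)
    {i j : Bool} (hi : C u ≠ some (!i)) (hj : C v ≠ some (!j)) {x : ℕ} {e : Bool} (hxw : x ≠ w)
    (hxu : x ≠ u) (hxv : x ≠ v) (hx : C x ≠ some (!e)) {l : ℕ} (hlw : l ≠ w) (hlu : l ≠ u)
    (hlv : l ≠ v) (hlx : l ≠ x) (hCl : C l = none) {D₀ : Cube}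
    (H : ∀ D ∈ F, D w = some (!a) → D u = some i → D v = some j → D x ≠ some (!e) →
      (∀ y, y ≠ w → ∀ c, C y = some c → D y ≠ some (!c)) → D = D₀) : D₀ l = none := by
  apply h.only hC hw hlw hCl (update (update (update (fun _ => false) x e) v j) u i)
  intro c D hD hDw hm
  apply H D hD hDw
  · rcases ne_none_cases (hBu D hD hDw) i with h1 | h1
    · exact h1
    · have := hm u huw _ h1
      rcases opt_cases (C u) i with h2 | h2 | h2
      · rw [h2] at this; simp [update_of_ne (Ne.symm hlu)] at this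
      · rw [h2] at this; simp at this
      · exact absurd h2 hi
  · rcases ne_none_cases (hBv D hD hDw) j with h1 | h1
    · exact h1
    · have := hm v hvw _ h1
      rcases opt_cases (C v) j with h2 | h2 | h2
      · rw [h2] at this; simp [update_of_ne (Ne.symm hlv), update_of_ne (Ne.symm huv)] at this
      · rw [h2] at this; simp at this
      · exact absurd h2 hj
  · intro h1
    have := hm x hxw _ h1
    rcases opt_cases (C x) e with h2 | h2 | h2
    · rw [h2] at this
      simp [update_of_ne hxu, update_of_ne hxv, update_of_ne (Ne.symm hlx)] at this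
    · rw [h2] at this; simp at this
    · exact absurd h2 hx
  · intro y hy c hc h1
    have := hm y hy _ h1
    rw [hc] at this
    simp at this

theorem PH.only2 {V : Finset ℕ} {F : Finset Cube} (h : PH V F) {C : Cube} (hC : C ∈ F) {w : ℕ}
    {a : Bool} (hw : C w = some a) {u v : ℕ} (huw : u ≠ w) (hvw : v ≠ w) (huv : u ≠ v)
    (hBu : ∀ D ∈ F, D w = some (!a) → D u ≠ none) (hBv : ∀ D ∈ F, D w = some (!a) → D v ≠ none)
    {i j : Bool} (hi : C u ≠ some (!i)) (hj : C v ≠ some (!j)) {l : ℕ} (hlw : l ≠ w) (hlu : l ≠ u)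
    (hlv : l ≠ v) (hCl : C l = none) {D₀ : Cube}
    (H : ∀ D ∈ F, D w = some (!a) → D u = some i → D v = some j →
      (∀ y, y ≠ w → ∀ c, C y = some c → D y ≠ some (!c)) → D = D₀) : D₀ l = none := by
  apply h.only hC hw hlw hCl (update (update (fun _ => false) v j) u i)
  intro c D hD hDw hm
  apply H D hD hDw
  · rcases ne_none_cases (hBu D hD hDw) i with h1 | h1
    · exact h1
    · have := hm u huw _ h1
      rcases opt_cases (C u) i with h2 | h2 | h2
      · rw [h2] at this; simp [update_of_ne (Ne.symm hlu)] at this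
      · rw [h2] at this; simp at this
      · exact absurd h2 hi
  · rcases ne_none_cases (hBv D hD hDw) j with h1 | h1
    · exact h1
    · have := hm v hvw _ h1
      rcases opt_cases (C v) j with h2 | h2 | h2
      · rw [h2] at this; simp [update_of_ne (Ne.symm hlv), update_of_ne (Ne.symm huv)] at this
      · rw [h2] at this; simp at this
      · exact absurd h2 hj
  · intro y hy c hc h1
    have := hm y hy _ h1
    rw [hc] at this
    simp at this

/-- two branches of a deficiency-one family without unit cubes -/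
structure TS (V : Finset ℕ) (T : Finset Cube) (r : ℕ) (u : Bool → ℕ) : Prop where
  hr : r ∈ V
  full : ∀ C ∈ T, C r ≠ none
  uV : ∀ b, u b ∈ V
  ur : ∀ b, u b ≠ r
  ud : ∀ b, dg T (u b) = 2
  us : ∀ b, ∀ C ∈ T, C (u b) ≠ none → C r = some b

theorem TS.une {V : Finset ℕ} {T : Finset Cube} {r : ℕ} {u : Bool → ℕ} (s : TS V T r u)
    (h : UH V T) {b b' : Bool} (hb : b ≠ b') : u b ≠ u b' := by
  intro he
  obtain ⟨C, hC, hCu⟩ := h.nd (u b) (s.uV b)
  have h1 := s.us b C hC hCu
  have h2 := s.us b' C hC (he ▸ hCu)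
  rw [h1] at h2
  exact hb (Option.some.inj h2)

theorem exists_TS {V : Finset ℕ} {T : Finset Cube} (h : UH V T) (hk : T.card = V.card + 1)
    (hV : V.Nonempty) (hn : NoUnit T) :
    ∃ r u, TS V T r u ∧
      (∀ b, (fac T r b).card = (occ (V.erase r) (fac T r b)).card + 1) ∧
      Disjoint (occ (V.erase r) (fac T r false)) (occ (V.erase r) (fac T r true)) ∧
      (occ (V.erase r) (fac T r false)).card + (occ (V.erase r) (fac T r true)).card + 1 = V.card ∧
      ∀ b, u b ∈ occ (V.erase r) (fac T r b) := by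
  obtain ⟨r, hr, hfull, hc, hdis⟩ := h.split1 hk hV
  obtain ⟨h1, h2, h3⟩ := h.sides hfull
  have hu : ∀ b, ∃ x ∈ occ (V.erase r) (fac T r b), dg (fac T r b) x = 2 := by
    intro b
    exact (h1 b).exists_two (hc b) (side_nonempty h hn hfull b)
  choose u hu1 hu2 using hu
  have hnot : ∀ b, u b ∉ occ (V.erase r) (fac T r (!b)) := by
    intro b hb
    cases b
    · exact Finset.disjoint_left.mp hdis (hu1 false) hb
    · exact Finset.disjoint_left.mp hdis hb (hu1 true)
  have hmem : ∀ b, u b ∈ V.erase r := fun b => (Finset.mem_filter.mp (hu1 b)).1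
  refine ⟨r, u, ⟨hr, hfull, fun b => (Finset.mem_erase.mp (hmem b)).2,
    fun b => (Finset.mem_erase.mp (hmem b)).1, ?_, ?_⟩, hc, hdis, ?_, hu1⟩
  · intro b
    rw [side_dg h hfull (Finset.mem_erase.mp (hmem b)).1 (hnot b)]
    exact hu2 b
  · intro b C hC hCu
    exact side_val hfull (hmem b) (hnot b) hC hCu
  · rw [← Finset.card_union_of_disjoint hdis, h2]
    exact card_erase' hr

/-- structure near the ends of the two branches -/
theorem TS_side {V : Finset ℕ} {T : Finset Cube} (h : UH V T) {r : ℕ} {u : Bool → ℕ}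
    (s : TS V T r u) (hc : ∀ b, (fac T r b).card = (occ (V.erase r) (fac T r b)).card + 1)
    (hdis : ∀ b, ∀ x ∈ occ (V.erase r) (fac T r b), x ∉ occ (V.erase r) (fac T r (!b)))
    (hu : ∀ b, u b ∈ occ (V.erase r) (fac T r b))
    (huniq : ∀ x ∈ V, dg T x = 2 → ∃ b, x = u b) (b : Bool) :
    (2 ≤ (occ (V.erase r) (fac T r b)).card → ∃ l ∈ V, l ≠ r ∧ l ≠ u b ∧ dg T l = 3 ∧
      (∀ C ∈ T, C (u b) ≠ none → C l ≠ none) ∧ (∀ C ∈ T, C l ≠ none → C r = some b)) ∧
    (3 ≤ (occ (V.erase r) (fac T r b)).card → ∃ l ∈ V, ∃ l' ∈ V, l ≠ r ∧ l ≠ u b ∧ l' ≠ r ∧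
      l' ≠ u b ∧ l ≠ l' ∧ dg T l = 3 ∧ dg T l' = 4 ∧
      (∀ C ∈ T, C (u b) ≠ none → C l ≠ none) ∧ (∀ C ∈ T, C (u b) ≠ none → C l' ≠ none) ∧
      (∀ C ∈ T, C l ≠ none → C r = some b) ∧ (∀ C ∈ T, C l' ≠ none → C r = some b)) ∧
    ((occ (V.erase r) (fac T r b)).card = 1 → ∀ j, pr r b (u b) j ∈ T) := by
  obtain ⟨h1, h2, h3⟩ := h.sides s.full
  have hdg : ∀ x ∈ occ (V.erase r) (fac T r b), dg T x = dg (fac T r b) x := by
    intro x hx
    exact side_dg h s.full (Finset.mem_erase.mp (Finset.mem_filter.mp hx).1).1 (hdis b x hx)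
  have hub : dg (fac T r b) (u b) = 2 := by rw [← hdg _ (hu b)]; exact s.ud b
  have huq : ∀ x ∈ occ (V.erase r) (fac T r b), dg (fac T r b) x = 2 → x = u b := by
    intro x hx hdx
    have hx1 := (Finset.mem_filter.mp hx).1
    obtain ⟨b', hb'⟩ := huniq x (Finset.mem_erase.mp hx1).2 (by rw [hdg x hx]; exact hdx)
    by_cases hbb : b' = b
    · rw [hb', hbb]
    · exfalso
      have : b' = !b := by cases b <;> cases b' <;> simp_all
      have h5 := hu b'
      rw [← hb', this] at h5
      exact hdis b x hx h5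
  have hmemV : ∀ x ∈ occ (V.erase r) (fac T r b), x ∈ V ∧ x ≠ r := by
    intro x hx
    have hx1 := Finset.mem_erase.mp (Finset.mem_filter.mp hx).1
    exact ⟨hx1.2, hx1.1⟩
  have hval : ∀ x ∈ occ (V.erase r) (fac T r b), ∀ C ∈ T, C x ≠ none → C r = some b := by
    intro x hx C hC hCx
    exact side_val s.full (Finset.mem_filter.mp hx).1 (hdis b x hx) hC hCx
  have hup : ∀ x, x ≠ r → (∀ C ∈ fac T r b, C (u b) ≠ none → C x ≠ none) →
      ∀ C ∈ T, C (u b) ≠ none → C x ≠ none := by
    intro x hxr hx C hC hCu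
    have e := s.us b C hC hCu
    have := hx _ (PH.mem_fac_of (v := r) (b := b) hC (by rw [e]; simp))
      (by rw [update_of_ne (s.ur b)]; exact hCu)
    rwa [update_of_ne hxr] at this
  refine ⟨?_, ?_, ?_⟩
  · intro hcard
    obtain ⟨l, hl, hlu, hdl, hul, -⟩ := (h1 b).ce1 (hc b) hcard (hu b) hub huq
    refine ⟨l, (hmemV l hl).1, (hmemV l hl).2, hlu, by rw [hdg l hl]; exact hdl,
      hup l (hmemV l hl).2 hul, hval l hl⟩
  · intro hcard
    obtain ⟨l, hl, l', hl', hlu, hlu', hll, hdl, hdl', hul, hul'⟩ :=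
      (h1 b).ce2 (hc b) hcard (hu b) hub huq
    exact ⟨l, (hmemV l hl).1, l', (hmemV l' hl').1, (hmemV l hl).2, hlu, (hmemV l' hl').2, hlu', hll,
      by rw [hdg l hl]; exact hdl, by rw [hdg l' hl']; exact hdl',
      hup l (hmemV l hl).2 hul, hup l' (hmemV l' hl').2 hul', hval l hl, hval l' hl'⟩
  · intro hcard j
    obtain ⟨C, hC, hCu⟩ := (h1 b).both (hu b) j
    obtain ⟨C', hC', hCr, rfl⟩ := PH.mem_fac.mp hC
    rw [update_of_ne (s.ur b)] at hCu
    have hrb := s.us b C' hC' (by rw [hCu]; simp)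
    have : C' = pr r b (u b) j := by
      funext x
      by_cases hxr : x = r
      · subst hxr
        rw [hrb, pr_fst b j (Ne.symm (s.ur b))]
      · by_cases hxu : x = u b
        · subst hxu
          rw [hCu, pr_snd]
        · rw [pr_ne b j hxr hxu]
          by_contra hne
          have h5 : x ∈ occ (V.erase r) (fac T r b) := by
            refine Finset.mem_filter.mpr ⟨Finset.mem_erase.mpr ⟨hxr, h.supp C' hC' x hne⟩, _, hC, ?_⟩
            rw [update_of_ne hxr]; exact hne
          obtain ⟨y, hy⟩ := Finset.card_eq_one.mp hcard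
          rw [hy] at h5
          have h6 := hu b
          rw [hy] at h6
          simp only [Finset.mem_singleton] at h5 h6
          exact hxu (h5.trans h6.symm)
    exact this ▸ hC'

end Pool.Agent.Lib.MP_9abcb7_co
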