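import Pool.Agent.Lib.MP_9abcb7_co.Chain

set_option autoImplicit false

open Function

namespace Pool.Agent.Lib.MP_9abcb7_co

open scoped Classical

/-- number of free variables -/
noncomputable def fr (V : Finset ℕ) (C : Cube) : ℕ := (V.filter (fun v => C v = none)).card

theorem fr_update {V : Finset ℕ} {C : Cube} {v : ℕ} :
    fr (V.erase v) (update C v none) = fr (V.erase v) C := by
  unfold fr
  congr 1
  apply Finset.filter_congr
  intro u hu
  rw [update_of_ne (Finset.mem_erase.mp hu).1]

theorem fr_free {V : Finset ℕ} {C : Cube} {v : ℕ} (hv : v ∈ V) (h : C v = none) :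
    fr V C = fr (V.erase v) C + 1 := by
  unfold fr
  rw [Finset.filter_erase, Finset.card_erase_of_mem (Finset.mem_filter.mpr ⟨hv, h⟩)]
  have : 0 < (V.filter (fun v => C v = none)).card :=
    Finset.card_pos.mpr ⟨v, Finset.mem_filter.mpr ⟨hv, h⟩⟩
  omega

theorem fr_fixed {V : Finset ℕ} {C : Cube} {v : ℕ} (h : C v ≠ none) :
    fr V C = fr (V.erase v) C := by
  unfold fr
  congr 1
  ext u
  simp only [Finset.mem_filter, Finset.mem_erase]
  constructor
  · rintro ⟨h1, h2⟩
    refine ⟨⟨?_, h1⟩, h2⟩
    rintro rfl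
    exact h h2
  · rintro ⟨⟨-, h1⟩, h2⟩
    exact ⟨h1, h2⟩

theorem PH.volume : ∀ (n : ℕ) {V : Finset ℕ} {F : Finset Cube}, PH V F → V.card = n →
    ∑ C ∈ F, 2 ^ fr V C = 2 ^ n := by
  intro n
  induction n with
  | zero =>
    intro V F h hn
    have hV : V = ∅ := Finset.card_eq_zero.mp hn
    subst hV
    rw [h.empty]
    simp [fr]
  | succ n ih =>
    intro V F h hn
    obtain ⟨v, hv⟩ := Finset.card_pos.mp (show 0 < V.card by omega)
    have hc : (V.erase v).card = n := by
      have := card_erase' hv
      omega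
    have key : ∀ b, ∑ C ∈ F, (if C v ≠ some (!b) then 2 ^ fr (V.erase v) C else 0) = 2 ^ n := by
      intro b
      rw [← ih (h.facet v b) hc]
      unfold fac
      rw [Finset.sum_image (h.inj v b), Finset.sum_filter]
      apply Finset.sum_congr rfl
      intro C _
      rw [fr_update]
    have h1 := key true
    have h2 := key false
    rw [pow_succ, mul_two]
    nth_rw 1 [← h1]
    rw [← h2, ← Finset.sum_add_distrib]
    apply Finset.sum_congr rfl
    intro C _
    rcases opt_cases (C v) true with h | h | h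
    · rw [fr_free hv h, h]
      simp [pow_succ, mul_two]
    · rw [fr_fixed (V := V) (v := v) (by rw [h]; simp), h]
      simp
    · rw [fr_fixed (V := V) (v := v) (by rw [h]; simp), h]
      simp

theorem sum_fr (V : Finset ℕ) (F : Finset Cube) :
    ∑ C ∈ F, fr V C = ∑ v ∈ V, (F.filter (fun C => C v = none)).card := by
  unfold fr
  simp_rw [Finset.card_filter]
  exact Finset.sum_comm

theorem free_add_dg (F : Finset Cube) (v : ℕ) :
    (F.filter (fun C => C v = none)).card + dg F v = F.card := by
  unfold dg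
  exact Finset.card_filter_add_card_filter_not (fun C : Cube => C v = none)

/-- number of cubes of dimension `d` -/
noncomputable def ndim (V : Finset ℕ) (F : Finset Cube) (d : ℕ) : ℕ :=
  (F.filter (fun C => fr V C = d)).card

theorem fr_le (V : Finset ℕ) (C : Cube) : fr V C ≤ V.card := Finset.card_filter_le _ _

theorem sum_nd (V : Finset ℕ) (F : Finset Cube) (g : ℕ → ℕ) {N : ℕ} (hN : V.card = N) :
    ∑ C ∈ F, g (fr V C) = ∑ d ∈ Finset.range (N + 1), ndim V F d * g d := by
  have hmap : ∀ C ∈ F, fr V C ∈ Finset.range (N + 1) := by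
    intro C _
    have := fr_le V C
    rw [Finset.mem_range]
    omega
  rw [← Finset.sum_fiberwise_of_maps_to hmap]
  apply Finset.sum_congr rfl
  intro d _
  unfold ndim
  rw [Finset.card_eq_sum_ones, Finset.sum_mul]
  apply Finset.sum_congr rfl
  intro C hC
  rw [(Finset.mem_filter.mp hC).2, one_mul]

theorem three_sums {V : Finset ℕ} {F : Finset Cube} (h : UH V F) (hL : Lev 5 45 V F) {N : ℕ}
    (hN : V.card = N) :
    ∑ d ∈ Finset.range (N + 1), ndim V F d = N + 45 ∧
    ∑ d ∈ Finset.range (N + 1), ndim V F d * 2 ^ d = 2 ^ N ∧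
    ∑ d ∈ Finset.range (N + 1), ndim V F d * d + 5 * N ≤ N * N := by
  refine ⟨?_, ?_, ?_⟩
  · have := sum_nd V F (fun _ => 1) hN
    simp only [mul_one, Finset.sum_const, smul_eq_mul] at this
    rw [← this, hL.1, hN]
  · rw [← sum_nd V F (fun d => 2 ^ d) hN]
    exact h.toPH.volume N hN
  · rw [← sum_nd V F (fun d => d) hN, sum_fr]
    have h1 : ∀ v ∈ V, (F.filter (fun C => C v = none)).card + 5 ≤ N := by
      intro v hv
      have e1 := free_add_dg F v
      have e2 := hL.2 v hv
      have e3 := hL.1
      omega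
    calc ∑ v ∈ V, (F.filter (fun C => C v = none)).card + 5 * N
        = ∑ v ∈ V, ((F.filter (fun C => C v = none)).card + 5) := by
          rw [Finset.sum_add_distrib, Finset.sum_const, hN, smul_eq_mul, mul_comm 5]
      _ ≤ ∑ _v ∈ V, N := Finset.sum_le_sum h1
      _ = N * N := by rw [Finset.sum_const, hN, smul_eq_mul]

/-- a cube with one prescribed variable -/
theorem sg_of_fr {V : Finset ℕ} {F : Finset Cube} (h : PH V F) {C : Cube} (hC : C ∈ F)
    (hf : fr V C + 1 = V.card) : ∃ v b, C = sg v b := by
  have h1 : (V.filter (fun v => ¬ C v = none)).card = 1 := by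
    have := Finset.card_filter_add_card_filter_not (s := V) (fun v => C v = none)
    unfold fr at hf
    omega
  obtain ⟨v, hv⟩ := Finset.card_eq_one.mp h1
  have hv' : v ∈ V.filter (fun v => ¬ C v = none) := by rw [hv]; simp
  obtain ⟨b, hb⟩ := Option.ne_none_iff_exists'.mp (Finset.mem_filter.mp hv').2
  refine ⟨v, b, ?_⟩
  funext x
  by_cases hx : x = v
  · subst hx; rw [hb, sg_self]
  · rw [sg_ne b hx]
    by_contra hne
    have : x ∈ V.filter (fun v => ¬ C v = none) := Finset.mem_filter.mpr ⟨h.supp C hC x hne, hne⟩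
    rw [hv, Finset.mem_singleton] at this
    exact hx this

theorem pr_of_fr {V : Finset ℕ} {F : Finset Cube} (h : PH V F) {C : Cube} (hC : C ∈ F)
    (hf : fr V C + 2 = V.card) : ∃ p q b c, p ≠ q ∧ C = pr p b q c := by
  have h1 : (V.filter (fun v => ¬ C v = none)).card = 2 := by
    have := Finset.card_filter_add_card_filter_not (s := V) (fun v => C v = none)
    unfold fr at hf
    omega
  obtain ⟨p, q, hpq, hv⟩ := Finset.card_eq_two.mp h1
  have hp : p ∈ V.filter (fun v => ¬ C v = none) := by rw [hv]; simp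
  have hq : q ∈ V.filter (fun v => ¬ C v = none) := by rw [hv]; simp
  obtain ⟨b, hb⟩ := Option.ne_none_iff_exists'.mp (Finset.mem_filter.mp hp).2
  obtain ⟨c, hc⟩ := Option.ne_none_iff_exists'.mp (Finset.mem_filter.mp hq).2
  refine ⟨p, q, b, c, hpq, ?_⟩
  funext x
  by_cases hx : x = p
  · subst hx; rw [hb, pr_fst b c hpq]
  · by_cases hx' : x = q
    · subst hx'; rw [hc, pr_snd]
    · rw [pr_ne b c hx hx']
      by_contra hne
      have : x ∈ V.filter (fun v => ¬ C v = none) := Finset.mem_filter.mpr ⟨h.supp C hC x hne, hne⟩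
      rw [hv, Finset.mem_insert, Finset.mem_singleton] at this
      rcases this with h | h
      · exact hx h
      · exact hx' h

/-- removing a unit cube -/
theorem UH.drop_unit {V : Finset ℕ} {F : Finset Cube} (h : UH V F) {m k : ℕ} (hL : Lev m k V F)
    (hmk : 1 ≤ k + m) {v : ℕ} {b : Bool} (hu : sg v b ∈ F) :
    UH (V.erase v) (fac F v (!b)) ∧ Lev m k (V.erase v) (fac F v (!b)) ∧ v ∈ V := by
  have hv : v ∈ V := h.supp _ hu v (by rw [sg_self]; simp)
  have hfil : F.filter (fun C => C v = some b) = {sg v b} := by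
    ext C
    simp only [Finset.mem_filter, Finset.mem_singleton]
    constructor
    · rintro ⟨hC, hCv⟩
      by_contra hne
      obtain ⟨u, c, h1, h2⟩ := h.hit C hC _ hu hne
      by_cases huv : u = v
      · subst huv
        rw [hCv] at h1
        cases h1
        rw [sg_self] at h2
        exact some_ne_not b h2
      · rw [sg_ne b huv] at h2
        cases h2
    · rintro rfl
      exact ⟨hu, sg_self v b⟩
  have hct : ct F v b = 1 := by
    unfold ct
    rw [hfil, Finset.card_singleton]
  have hd2 : ∀ u, u ≠ v → dg2 F v b u = 0 := by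
    intro u huv
    unfold dg2
    rw [Finset.card_eq_zero, Finset.eq_empty_iff_forall_notMem]
    intro C hC
    simp only [Finset.mem_filter] at hC
    have : C ∈ F.filter (fun C => C v = some b) := Finset.mem_filter.mpr ⟨hC.1, hC.2.1⟩
    rw [hfil, Finset.mem_singleton] at this
    exact hC.2.2 (by rw [this, sg_ne b huv])
  have hdg : ∀ u, u ≠ v → dg (fac F v (!b)) u = dg F u := by
    intro u huv
    have h1 := h.toPH.dg_fac (v := v) (u := u) (!b) huv
    rw [Bool.not_not, hd2 u huv] at h1
    omega
  have hcard := h.toPH.card_fac v (!b)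
  rw [Bool.not_not] at hcard
  have hVv := card_erase' hv
  refine ⟨⟨h.toPH.facet v (!b), ?_⟩, ⟨?_, ?_⟩, hv⟩
  · intro u hu
    obtain ⟨huv, huV⟩ := Finset.mem_erase.mp hu
    have h1 : 1 ≤ dg (fac F v (!b)) u := by
      rw [hdg u huv]
      have := hL.2 u huV
      omega
    obtain ⟨C, hC⟩ := Finset.card_pos.mp h1
    exact ⟨C, (Finset.mem_filter.mp hC).1, (Finset.mem_filter.mp hC).2⟩
  · have := hL.1
    omega
  · intro u hu
    obtain ⟨huv, huV⟩ := Finset.mem_erase.mp hu
    rw [hdg u huv]
    exact hL.2 u huV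

/-- eight variables -/
theorem UH.eight {V : Finset ℕ} {F : Finset Cube} (h : UH V F) (hL : Lev 5 45 V F)
    (hV : V.card = 8) (h6 : ndim V F 6 = 3) (h3 : ndim V F 3 = 2) : False := by
  -- every variable is free in exactly three cubes
  have hle : ∀ v ∈ V, (F.filter (fun C => C v = none)).card ≤ 3 := by
    intro v hv
    have e1 := free_add_dg F v
    have e2 := hL.2 v hv
    have e3 := hL.1
    omega
  -- a cube of dimension three and a cube of dimension six
  obtain ⟨D, hD⟩ := Finset.card_pos.mp (show 0 < (F.filter (fun C => fr V C = 3)).card by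
    change 0 < ndim V F 3; omega)
  obtain ⟨hDF, hD3⟩ := Finset.mem_filter.mp hD
  obtain ⟨P, hP⟩ := Finset.card_pos.mp (show 0 < (F.filter (fun C => fr V C = 6)).card by
    change 0 < ndim V F 6; omega)
  obtain ⟨hPF, hP6⟩ := Finset.mem_filter.mp hP
  -- free variables of `D` are covered
  have hcov : ∀ v ∈ V, D v = none → Covd F v := by
    intro v hv hDv
    by_contra hnc
    have hsub : insert D (F.filter (fun C => fr V C = 6)) ⊆ F.filter (fun C => C v = none) := by
      intro C hC
      rw [Finset.mem_insert] at hC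
      rcases hC with rfl | hC
      · exact Finset.mem_filter.mpr ⟨hDF, hDv⟩
      · obtain ⟨hCF, hC6⟩ := Finset.mem_filter.mp hC
        refine Finset.mem_filter.mpr ⟨hCF, ?_⟩
        obtain ⟨p, q, b, c, hpq, rfl⟩ := pr_of_fr h.toPH hCF (by omega)
        by_cases hvp : v = p
        · subst hvp
          exact absurd ⟨q, b, c, Ne.symm hpq, hCF⟩ hnc
        · by_cases hvq : v = q
          · subst hvq
            exact absurd ⟨p, c, b, hpq, by rw [← pr_comm b c hpq]; exact hCF⟩ hnc
          · exact pr_ne b c hvp hvq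
    have h1 := Finset.card_le_card hsub
    rw [Finset.card_insert_of_notMem (by
      rw [Finset.mem_filter]
      rintro ⟨-, h⟩
      omega)] at h1
    have h2 := hle v hv
    have h3 : (F.filter (fun C => fr V C = 6)).card = 3 := h6
    omega
  obtain ⟨p, q, b, c, hpq, rfl⟩ := pr_of_fr h.toPH hPF (by omega)
  -- `D` prescribes `p` or `q`
  have hne : pr p b q c ≠ D := by
    rintro rfl
    omega
  obtain ⟨x, e, hx1, hx2⟩ := h.hit _ hPF _ hDF hne
  have hxpq : x = p ∨ x = q := by
    by_contra hnot
    push Not at hnot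
    rw [pr_ne b c hnot.1 hnot.2] at hx1
    cases hx1
  have hfree : 2 ≤ ((V.filter (fun v => D v = none)).erase p |>.erase q).card := by
    have h1 : (V.filter (fun v => D v = none)).card = 3 := hD3
    rcases hxpq with rfl | rfl
    · rw [Finset.erase_eq_of_notMem (a := x) (by
        rw [Finset.mem_filter]
        rintro ⟨-, h⟩
        rw [h] at hx2; cases hx2)]
      have := Finset.pred_card_le_card_erase (s := V.filter (fun v => D v = none)) (a := q)
      omega
    · rw [Finset.erase_eq_of_notMem (a := x) (by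
        rw [Finset.mem_erase, Finset.mem_filter]
        rintro ⟨-, -, h⟩
        rw [h] at hx2; cases hx2)]
      have := Finset.pred_card_le_card_erase (s := V.filter (fun v => D v = none)) (a := p)
      omega
  obtain ⟨v, v', hv, hv', hvv⟩ := Finset.one_lt_card_iff.mp
    (show 1 < ((V.filter (fun v => D v = none)).erase p |>.erase q).card by omega)
  simp only [Finset.mem_erase, Finset.mem_filter] at hv hv'
  exact covd_few h.toPH hpq hPF hv.2.1 hv.1 hv'.2.1 hv'.1 hvv (hcov v hv.2.2.1 hv.2.2.2)
    (hcov v' hv'.2.2.1 hv'.2.2.2)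

theorem ar6 (n0 n1 n2 n3 n4 : ℕ) (h1 : n0 + n1 + n2 + n3 + n4 = 51)
    (h2 : n0 + 2 * n1 + 4 * n2 + 8 * n3 + 16 * n4 = 64)
    (h3 : n1 + 2 * n2 + 3 * n3 + 4 * n4 ≤ 6) : False := by
  have a4 : n4 = 0 := by omega
  have a3 : n3 ≤ 1 := by omega
  interval_cases n3 <;> omega

theorem ar7 (n0 n1 n2 n3 n4 n5 : ℕ) (h1 : n0 + n1 + n2 + n3 + n4 + n5 = 52)
    (h2 : n0 + 2 * n1 + 4 * n2 + 8 * n3 + 16 * n4 + 32 * n5 = 128)
    (h3 : n1 + 2 * n2 + 3 * n3 + 4 * n4 + 5 * n5 ≤ 14) : False := by
  have a5 : n5 = 2 := by omega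
  have a4 : n4 = 0 := by omega
  have a3 : n3 ≤ 1 := by omega
  interval_cases n3 <;> omega

theorem ar8 (n0 n1 n2 n3 n4 n5 n6 : ℕ) (h1 : n0 + n1 + n2 + n3 + n4 + n5 + n6 = 53)
    (h2 : n0 + 2 * n1 + 4 * n2 + 8 * n3 + 16 * n4 + 32 * n5 + 64 * n6 = 256)
    (h3 : n1 + 2 * n2 + 3 * n3 + 4 * n4 + 5 * n5 + 6 * n6 ≤ 24) : n6 = 3 ∧ n3 = 2 := by
  have a6 : n6 = 3 := by omega
  have a5 : n5 = 0 := by omega
  have a4 : n4 = 0 := by omega
  have a3 : n3 ≤ 2 := by omega
  refine ⟨a6, ?_⟩
  interval_cases n3 <;> omega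

theorem UH.root : ∀ (N : ℕ) {V : Finset ℕ} {F : Finset Cube}, UH V F → Lev 5 45 V F →
    V.card = N → False := by
  intro N
  induction N with
  | zero =>
    intro V F h hL hN
    have hV : V = ∅ := Finset.card_eq_zero.mp hN
    subst hV
    have h1 := h.toPH.empty
    have h2 := hL.1
    rw [h1] at h2
    simp at h2
  | succ N ih =>
    intro V F h hL hN
    by_cases hn : NoUnit F
    · by_cases h9 : 9 ≤ V.card
      · exact h.fortyfive_unit le_rfl hL h9 hn
      obtain ⟨s1, s2, s3⟩ := three_sums h hL hN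
      have top : ndim V F (N + 1) = 0 := by
        unfold ndim
        rw [Finset.card_eq_zero, Finset.eq_empty_iff_forall_notMem]
        intro C hC
        obtain ⟨hCF, hCf⟩ := Finset.mem_filter.mp hC
        have hall : ∀ v, C v = none := by
          intro v
          by_contra hne
          have hvV := h.supp C hCF v hne
          have h1 : V.filter (fun v => C v = none) = V :=
            Finset.eq_of_subset_of_card_le (Finset.filter_subset _ _) (by
              unfold fr at hCf; omega)
          have h2 : v ∈ V.filter (fun v => C v = none) := by rw [h1]; exact hvV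
          exact hne (Finset.mem_filter.mp h2).2
        have h1 := none_of_unit h.toPH hCF hall
        have h2 := hL.1
        rw [h1, Finset.card_singleton] at h2
        omega
      have sub : ndim V F N = 0 := by
        unfold ndim
        rw [Finset.card_eq_zero, Finset.eq_empty_iff_forall_notMem]
        intro C hC
        obtain ⟨hCF, hCf⟩ := Finset.mem_filter.mp hC
        obtain ⟨v, b, rfl⟩ := sg_of_fr h.toPH hCF (by omega)
        exact hn v b hCF
      have hN8 : N ≤ 7 := by omega
      interval_cases N <;> norm_num [Finset.sum_range_succ] at s1 s2 s3 top sub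
      · omega
      · omega
      · omega
      · omega
      · omega
      · exact ar6 (ndim V F 0) (ndim V F 1) (ndim V F 2) (ndim V F 3) (ndim V F 4)
          (by omega) (by omega) (by omega)
      · exact ar7 (ndim V F 0) (ndim V F 1) (ndim V F 2) (ndim V F 3) (ndim V F 4) (ndim V F 5)
          (by omega) (by omega) (by omega)
      · obtain ⟨a, b⟩ := ar8 (ndim V F 0) (ndim V F 1) (ndim V F 2) (ndim V F 3) (ndim V F 4)
          (ndim V F 5) (ndim V F 6) (by omega) (by omega) (by omega)
        exact h.eight hL hN a b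
    · unfold NoUnit at hn
      push Not at hn
      obtain ⟨v, b, hvb⟩ := hn
      obtain ⟨h1, h2, h3⟩ := h.drop_unit hL (by omega) hvb
      have := card_erase' h3
      exact ih h1 h2 (by omega)

/-- **Main lemma.** A partition into cubes with deficiency 45 has a variable of degree at most 49. -/
theorem UH.main {V : Finset ℕ} {F : Finset Cube} (h : UH V F) (hc : F.card = V.card + 45) :
    ∃ v ∈ V, dg F v ≤ 49 := by
  by_contra hnot
  push Not at hnot
  exact UH.root _ h ⟨hc, fun v hv => by have := hnot v hv; omega⟩ rfl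

end Pool.Agent.Lib.MP_9abcb7_co
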