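import Pool.Agent.Lib.MP_9abcb7_co.Root
import Pool.Agent.Lib.MP_9abcb7_co.Defs

set_option autoImplicit false

open Function

namespace Pool.Agent.Lib.MP_9abcb7_co

open scoped Classical
open Pool.Agent.MP_9abcb7_co

/-- the cube of assignments falsifying a clause -/
noncomputable def toCube (C : Finset ℤ) : Cube := fun v =>
  if (v : ℤ) ∈ C then some false else if -(v : ℤ) ∈ C then some true else none

theorem toCube_false {C : Finset ℤ} (_hC : IsClause C) {v : ℕ} :
    toCube C v = some false ↔ (v : ℤ) ∈ C := by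
  unfold toCube
  by_cases h : (v : ℤ) ∈ C
  · simp [h]
  · by_cases h' : -(v : ℤ) ∈ C
    · simp [h, h']
    · simp [h, h']

theorem toCube_true {C : Finset ℤ} (hC : IsClause C) {v : ℕ} :
    toCube C v = some true ↔ -(v : ℤ) ∈ C := by
  unfold toCube
  by_cases h : (v : ℤ) ∈ C
  · have := hC.2 _ h
    simp [h, this]
  · by_cases h' : -(v : ℤ) ∈ C
    · simp [h, h']
    · simp [h, h']

theorem toCube_ne {C : Finset ℤ} (hC : IsClause C) {v : ℕ} :
    toCube C v ≠ none ↔ ((v : ℤ) ∈ C ∨ -(v : ℤ) ∈ C) := by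
  constructor
  · intro h
    rcases ne_none_cases h true with h1 | h1
    · exact Or.inr ((toCube_true hC).mp h1)
    · exact Or.inl ((toCube_false hC).mp h1)
  · rintro (h | h)
    · rw [(toCube_false hC).mpr h]; simp
    · rw [(toCube_true hC).mpr h]; simp

theorem toCube_inj {C D : Finset ℤ} (hC : IsClause C) (hD : IsClause D)
    (h : toCube C = toCube D) : C = D := by
  ext x
  rcases Int.natAbs_eq x with hx | hx
  · rw [hx, ← toCube_false hC, ← toCube_false hD, h]
  · rw [hx, ← toCube_true hC, ← toCube_true hD, h]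

theorem mem_vars {F : Finset (Finset ℤ)} {v : ℕ} :
    v ∈ vars F ↔ ∃ C ∈ F, (v : ℤ) ∈ C ∨ -(v : ℤ) ∈ C := by
  unfold vars
  simp only [Finset.mem_biUnion, Finset.mem_image]
  constructor
  · rintro ⟨C, hC, x, hx, rfl⟩
    refine ⟨C, hC, ?_⟩
    rcases Int.natAbs_eq x with h | h
    · left; rw [← h]; exact hx
    · right; rw [← h]; exact hx
  · rintro ⟨C, hC, h | h⟩
    · exact ⟨C, hC, _, h, by simp⟩
    · exact ⟨C, hC, _, h, by simp⟩

theorem vars_pos {F : Finset (Finset ℤ)} (hF : IsClauseSet F) {v : ℕ} (hv : v ∈ vars F) : v ≠ 0 := by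
  rintro rfl
  obtain ⟨C, hC, h⟩ := mem_vars.mp hv
  simp only [Nat.cast_zero, neg_zero, or_self] at h
  exact (hF C hC).1 h

theorem transfer {F : Finset (Finset ℤ)} (hF : UnsatHitting F) :
    UH (vars F) (F.image toCube) ∧ (F.image toCube).card = F.card ∧
      ∀ v, dg (F.image toCube) v = vdeg F v := by
  obtain ⟨hcl, hun, hhit⟩ := hF
  have hinj : Set.InjOn toCube (F : Set (Finset ℤ)) :=
    fun C hC D hD h => toCube_inj (hcl C hC) (hcl D hD) h
  refine ⟨⟨⟨?_, ?_, ?_⟩, ?_⟩, Finset.card_image_of_injOn hinj, ?_⟩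
  · intro C' hC' v hv
    obtain ⟨C, hC, rfl⟩ := Finset.mem_image.mp hC'
    exact mem_vars.mpr ⟨C, hC, (toCube_ne (hcl C hC)).mp hv⟩
  · intro C' hC' D' hD' hne
    obtain ⟨C, hC, rfl⟩ := Finset.mem_image.mp hC'
    obtain ⟨D, hD, rfl⟩ := Finset.mem_image.mp hD'
    have hne' : C ≠ D := by rintro rfl; exact hne rfl
    obtain ⟨x, hx, hx'⟩ := hhit C hC D hD hne'
    rcases Int.natAbs_eq x with h | h
    · refine ⟨x.natAbs, false, (toCube_false (hcl C hC)).mpr (by rw [← h]; exact hx), ?_⟩
      exact (toCube_true (hcl D hD)).mpr (by rw [← h]; exact hx')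
    · refine ⟨x.natAbs, true, (toCube_true (hcl C hC)).mpr (by rw [← h]; exact hx), ?_⟩
      refine (toCube_false (hcl D hD)).mpr ?_
      have : ((x.natAbs : ℕ) : ℤ) = -x := by omega
      rw [this]; exact hx'
  · intro σ
    by_contra hnot
    push Not at hnot
    apply hun
    refine ⟨(vars F).image (fun v => if σ v = true then (v : ℤ) else -(v : ℤ)), ⟨?_, ?_⟩, ?_⟩
    · intro h0
      obtain ⟨v, hv, hv'⟩ := Finset.mem_image.mp h0
      have := vars_pos hcl hv
      split_ifs at hv' <;> omega
    · intro x hx hx'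
      obtain ⟨v, hv, rfl⟩ := Finset.mem_image.mp hx
      obtain ⟨u, hu, hu'⟩ := Finset.mem_image.mp hx'
      have h1 := vars_pos hcl hv
      have h2 := vars_pos hcl hu
      by_cases hs : σ v = true
      · by_cases hs' : σ u = true
        · rw [if_pos hs', if_pos hs] at hu'; omega
        · rw [if_neg hs', if_pos hs] at hu'
          have : u = v := by omega
          rw [this] at hs'
          exact hs' hs
      · by_cases hs' : σ u = true
        · rw [if_pos hs', if_neg hs] at hu'
          have : u = v := by omega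
          rw [this] at hs'
          exact hs hs'
        · rw [if_neg hs', if_neg hs] at hu'; omega
    · intro C hC
      have h1 := hnot (toCube C) (Finset.mem_image_of_mem _ hC)
      unfold MemC at h1
      push Not at h1
      obtain ⟨v, b, hv, hb⟩ := h1
      have hvV : v ∈ vars F := mem_vars.mpr ⟨C, hC, (toCube_ne (hcl C hC)).mp (by rw [hv]; simp)⟩
      cases b
      · refine ⟨(v : ℤ), Finset.mem_inter.mpr ⟨Finset.mem_image.mpr ⟨v, hvV, ?_⟩,
          (toCube_false (hcl C hC)).mp hv⟩⟩
        simp only [ne_eq, Bool.not_eq_false] at hb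
        simp [hb]
      · refine ⟨-(v : ℤ), Finset.mem_inter.mpr ⟨Finset.mem_image.mpr ⟨v, hvV, ?_⟩,
          (toCube_true (hcl C hC)).mp hv⟩⟩
        simp only [ne_eq, Bool.not_eq_true] at hb
        simp [hb]
  · intro v hv
    obtain ⟨C, hC, h⟩ := mem_vars.mp hv
    exact ⟨toCube C, Finset.mem_image_of_mem _ hC, (toCube_ne (hcl C hC)).mpr h⟩
  · intro v
    rw [dg_eq _ v false]
    unfold ct vdeg
    have e1 : ((F.image toCube).filter (fun C => C v = some false)).card =
        (F.filter (fun C => (v : ℤ) ∈ C)).card := by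
      have : (F.image toCube).filter (fun C => C v = some false) =
          (F.filter (fun C => (v : ℤ) ∈ C)).image toCube := by
        ext D
        simp only [Finset.mem_filter, Finset.mem_image]
        constructor
        · rintro ⟨⟨C, hC, rfl⟩, h⟩
          exact ⟨C, ⟨hC, (toCube_false (hcl C hC)).mp h⟩, rfl⟩
        · rintro ⟨C, ⟨hC, h⟩, rfl⟩
          exact ⟨⟨C, hC, rfl⟩, (toCube_false (hcl C hC)).mpr h⟩
      rw [this, Finset.card_image_of_injOn]
      intro C hC D hD h
      exact toCube_inj (hcl C (Finset.mem_filter.mp hC).1) (hcl D (Finset.mem_filter.mp hD).1) h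
    have e2 : ((F.image toCube).filter (fun C => C v = some (!false))).card =
        (F.filter (fun C => -(v : ℤ) ∈ C)).card := by
      have : (F.image toCube).filter (fun C => C v = some (!false)) =
          (F.filter (fun C => -(v : ℤ) ∈ C)).image toCube := by
        ext D
        simp only [Finset.mem_filter, Finset.mem_image, Bool.not_false]
        constructor
        · rintro ⟨⟨C, hC, rfl⟩, h⟩
          exact ⟨C, ⟨hC, (toCube_true (hcl C hC)).mp h⟩, rfl⟩
        · rintro ⟨C, ⟨hC, h⟩, rfl⟩
          exact ⟨⟨C, hC, rfl⟩, (toCube_true (hcl C hC)).mpr h⟩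
      rw [this, Finset.card_image_of_injOn]
      intro C hC D hD h
      exact toCube_inj (hcl C (Finset.mem_filter.mp hC).1) (hcl D (Finset.mem_filter.mp hD).1) h
    rw [e1, e2]

/-- unsatisfiable hitting clause-sets of deficiency 45 have min-var-degree at most 49 -/
theorem hitting_bound {F : Finset (Finset ℤ)} (hF : UnsatHitting F) (hd : deficiency F = 45) :
    minVarDeg F ≤ 49 := by
  obtain ⟨h1, h2, h3⟩ := transfer hF
  obtain ⟨v, hv, hv'⟩ := h1.main (by
    unfold deficiency at hd
    omega)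
  rw [h3] at hv'
  exact le_trans (Nat.sInf_le ⟨v, hv, rfl⟩) hv'

end Pool.Agent.Lib.MP_9abcb7_co
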