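import Pool.Agent.Lib.MP_9abcb7_co.Basic

set_option autoImplicit false

open Function

namespace Pool.Agent.Lib.MP_9abcb7_co

open scoped Classical

/-- the cube prescribing one value -/
def sg (v : ℕ) (b : Bool) : Cube := update (fun _ => none) v (some b)

/-- the cube prescribing two values -/
def pr (v : ℕ) (b : Bool) (u : ℕ) (c : Bool) : Cube := update (sg v b) u (some c)

/-- no cube of `F` prescribes exactly one value -/
def NoUnit (F : Finset Cube) : Prop := ∀ v b, sg v b ∉ F

/-- `F` has deficiency `k` and all degrees are at least `k + m` -/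
def Lev (m k : ℕ) (V : Finset ℕ) (F : Finset Cube) : Prop :=
  F.card = V.card + k ∧ ∀ v ∈ V, k + m ≤ dg F v

theorem card_erase' {V : Finset ℕ} {w : ℕ} (hw : w ∈ V) : (V.erase w).card + 1 = V.card :=
  Finset.card_erase_add_one hw

theorem UH.facet_k {V : Finset ℕ} {F : Finset Cube} (h : UH V F) {w : ℕ} (hw : Good V F w)
    {k : ℕ} (hk : F.card = V.card + k) (b : Bool) :
    ∃ kb, 1 ≤ kb ∧ (fac F w b).card = (V.erase w).card + kb ∧ kb + ct F w (!b) = k + 1 := by
  have h1 := (h.facet hw b).lt_card
  have h2 := h.toPH.card_fac w b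
  have h3 := card_erase' hw.1
  refine ⟨k + 1 - ct F w (!b), ?_, ?_, ?_⟩ <;> omega

theorem UH.facet_lev {V : Finset ℕ} {F : Finset Cube} (h : UH V F) {w : ℕ} (hw : Good V F w)
    {m k : ℕ} (hk : Lev (m + 1) k V F) (b : Bool) :
    ∃ kb, 1 ≤ kb ∧ Lev m kb (V.erase w) (fac F w b) ∧ kb + ct F w (!b) = k + 1 := by
  obtain ⟨kb, h1, h2, h3⟩ := h.facet_k hw hk.1 b
  refine ⟨kb, h1, ⟨h2, ?_⟩, h3⟩
  intro u hu
  obtain ⟨huw, huV⟩ := Finset.mem_erase.mp hu
  have h4 := h.toPH.dg_fac b huw
  have h5 := dg2_le F w (!b) u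
  have h6 := hk.2 u huV
  omega

theorem UH.level_bound : ∀ (m : ℕ) {k : ℕ} {V : Finset ℕ} {F : Finset Cube}, UH V F → V.Nonempty →
    Lev m k V F → 2 ^ m ≤ k + m := by
  intro m
  induction m with
  | zero =>
    intro k V F h _ hL
    have := h.lt_card
    have := hL.1
    simp only [pow_zero]
    omega
  | succ m ih =>
    intro k V F h hV hL
    obtain ⟨w, hw⟩ := h.exists_good hV
    by_cases hV' : (V.erase w).Nonempty
    · obtain ⟨k0, h01, h02, h03⟩ := h.facet_lev hw hL false
      obtain ⟨k1, h11, h12, h13⟩ := h.facet_lev hw hL true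
      have i0 := ih (h.facet hw false) hV' h02
      have i1 := ih (h.facet hw true) hV' h12
      have h5 := dg_eq F w true
      have h6 := hL.2 w hw.1
      simp only [Bool.not_false, Bool.not_true] at *
      rw [pow_succ]
      omega
    · have h1 : (V.erase w).card = 0 := by
        rw [Finset.card_eq_zero]
        exact Finset.not_nonempty_iff_eq_empty.mp hV'
      have h2 := card_erase' hw.1
      have h3 := hL.1
      have h4 := hL.2 w hw.1
      have h5 : dg F w ≤ F.card := Finset.card_filter_le _ _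
      have h7 : m = 0 := by omega
      subst h7
      have := h.lt_card
      simp only [zero_add, pow_one]
      omega

/-- If there is only one cube `β` with value `!b` at `u`, it contains the mirror image of every cube
with value `b`. -/
theorem PH.flip_unique {V : Finset ℕ} {F : Finset Cube} (h : PH V F) {α β : Cube} (hα : α ∈ F)
    {u : ℕ} {b : Bool} (hu : α u = some b) (huniq : ∀ D ∈ F, D u = some (!b) → D = β)
    {x : ℕ} {c : Bool} (hx : x ≠ u) (hβ : β x = some c) : α x = some c := by
  rcases opt_cases (α x) c with h1 | h1 | h1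
  · exfalso
    obtain ⟨D, hD, hDu, hDm⟩ := h.flip hα hu (memC_update_self h1 (memC_pt α) (!c))
    rw [huniq D hD hDu] at hDm
    have := hDm x c hβ
    rw [update_of_ne hx, update_self] at this
    cases c <;> simp at this
  · exact h1
  · exfalso
    obtain ⟨D, hD, hDu, hDm⟩ := h.flip hα hu (memC_pt α)
    rw [huniq D hD hDu] at hDm
    have := hDm x c hβ
    rw [update_of_ne hx] at this
    simp only [pt, h1, Option.getD_some] at this
    cases c <;> simp at this

theorem ct_one {F : Finset Cube} {u : ℕ} {b : Bool} (h : ct F u b = 1) :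
    ∃ α ∈ F, α u = some b ∧ ∀ D ∈ F, D u = some b → D = α := by
  obtain ⟨α, hα⟩ := Finset.card_eq_one.mp h
  have h1 : α ∈ F.filter (fun C => C u = some b) := by rw [hα]; simp
  obtain ⟨h2, h3⟩ := Finset.mem_filter.mp h1
  refine ⟨α, h2, h3, ?_⟩
  intro D hD hDu
  have h4 : D ∈ F.filter (fun C => C u = some b) := Finset.mem_filter.mpr ⟨hD, hDu⟩
  rw [hα] at h4
  simpa using h4

/-- the two cubes containing a variable of degree 2 -/
theorem UH.bot {V : Finset ℕ} {F : Finset Cube} (h : UH V F) {u : ℕ} (hu : u ∈ V)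
    (hd : dg F u = 2) : ∃ α : Bool → Cube, (∀ b, α b ∈ F ∧ α b u = some b ∧
      ∀ D ∈ F, D u = some b → D = α b) ∧ ∀ x, x ≠ u → α true x = α false x := by
  have h1 := h.ct_pos hu true
  have h2 := h.ct_pos hu false
  have h3 := dg_eq F u true
  simp only [Bool.not_true] at h3
  obtain ⟨α1, ha1, hb1, hc1⟩ := ct_one (F := F) (u := u) (b := true) (by omega)
  obtain ⟨α0, ha0, hb0, hc0⟩ := ct_one (F := F) (u := u) (b := false) (by omega)
  refine ⟨fun b => if b then α1 else α0, ?_, ?_⟩
  · intro b
    cases b
    · exact ⟨ha0, hb0, hc0⟩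
    · exact ⟨ha1, hb1, hc1⟩
  · intro x hx
    simp only [if_true, Bool.false_eq_true, if_false]
    rcases opt_cases (α1 x) true with e | e | e
    · rcases opt_cases (α0 x) true with e' | e' | e'
      · rw [e, e']
      · have := h.toPH.flip_unique ha1 hb1 (by simpa using hc0) hx e'
        rw [this] at e
        cases e
      · have := h.toPH.flip_unique ha1 hb1 (by simpa using hc0) hx e'
        rw [this] at e
        cases e
    · have := h.toPH.flip_unique ha0 hb0 (by simpa using hc1) hx e
      rw [this, e]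
    · have := h.toPH.flip_unique ha0 hb0 (by simpa using hc1) hx e
      rw [this, e]

theorem UH.dg_ge_two {V : Finset ℕ} {F : Finset Cube} (h : UH V F) {u : ℕ} (hu : u ∈ V) :
    2 ≤ dg F u := by
  have h1 := h.ct_pos hu true
  have h2 := h.ct_pos hu false
  have h3 := dg_eq F u true
  simp only [Bool.not_true] at h3
  omega

theorem UH.good_of_two {V : Finset ℕ} {F : Finset Cube} (h : UH V F) {u : ℕ} (hu : u ∈ V)
    (hd : dg F u = 2) : Good V F u :=
  h.good_of_min hu (fun v hv => by rw [hd]; exact h.dg_ge_two hv)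

/-- in deficiency one there is a variable of degree two -/
theorem UH.exists_two {V : Finset ℕ} {F : Finset Cube} (h : UH V F) (hk : F.card = V.card + 1)
    (hV : V.Nonempty) : ∃ u ∈ V, dg F u = 2 := by
  obtain ⟨w, hw⟩ := h.exists_good hV
  obtain ⟨k0, h1, -, h2⟩ := h.facet_k hw hk false
  obtain ⟨k1, h3, -, h4⟩ := h.facet_k hw hk true
  simp only [Bool.not_false, Bool.not_true] at *
  refine ⟨w, hw.1, ?_⟩
  have h5 := dg_eq F w true
  have h6 := h.ct_pos hw.1 true
  have h7 := h.ct_pos hw.1 false
  simp only [Bool.not_true] at h5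
  omega

theorem none_of_unit {V : Finset ℕ} {F : Finset Cube} (h : PH V F) {C : Cube} (hC : C ∈ F)
    (hn : ∀ v, C v = none) : F = {C} := by
  ext D
  simp only [Finset.mem_singleton]
  constructor
  · intro hD
    by_contra hne
    obtain ⟨v, b, h1, h2⟩ := h.hit D hD C hC hne
    rw [hn v] at h2
    cases h2
  · rintro rfl
    exact hC

/-- in deficiency one there is a variable occurring in all cubes -/
theorem UH.full : ∀ (n : ℕ) {V : Finset ℕ} {F : Finset Cube}, UH V F → F.card = V.card + 1 →
    V.card = n → V.Nonempty → ∃ r ∈ V, ∀ C ∈ F, C r ≠ none := by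
  intro n
  induction n using Nat.strong_induction_on with
  | _ n ih =>
    intro V F h hk hn hV
    obtain ⟨u, hu, hd⟩ := h.exists_two hk hV
    have hg := h.good_of_two hu hd
    obtain ⟨α, hα, hαx⟩ := h.bot hu hd
    by_cases hV' : (V.erase u).Nonempty
    · have hct : ct F u true = 1 := by
        have h1 := h.ct_pos hu true
        have h2 := h.ct_pos hu false
        have h3 := dg_eq F u true
        simp only [Bool.not_true] at h3
        omega
      have hc := h.toPH.card_fac u false
      simp only [Bool.not_false] at hc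
      have he := card_erase' hu
      obtain ⟨r, hr, hfull⟩ := ih (V.erase u).card (by omega) (h.facet hg false) (by omega) rfl hV'
      obtain ⟨hru, hrV⟩ := Finset.mem_erase.mp hr
      refine ⟨r, hrV, ?_⟩
      have key : ∀ C ∈ F, C u ≠ some true → C r ≠ none := by
        intro C hC hCu
        have := hfull _ (PH.mem_fac_of (v := u) (b := false) hC (by simpa using hCu))
        rwa [update_of_ne hru] at this
      intro C hC
      by_cases hCu : C u = some true
      · rw [(hα true).2.2 C hC hCu, hαx r hru]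
        exact key _ (hα false).1 (by rw [(hα false).2.1]; simp)
      · exact key C hC hCu
    · refine ⟨u, hu, ?_⟩
      intro C hC hCu
      have hVe : V.erase u = ∅ := Finset.not_nonempty_iff_eq_empty.mp hV'
      have hall : ∀ v, C v = none := by
        intro v
        by_contra hv
        have h1 := h.supp C hC v hv
        by_cases hvu : v = u
        · rw [hvu] at hv; exact hv hCu
        · have : v ∈ V.erase u := Finset.mem_erase.mpr ⟨hvu, h1⟩
          rw [hVe] at this
          simp at this
      have := none_of_unit h.toPH hC hall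
      have h2 := (hα true).1
      rw [this, Finset.mem_singleton] at h2
      have h3 := (hα true).2.1
      rw [h2, hCu] at h3
      cases h3

/-- variables occurring in `F` -/
noncomputable def occ (V : Finset ℕ) (F : Finset Cube) : Finset ℕ :=
  V.filter (fun v => ∃ C ∈ F, C v ≠ none)

theorem PH.toOcc {V : Finset ℕ} {F : Finset Cube} (h : PH V F) : UH (occ V F) F := by
  refine ⟨⟨?_, h.hit, h.cov⟩, ?_⟩
  · intro C hC v hv
    exact Finset.mem_filter.mpr ⟨h.supp C hC v hv, C, hC, hv⟩
  · intro v hv
    exact (Finset.mem_filter.mp hv).2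

/-- sides of a full variable -/
theorem UH.sides {V : Finset ℕ} {F : Finset Cube} (h : UH V F) {r : ℕ}
    (hfull : ∀ C ∈ F, C r ≠ none) :
    (∀ b, UH (occ (V.erase r) (fac F r b)) (fac F r b)) ∧
    occ (V.erase r) (fac F r false) ∪ occ (V.erase r) (fac F r true) = V.erase r ∧
    (fac F r false).card + (fac F r true).card = F.card := by
  refine ⟨fun b => (h.toPH.facet r b).toOcc, ?_, ?_⟩
  · ext v
    simp only [Finset.mem_union]
    constructor
    · rintro (h1 | h1) <;> exact (Finset.mem_filter.mp h1).1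
    · intro hv
      obtain ⟨hvr, hvV⟩ := Finset.mem_erase.mp hv
      obtain ⟨C, hC, hCv⟩ := h.nd v hvV
      rcases ne_none_cases (hfull C hC) true with h1 | h1
      · right
        refine Finset.mem_filter.mpr ⟨hv, update C r none, PH.mem_fac_of hC ?_, ?_⟩
        · rw [h1]; simp
        · rw [update_of_ne hvr]; exact hCv
      · left
        refine Finset.mem_filter.mpr ⟨hv, update C r none, PH.mem_fac_of hC ?_, ?_⟩
        · rw [h1]; simp
        · rw [update_of_ne hvr]; exact hCv
  · have h1 := h.toPH.card_fac r false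
    have h2 := h.toPH.card_fac r true
    have h3 := dg_eq F r true
    have h4 : dg F r = F.card := by
      unfold dg
      rw [Finset.filter_true_of_mem]
      exact hfull
    simp only [Bool.not_false, Bool.not_true] at *
    omega

/-- degrees split over the two sides of a full variable -/
theorem UH.dg_sides {V : Finset ℕ} {F : Finset Cube} (h : UH V F) {r : ℕ}
    (hfull : ∀ C ∈ F, C r ≠ none) {x : ℕ} (hx : x ≠ r) :
    dg F x = dg (fac F r false) x + dg (fac F r true) x := by
  have h1 := h.toPH.dg_fac (v := r) (u := x) false hx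
  have h2 := h.toPH.dg_fac (v := r) (u := x) true hx
  have h3 : dg2 F r true x + dg2 F r false x = dg F x := by
    unfold dg2 dg
    rw [← Finset.card_union_of_disjoint]
    · congr 1
      ext C
      simp only [Finset.mem_filter, Finset.mem_union]
      constructor
      · rintro (⟨a, b, c⟩ | ⟨a, b, c⟩) <;> exact ⟨a, c⟩
      · rintro ⟨a, c⟩
        rcases ne_none_cases (hfull C a) true with e | e
        · exact Or.inl ⟨a, e, c⟩
        · exact Or.inr ⟨a, by simpa using e, c⟩
    · rw [Finset.disjoint_filter]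
      rintro C _ ⟨e, _⟩ ⟨e', _⟩
      rw [e] at e'
      cases e'
  simp only [Bool.not_false, Bool.not_true] at *
  omega

theorem dg_zero_of_not_occ {V : Finset ℕ} {F : Finset Cube} (h : PH V F) {x : ℕ}
    (hx : x ∉ occ V F) : dg F x = 0 := by
  unfold dg
  rw [Finset.card_eq_zero, Finset.filter_eq_empty_iff]
  intro C hC hne
  exact hx (Finset.mem_filter.mpr ⟨h.supp C hC x hne, C, hC, hne⟩)

/-- two variables of degree two never occur together -/
theorem UH.bots_apart {V : Finset ℕ} {F : Finset Cube} (h : UH V F) {u v : ℕ} (hu : u ∈ V)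
    (hv : v ∈ V) (hdu : dg F u = 2) (hdv : dg F v = 2) (huv : u ≠ v) {C : Cube} (hC : C ∈ F)
    (h1 : C u ≠ none) : C v = none := by
  obtain ⟨α, hα, hαx⟩ := h.bot hu hdu
  obtain ⟨β, hβ, hβx⟩ := h.bot hv hdv
  by_contra h2
  have hαv : ∀ b, α b v = C v := by
    intro b
    rcases ne_none_cases h1 true with e | e
    · have := (hα _).2.2 C hC e
      rw [this]
      cases b
      · exact (hαx v (Ne.symm huv)).symm
      · rfl
    · have := (hα _).2.2 C hC e
      rw [this]
      cases b
      · rfl
      · exact hαx v (Ne.symm huv)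
  obtain ⟨c, hc⟩ := Option.ne_none_iff_exists'.mp h2
  have e1 := (hβ c).2.2 (α true) (hα true).1 (by rw [hαv, hc])
  have e2 := (hβ c).2.2 (α false) (hα false).1 (by rw [hαv, hc])
  have e3 := (hα true).2.1
  rw [e1, ← e2, (hα false).2.1] at e3
  cases e3

/-- structure of the end of a caterpillar, first form -/
theorem UH.ce1 {V : Finset ℕ} {F : Finset Cube} (h : UH V F) (hk : F.card = V.card + 1)
    (hV : 2 ≤ V.card) {u : ℕ} (hu : u ∈ V) (hd : dg F u = 2)
    (huniq : ∀ x ∈ V, dg F x = 2 → x = u) :
    ∃ l ∈ V, l ≠ u ∧ dg F l = 3 ∧ (∀ C ∈ F, C u ≠ none → C l ≠ none) ∧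
      dg (fac F u false) l = 2 := by
  have hg := h.good_of_two hu hd
  obtain ⟨α, hα, hαx⟩ := h.bot hu hd
  have hct : ct F u true = 1 := by
    have h1 := h.ct_pos hu true
    have h2 := h.ct_pos hu false
    have h3 := dg_eq F u true
    simp only [Bool.not_true] at h3
    omega
  have hc := h.toPH.card_fac u false
  simp only [Bool.not_false] at hc
  have he := card_erase' hu
  obtain ⟨l, hl, hdl⟩ := (h.facet hg false).exists_two (by omega) (Finset.card_pos.mp (by omega))
  obtain ⟨hlu, hlV⟩ := Finset.mem_erase.mp hl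
  have h1 := h.toPH.dg_fac (v := u) (u := l) false hlu
  have h2 := dg2_le F u true l
  have h3 := h.dg_ge_two hlV
  have h4 : dg F l ≠ 2 := fun e => hlu (huniq l hlV e)
  simp only [Bool.not_false] at h1
  have h5 : ∀ C ∈ F, C u = some true → C l ≠ none := dg2_eq_all (by omega)
  refine ⟨l, hlV, hlu, by omega, ?_, hdl⟩
  intro C hC hCu
  rcases ne_none_cases hCu true with e | e
  · exact h5 C hC e
  · rw [(hα false).2.2 C hC e, ← hαx l hlu]
    exact h5 _ (hα true).1 (hα true).2.1

/-- structure of the end of a caterpillar, second form -/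
theorem UH.ce2 {V : Finset ℕ} {F : Finset Cube} (h : UH V F) (hk : F.card = V.card + 1)
    (hV : 3 ≤ V.card) {u : ℕ} (hu : u ∈ V) (hd : dg F u = 2)
    (huniq : ∀ x ∈ V, dg F x = 2 → x = u) :
    ∃ l ∈ V, ∃ l' ∈ V, l ≠ u ∧ l' ≠ u ∧ l ≠ l' ∧ dg F l = 3 ∧ dg F l' = 4 ∧
      (∀ C ∈ F, C u ≠ none → C l ≠ none) ∧ (∀ C ∈ F, C u ≠ none → C l' ≠ none) := by
  obtain ⟨l, hl, hlu, hdl, hul, hdl'⟩ := h.ce1 hk (by omega) hu hd huniq
  have hg := h.good_of_two hu hd
  obtain ⟨α, hα, hαx⟩ := h.bot hu hd
  have hct : ct F u true = 1 := by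
    have h1 := h.ct_pos hu true
    have h2 := h.ct_pos hu false
    have h3 := dg_eq F u true
    simp only [Bool.not_true] at h3
    omega
  have hc := h.toPH.card_fac u false
  simp only [Bool.not_false] at hc
  have he := card_erase' hu
  have hF' := h.facet hg false
  have hlV' : l ∈ V.erase u := Finset.mem_erase.mpr ⟨hlu, hl⟩
  -- the merged leaf
  set A1 : Cube := update (α false) u none with hA1
  have hA1F : A1 ∈ fac F u false := PH.mem_fac_of (hα false).1 (by rw [(hα false).2.1]; simp)
  have hA1l : A1 l ≠ none := by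
    rw [hA1, update_of_ne hlu]
    exact hul _ (hα false).1 (by rw [(hα false).2.1]; simp)
  have hinA : ∀ x ∈ V, x ≠ u → dg2 F u true x = 1 → A1 x ≠ none := by
    intro x _ hxu hx
    have h5 : ∀ C ∈ F, C u = some true → C x ≠ none := dg2_eq_all (by omega)
    rw [hA1, update_of_ne hxu, ← hαx x hxu]
    exact h5 _ (hα true).1 (hα true).2.1
  have huniq' : ∀ x ∈ V.erase u, dg (fac F u false) x = 2 → x = l := by
    intro x hx hdx
    by_contra hne
    obtain ⟨hxu, hxV⟩ := Finset.mem_erase.mp hx
    have h1 := h.toPH.dg_fac (v := u) (u := x) false hxu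
    have h2 := dg2_le F u true x
    have h4 : dg F x ≠ 2 := fun e => hxu (huniq x hxV e)
    simp only [Bool.not_false] at h1
    have h5 := hinA x hxV hxu (by omega)
    exact hA1l (hF'.bots_apart hx hlV' hdx hdl' hne hA1F h5)
  obtain ⟨l', hl', hll', hdl3, hll, -⟩ := hF'.ce1 (by omega) (by omega) hlV' hdl' huniq'
  obtain ⟨hl'u, hl'V⟩ := Finset.mem_erase.mp hl'
  have hA1l' : A1 l' ≠ none := hll A1 hA1F hA1l
  have hα' : ∀ b, α b l' ≠ none := by
    intro b
    have : α false l' ≠ none := by rwa [hA1, update_of_ne hl'u] at hA1l'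
    cases b
    · exact this
    · rw [hαx l' hl'u]; exact this
  have hd2 : dg2 F u true l' = 1 := by
    have h1 := dg2_le F u true l'
    have h2 : 1 ≤ dg2 F u true l' :=
      Finset.card_pos.mpr ⟨α true, Finset.mem_filter.mpr ⟨(hα true).1, (hα true).2.1, hα' true⟩⟩
    omega
  have h1 := h.toPH.dg_fac (v := u) (u := l') false hl'u
  simp only [Bool.not_false] at h1
  refine ⟨l, hl, l', hl'V, hlu, hl'u, Ne.symm hll', hdl, by omega, hul, ?_⟩
  intro C hC hCu
  rcases ne_none_cases hCu true with e | e
  · rw [(hα _).2.2 C hC e]; exact hα' _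
  · rw [(hα _).2.2 C hC e]; exact hα' _

end Pool.Agent.Lib.MP_9abcb7_co
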