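import Pool.Agent.Lib.MP_9abcb7_co.FourMain

set_option autoImplicit false

open Function

namespace Pool.Agent.Lib.MP_9abcb7_co

open scoped Classical

/-- deficiency at most three, all degrees at least `k + 2`, five variables: there is a unit cube -/
theorem UH.three_unit {V : Finset ℕ} {F : Finset Cube} (h : UH V F) {k : ℕ} (hk : k ≤ 3)
    (hL : Lev 2 k V F) (hV : 5 ≤ V.card) (hn : NoUnit F) : False := by
  obtain ⟨w, hw, hcw⟩ := exists_good_uncovered h (by omega)
  obtain ⟨k0, h01, h02, h03⟩ := h.facet_lev hw hL false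
  obtain ⟨k1, h11, h12, h13⟩ := h.facet_lev hw hL true
  have h5 := dg_eq F w true
  have h6 := hL.2 w hw.1
  simp only [Bool.not_false, Bool.not_true] at *
  by_cases h0 : k0 = 1
  · have c : Ctx V F w false k :=
      ⟨h, hw, by rw [h02.1, h0], nounit_fac h.toPH hn hcw false, hL.2, by simp; omega, by omega⟩
    exact c.le_three hk hV
  · have c : Ctx V F w true k :=
      ⟨h, hw, by rw [h12.1]; omega, nounit_fac h.toPH hn hcw true, hL.2, by simp; omega, by omega⟩
    exact c.le_three hk hV

/-- structure of deficiency two -/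
theorem UH.p2 {V : Finset ℕ} {T : Finset Cube} (h : UH V T) (hk : T.card = V.card + 2)
    (hlev : ∀ v ∈ V, 3 ≤ dg T v) (hn : NoUnit T) (hV : 5 ≤ V.card) :
    ∃ r ∈ V, (∀ C ∈ T, C r ≠ none) ∧ ∃ y ∈ V, y ≠ r ∧ dg T y = 4 ∧
      (∀ b, (fac T r b).card = (occ (V.erase r) (fac T r b)).card + 1 ∧
        y ∈ occ (V.erase r) (fac T r b) ∧ dg (fac T r b) y = 2 ∧
        (∀ x ∈ occ (V.erase r) (fac T r b), dg (fac T r b) x = 2 → x = y) ∧
        (∀ x ∈ occ (V.erase r) (fac T r b), x ∈ occ (V.erase r) (fac T r (!b)) → x = y)) ∧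
      (occ (V.erase r) (fac T r false)).card + (occ (V.erase r) (fac T r true)).card = V.card := by
  -- a variable of degree three
  obtain ⟨u, hu, hdu⟩ : ∃ u ∈ V, dg T u = 3 := by
    by_contra hnot
    push Not at hnot
    refine h.three_unit (k := 2) (by omega) ⟨hk, ?_⟩ hV hn
    intro v hv
    have := hlev v hv
    have := hnot v hv
    omega
  have hg : Good V T u := h.good_of_min hu (fun v hv => by rw [hdu]; exact hlev v hv)
  obtain ⟨b, hb1, hb2⟩ : ∃ b, ct T u b = 1 ∧ ct T u (!b) = 2 := by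
    have h1 := h.ct_pos hu true
    have h2 := h.ct_pos hu false
    have h3 := dg_eq T u true
    simp only [Bool.not_true] at h3
    by_cases h4 : ct T u true = 1
    · exact ⟨true, h4, by simp only [Bool.not_true]; omega⟩
    · exact ⟨false, by omega, by simp only [Bool.not_false]; omega⟩
  have hT1 := h.facet hg b
  have hcard := h.toPH.card_fac u b
  have he := card_erase' hu
  obtain ⟨r, hr, hfull'⟩ := hT1.full _ (by omega) rfl (Finset.card_pos.mp (by omega))
  obtain ⟨hru, hrV⟩ := Finset.mem_erase.mp hr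
  obtain ⟨lam, hlam, hlamu, hlamq⟩ := ct_one hb1
  have hfull : ∀ C ∈ T, C r ≠ none := by
    intro C hC
    by_cases hCu : C u = some (!b)
    · have h1 := hfull' _ (PH.mem_fac_of (v := u) (b := b) hlam (by rw [hlamu]; exact some_ne_not b))
      rw [update_of_ne hru] at h1
      obtain ⟨c, hc⟩ := Option.ne_none_iff_exists'.mp h1
      have := h.toPH.flip_unique hC hCu (β := lam) (by simpa using hlamq) hru hc
      rw [this]; simp
    · have h1 := hfull' _ (PH.mem_fac_of (v := u) (b := b) hC hCu)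
      rwa [update_of_ne hru] at h1
  obtain ⟨h1, h2, h3⟩ := h.sides hfull
  have e0 := (h1 false).lt_card
  have e1 := (h1 true).lt_card
  have e2 := Finset.card_union_add_card_inter (occ (V.erase r) (fac T r false))
    (occ (V.erase r) (fac T r true))
  rw [h2] at e2
  have e3 := card_erase' hrV
  have hbot : ∀ b, ∀ x ∈ occ (V.erase r) (fac T r b), dg (fac T r b) x = 2 →
      x ∈ occ (V.erase r) (fac T r (!b)) := by
    intro b x hx hdx
    by_contra hnot
    have hx' := Finset.mem_erase.mp (Finset.mem_filter.mp hx).1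
    have := side_dg h hfull hx'.1 hnot
    have := hlev x hx'.2
    omega
  have hinter : 1 ≤ (occ (V.erase r) (fac T r false) ∩ occ (V.erase r) (fac T r true)).card := by
    by_contra hz
    by_cases hf : (fac T r false).card = (occ (V.erase r) (fac T r false)).card + 1
    · obtain ⟨x, hx, hdx⟩ := (h1 false).exists_two hf (side_nonempty h hn hfull false)
      have hx2 := hbot false x hx hdx
      exact hz (Finset.card_pos.mpr ⟨x, Finset.mem_inter.mpr ⟨hx, hx2⟩⟩)
    · obtain ⟨x, hx, hdx⟩ := (h1 true).exists_two (by omega) (side_nonempty h hn hfull true)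
      have hx2 := hbot true x hx hdx
      exact hz (Finset.card_pos.mpr ⟨x, Finset.mem_inter.mpr ⟨hx2, hx⟩⟩)
  have hc1 : (occ (V.erase r) (fac T r false) ∩ occ (V.erase r) (fac T r true)).card = 1 := by omega
  have hcb : ∀ b, (fac T r b).card = (occ (V.erase r) (fac T r b)).card + 1 := by
    intro b; cases b <;> omega
  obtain ⟨y, hy⟩ := Finset.card_eq_one.mp hc1
  have hy' : y ∈ occ (V.erase r) (fac T r false) ∩ occ (V.erase r) (fac T r true) := by
    rw [hy]; simp
  obtain ⟨hy0, hy1⟩ := Finset.mem_inter.mp hy'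
  have hyb : ∀ b, y ∈ occ (V.erase r) (fac T r b) := by intro b; cases b <;> assumption
  have hin : ∀ b, ∀ x ∈ occ (V.erase r) (fac T r b), x ∈ occ (V.erase r) (fac T r (!b)) → x = y := by
    intro b x hx hx'
    have : x ∈ occ (V.erase r) (fac T r false) ∩ occ (V.erase r) (fac T r true) := by
      cases b
      · exact Finset.mem_inter.mpr ⟨hx, hx'⟩
      · exact Finset.mem_inter.mpr ⟨hx', hx⟩
    rw [hy] at this
    simpa using this
  have hd2 : ∀ b, dg (fac T r b) y = 2 := by
    intro b
    obtain ⟨x, hx, hdx⟩ := (h1 b).exists_two (hcb b) ⟨y, hyb b⟩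
    rw [← hin b x hx (hbot b x hx hdx)]
    exact hdx
  have hyr := Finset.mem_erase.mp (Finset.mem_filter.mp hy0).1
  refine ⟨r, hrV, hfull, y, hyr.2, hyr.1, ?_, ?_, by omega⟩
  · rw [h.dg_sides hfull hyr.1, hd2, hd2]
  · intro b
    exact ⟨hcb b, hyb b, hd2 b, fun x hx hdx => hin b x hx (hbot b x hx hdx), hin b⟩

/-- a side with at least two variables, in deficiency two -/
structure SideL (V : Finset ℕ) (T : Finset Cube) (r y : ℕ) (b : Bool) (l : ℕ) (l0 : Bool) : Prop where
  hl : l ∈ V
  lr : l ≠ r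
  ly : l ≠ y
  dl : dg T l = 3
  val : ∀ C ∈ T, C l ≠ none → C r = some b
  yl : ∀ C ∈ T, C r = some b → C y ≠ none → C l = some l0
  yn : ∀ C ∈ T, C y = none → C l ≠ none → C l = some (!l0)
  un : ∀ C ∈ T, ∀ C' ∈ T, C l = some (!l0) → C' l = some (!l0) → C = C'

theorem fac_inj' {w : ℕ} {o : Option Bool} {C C' : Cube}
    (hw : C w = o) (hw' : C' w = o) (h : update C w none = update C' w none) : C = C' := by
  funext y
  by_cases hy : y = w
  · subst hy; rw [hw, hw']
  · have := congrFun h y
    rwa [update_of_ne hy, update_of_ne hy] at this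

theorem UH.sideL {V : Finset ℕ} {T : Finset Cube} (h : UH V T) {r : ℕ}
    (hfull : ∀ C ∈ T, C r ≠ none) {y : ℕ} (hyr : y ≠ r) {b : Bool}
    (hy : y ∈ occ (V.erase r) (fac T r b)) (hdy : dg (fac T r b) y = 2)
    (hin : ∀ x ∈ occ (V.erase r) (fac T r b), x ∈ occ (V.erase r) (fac T r (!b)) → x = y)
    {l : ℕ} (hl : l ∈ occ (V.erase r) (fac T r b)) (hly : l ≠ y) (hdl : dg (fac T r b) l = 3)
    (hyl : ∀ C ∈ fac T r b, C y ≠ none → C l ≠ none) : ∃ l0, SideL V T r y b l l0 := by
  obtain ⟨h1, h2, h3⟩ := h.sides hfull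
  obtain ⟨l0, v1, v2, v3⟩ := near_two (h1 b) hy hl hly hdy hdl hyl
  have hl' := Finset.mem_erase.mp (Finset.mem_filter.mp hl).1
  have hnot : l ∉ occ (V.erase r) (fac T r (!b)) := fun hx => hly (hin l hl hx)
  have hval : ∀ C ∈ T, C l ≠ none → C r = some b := fun C hC hCl =>
    side_val hfull (Finset.mem_filter.mp hl).1 hnot hC hCl
  refine ⟨l0, hl'.2, hl'.1, hly, by rw [side_dg h hfull hl'.1 hnot]; exact hdl, hval, ?_, ?_, ?_⟩
  · intro C hC hCr hCy
    have := v1 _ (PH.mem_fac_of (v := r) (b := b) hC (by rw [hCr]; exact some_ne_not b))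
      (by rw [update_of_ne hyr]; exact hCy)
    rwa [update_of_ne hl'.1] at this
  · intro C hC hCy hCl
    have hCr := hval C hC hCl
    have := v2 _ (PH.mem_fac_of (v := r) (b := b) hC (by rw [hCr]; exact some_ne_not b))
      (by rw [update_of_ne hyr]; exact hCy) (by rw [update_of_ne hl'.1]; exact hCl)
    rwa [update_of_ne hl'.1] at this
  · intro C hC C' hC' e1 e2
    have hCr := hval C hC (by rw [e1]; simp)
    have hCr' := hval C' hC' (by rw [e2]; simp)
    have := v3 _ (PH.mem_fac_of (v := r) (b := b) hC (by rw [hCr]; exact some_ne_not b)) _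
      (PH.mem_fac_of (v := r) (b := b) hC' (by rw [hCr']; exact some_ne_not b))
      (by rw [update_of_ne hl'.1]; exact e1) (by rw [update_of_ne hl'.1]; exact e2)
    exact fac_inj' hCr hCr' this

theorem UH.side_uniq {V : Finset ℕ} {T : Finset Cube} (h : UH V T) {r : ℕ}
    (hfull : ∀ C ∈ T, C r ≠ none) {y : ℕ} (hyr : y ≠ r) {b : Bool}
    (hy : y ∈ occ (V.erase r) (fac T r b)) (hdy : dg (fac T r b) y = 2) :
    ∀ C ∈ T, ∀ C' ∈ T, C r = some b → C' r = some b → ∀ e, C y = some e → C' y = some e →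
      C = C' := by
  intro C hC C' hC' hr hr' e h1 h2
  obtain ⟨α, hα, -⟩ := ((h.sides hfull).1 b).bot hy hdy
  have e1 := (hα e).2.2 _ (PH.mem_fac_of (v := r) (b := b) hC (by rw [hr]; exact some_ne_not b))
    (by rw [update_of_ne hyr]; exact h1)
  have e2 := (hα e).2.2 _ (PH.mem_fac_of (v := r) (b := b) hC' (by rw [hr']; exact some_ne_not b))
    (by rw [update_of_ne hyr]; exact h2)
  exact fac_inj' hr hr' (e1.trans e2.symm)

/-- structure with one trivial side -/
structure St (V : Finset ℕ) (T : Finset Cube) (r y : ℕ) (b : Bool) (l l' : ℕ) (l0 m0 : Bool) :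
    Prop where
  hr : r ∈ V
  full : ∀ C ∈ T, C r ≠ none
  hy : y ∈ V
  yr : y ≠ r
  dy : dg T y = 4
  kap : ∀ j, pr r b y j ∈ T
  S : SideL V T r y (!b) l l0
  hl' : l' ∈ V
  lr' : l' ≠ r
  ly' : l' ≠ y
  ll : l ≠ l'
  dl' : dg T l' = 4
  val' : ∀ C ∈ T, C l' ≠ none → C r = some (!b)
  yl' : ∀ C ∈ T, C r = some (!b) → C y ≠ none → C l' = some m0
  uy : ∀ C ∈ T, ∀ C' ∈ T, C r = some (!b) → C' r = some (!b) → ∀ e, C y = some e →
    C' y = some e → C = C'
  kb : ∀ C ∈ T, C r = some b → ∃ j, C = pr r b y j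

/-- the two possible structures in deficiency two -/
theorem UH.p2' {V : Finset ℕ} {T : Finset Cube} (h : UH V T) (hk : T.card = V.card + 2)
    (hlev : ∀ v ∈ V, 3 ≤ dg T v) (hn : NoUnit T) (hV : 5 ≤ V.card) :
    (∃ r y b l l' l0 m0, St V T r y b l l' l0 m0) ∨
    (∃ r y l m l0 m0, r ∈ V ∧ y ∈ V ∧ y ≠ r ∧ dg T y = 4 ∧ SideL V T r y false l l0 ∧
      SideL V T r y true m m0 ∧
      ∀ b, ∀ C ∈ T, ∀ C' ∈ T, C r = some b → C' r = some b → ∀ e, C y = some e →
        C' y = some e → C = C') := by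
  obtain ⟨r, hr, hfull, y, hy, hyr, hdy, hb, hsum⟩ := h.p2 hk hlev hn hV
  obtain ⟨h1, h2, h3⟩ := h.sides hfull
  have huq : ∀ b, ∀ C ∈ T, ∀ C' ∈ T, C r = some b → C' r = some b → ∀ e, C y = some e →
      C' y = some e → C = C' := fun b => h.side_uniq hfull hyr (hb b).2.1 (hb b).2.2.1
  have one : ∀ b, (occ (V.erase r) (fac T r b)).card = 1 →
      3 ≤ (occ (V.erase r) (fac T r (!b))).card → ∃ r y b l l' l0 m0, St V T r y b l l' l0 m0 := by
    intro b hb1 hb3
    obtain ⟨hc, hyo, hdy2, huniq, hin⟩ := hb (!b)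
    obtain ⟨l, hl, l', hl', hly, hly', hll, hdl, hdl', hul, hul'⟩ :=
      (h1 (!b)).ce2 hc hb3 hyo hdy2 huniq
    obtain ⟨l0, S⟩ := h.sideL hfull hyr hyo hdy2 hin hl hly hdl hul
    have hl'' := Finset.mem_erase.mp (Finset.mem_filter.mp hl').1
    have hnot : l' ∉ occ (V.erase r) (fac T r (!!b)) := fun hx => hly' (hin l' hl' hx)
    obtain ⟨α, hα, hαx⟩ := (h1 (!b)).bot hyo hdy2
    obtain ⟨m0, hm0⟩ := Option.ne_none_iff_exists'.mp
      (hul' _ (hα false).1 (by rw [(hα false).2.1]; simp))
    have hkap : ∀ j, pr r b y j ∈ T := by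
      intro j
      obtain ⟨C, hC, hCy⟩ := (h1 b).both (hb b).2.1 j
      obtain ⟨C', hC', hCr, rfl⟩ := PH.mem_fac.mp hC
      rw [update_of_ne hyr] at hCy
      have hCr' : C' r = some b := by
        rcases ne_none_cases (hfull C' hC') b with e | e
        · exact e
        · exact absurd e hCr
      have : C' = pr r b y j := by
        funext x
        by_cases hxr : x = r
        · subst hxr; rw [hCr', pr_fst b j (Ne.symm hyr)]
        · by_cases hxy : x = y
          · subst hxy; rw [hCy, pr_snd]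
          · rw [pr_ne b j hxr hxy]
            by_contra hne
            have h5 : x ∈ occ (V.erase r) (fac T r b) := by
              refine Finset.mem_filter.mpr ⟨Finset.mem_erase.mpr ⟨hxr, h.supp C' hC' x hne⟩, _, hC, ?_⟩
              rw [update_of_ne hxr]; exact hne
            obtain ⟨z, hz⟩ := Finset.card_eq_one.mp hb1
            rw [hz] at h5
            have h6 := (hb b).2.1
            rw [hz] at h6
            simp only [Finset.mem_singleton] at h5 h6
            exact hxy (h5.trans h6.symm)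
      exact this ▸ hC'
    refine ⟨r, y, b, l, l', l0, m0, hr, hfull, hy, hyr, hdy, hkap, S, hl''.2, hl''.1, hly', hll, ?_,
      ?_, ?_, huq (!b), ?_⟩
    · rw [side_dg h hfull hl''.1 hnot]; exact hdl'
    · intro C hC hCl
      exact side_val hfull (Finset.mem_filter.mp hl').1 hnot hC hCl
    · intro C hC hCr hCy
      obtain ⟨e, he⟩ := Option.ne_none_iff_exists'.mp hCy
      have e1 := (hα e).2.2 _ (PH.mem_fac_of (v := r) (b := !b) hC (by rw [hCr]; simp))
        (by rw [update_of_ne hyr]; exact he)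
      have e2 := congrFun e1 l'
      rw [update_of_ne hl''.1] at e2
      rw [e2]
      cases e
      · exact hm0
      · rw [hαx l' hly']; exact hm0
    · intro C hC hCr
      by_contra hnot'
      push Not at hnot'
      have clash : ∀ j, C y = some (!j) := by
        intro j
        obtain ⟨v, c, hv1, hv2⟩ := h.hit _ (hkap j) _ hC (Ne.symm (hnot' j))
        by_cases hvr : v = r
        · subst hvr
          rw [pr_fst b j (Ne.symm hyr)] at hv1
          cases hv1
          rw [hCr] at hv2
          exact absurd hv2 (some_ne_not b)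
        · by_cases hvy : v = y
          · subst hvy
            rw [pr_snd] at hv1
            cases hv1
            exact hv2
          · rw [pr_ne b j hvr hvy] at hv1
            cases hv1
      have := clash true
      rw [clash false] at this
      cases this
  have p0 : 1 ≤ (occ (V.erase r) (fac T r false)).card := Finset.card_pos.mpr ⟨y, (hb false).2.1⟩
  have p1 : 1 ≤ (occ (V.erase r) (fac T r true)).card := Finset.card_pos.mpr ⟨y, (hb true).2.1⟩
  by_cases c0 : (occ (V.erase r) (fac T r false)).card = 1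
  · exact Or.inl (one false c0 (by simp only [Bool.not_false]; omega))
  · by_cases c1 : (occ (V.erase r) (fac T r true)).card = 1
    · exact Or.inl (one true c1 (by simp only [Bool.not_true]; omega))
    · right
      obtain ⟨l, hl, hly, hdl, hul, -⟩ := (h1 false).ce1 (hb false).1 (by omega) (hb false).2.1
        (hb false).2.2.1 (hb false).2.2.2.1
      obtain ⟨l0, S⟩ := h.sideL hfull hyr (hb false).2.1 (hb false).2.2.1 (hb false).2.2.2.2
        hl hly hdl hul
      obtain ⟨m, hm, hmy, hdm, hum, -⟩ := (h1 true).ce1 (hb true).1 (by omega) (hb true).2.1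
        (hb true).2.2.1 (hb true).2.2.2.1
      obtain ⟨m0, S'⟩ := h.sideL hfull hyr (hb true).2.1 (hb true).2.2.1 (hb true).2.2.2.2
        hm hmy hdm hum
      exact ⟨r, y, l, m, l0, m0, hr, hy, hyr, hdy, S, S', huq⟩

end Pool.Agent.Lib.MP_9abcb7_co
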