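import Pool.Agent.Lib.MP_9abcb7_co.TwoTwo

set_option autoImplicit false

open Function

namespace Pool.Agent.Lib.MP_9abcb7_co

open scoped Classical

namespace Ctx2

variable {V : Finset ℕ} {F : Finset Cube} {w : ℕ}

theorem lackA (c : Ctx2 V F w) (a : Bool) {x : ℕ} (hx : x ∈ V.erase w)
    (hd : dg (fac F w (!a)) x = 4) {D E : Cube} (hD : D ∈ F) (hDw : D w = some a) (hDx : D x = none)
    (hE : E ∈ F) (hEw : E w = some a) (hEx : E x = none) : D = E := by
  have := c.lack' a hx
  exact cn_le_one (show cn F (fun D => D w = some a ∧ D x = none) ≤ 1 by omega)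
    hD ⟨hDw, hDx⟩ hE ⟨hEw, hEx⟩

theorem allA (c : Ctx2 V F w) (a : Bool) {x : ℕ} (hx : x ∈ V.erase w)
    (hd : dg (fac F w (!a)) x = 3) : ∀ D ∈ F, D w = some a → D x ≠ none := by
  intro D hD hDw
  exact c.allB (!a) hx hd D hD (by rw [Bool.not_not]; exact hDw)

/-- the trivial side does not occur among the cubes containing `w` -/
theorem no_kappa (c : Ctx2 V F w) {a : Bool} {r y l l' : ℕ} {b l0 m0 : Bool}
    (S : St (V.erase w) (fac F w a) r y b l l' l0 m0)
    {r1 y1 l1 l1' : ℕ} {b1 l01 m01 : Bool}
    (S' : St (V.erase w) (fac F w (!a)) r1 y1 b1 l1 l1' l01 m01) :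
    ∀ C ∈ F, C w = some a → C r ≠ some b := by
  have hrw := (Finset.mem_erase.mp S.hr).1
  have hyw := (Finset.mem_erase.mp S.hy).1
  have hlw := (Finset.mem_erase.mp S.S.hl).1
  have hlw' := (Finset.mem_erase.mp S.hl').1
  -- cubes on the trivial side
  have kshape : ∀ C ∈ F, C w = some a → C r = some b →
      (∃ e, C y = some e) ∧ ∀ x, x ≠ w → x ≠ r → x ≠ y → C x = none := by
    intro C hC hCw hCr
    obtain ⟨j, hj⟩ := S.kb _ (c.mem hC hCw) (by rw [update_of_ne hrw]; exact hCr)
    constructor
    · refine ⟨j, ?_⟩
      have := congrFun hj y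
      rwa [update_of_ne hyw, pr_snd] at this
    · intro x hxw hxr hxy
      have := congrFun hj x
      rwa [update_of_ne hxw, pr_ne b j hxr hxy] at this
  have full : ∀ C ∈ F, C w = some a → C r ≠ none := by
    intro C hC hCw
    have := S.full _ (c.mem hC hCw)
    rwa [update_of_ne hrw] at this
  intro C0 hC0 hC0w hC0r
  obtain ⟨⟨ε, hε⟩, hC0x⟩ := kshape C0 hC0 hC0w hC0r
  have hA1 := c.allA a S'.S.hl S'.S.dl
  have hl1w := (Finset.mem_erase.mp S'.S.hl).1
  have hl1 : l1 = y := by
    by_contra hne
    have hl1r : l1 = r := by
      by_contra hne'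
      exact hA1 C0 hC0 hC0w (hC0x l1 hl1w hne' hne)
    have h1 : dg (fac F w a) r = (fac F w a).card := by
      unfold dg
      rw [Finset.filter_true_of_mem]
      exact S.full
    have h2 := c.h.toPH.dg_fac (v := w) (u := r) a hrw
    have h3 := c.h.toPH.dg_fac (v := w) (u := l1) (!a) hl1w
    have h4 := S'.S.dl
    have h5 := dg2_le F w (!!a) l1
    have h6 := c.c3 (!!a)
    have h7 := c.hT a
    have h8 := card_erase' c.good.1
    have h9 := c.hV
    rw [hl1r] at h3 h4 h5
    omega
  -- every cube of this side contains `y`
  have hAy : ∀ C ∈ F, C w = some a → C y ≠ none := by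
    intro C hC hCw
    rw [← hl1]
    exact hA1 C hC hCw
  by_cases hex : ∃ C ∈ F, C w = some a ∧ C r = some b ∧ C ≠ C0
  · obtain ⟨C1, hC1, hC1w, hC1r, hne⟩ := hex
    obtain ⟨-, hC1x⟩ := kshape C1 hC1 hC1w hC1r
    have hin : ∀ x ∈ V.erase w, dg (fac F w (!a)) x = 4 → x ≠ y → x = r := by
      intro x hx hdx hxy
      by_contra hxr
      have hxw := (Finset.mem_erase.mp hx).1
      exact hne (c.lackA a hx hdx hC1 hC1w (hC1x x hxw hxr hxy) hC0 hC0w (hC0x x hxw hxr hxy))
    have e1 : l1' = r := hin l1' S'.hl' S'.dl' (by rw [← hl1]; exact Ne.symm S'.ll)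
    have e2 : y1 = r := hin y1 S'.hy S'.dy (by rw [← hl1]; exact Ne.symm S'.S.ly)
    exact S'.ly' (e1.trans e2.symm)
  · push Not at hex
    -- two other cubes
    obtain ⟨C1, C2, ⟨hC1, w1⟩, ⟨hC2, w2⟩, h12, h10, h20⟩ : ∃ C1 C2, (C1 ∈ F ∧ C1 w = some a) ∧
        (C2 ∈ F ∧ C2 w = some a) ∧ C1 ≠ C2 ∧ C1 ≠ C0 ∧ C2 ≠ C0 := by
      obtain ⟨X, Y, Z, hX, hY, hZ, hXY, hXZ, hYZ⟩ := c.threeA a
      by_cases h1 : X = C0
      · exact ⟨Y, Z, hY, hZ, hYZ, by rintro rfl; exact hXY h1, by rintro rfl; exact hXZ h1⟩
      · by_cases h2 : Y = C0
        · exact ⟨X, Z, hX, hZ, hXZ, h1, by rintro rfl; exact hYZ h2⟩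
        · exact ⟨X, Y, hX, hY, hXY, h1, h2⟩
    have oth : ∀ C ∈ F, C w = some a → C ≠ C0 → C r = some (!b) ∧ C l = some l0 ∧ C l' = some m0 := by
      intro C hC hCw hne
      have h1 : C r = some (!b) := by
        rcases ne_none_cases (full C hC hCw) b with h | h
        · exact absurd (hex C hC hCw h) hne
        · exact h
      have hm := c.mem hC hCw
      have h2 := S.S.yl _ hm (by rw [update_of_ne hrw]; exact h1)
        (by rw [update_of_ne hyw]; exact hAy C hC hCw)
      have h3 := S.yl' _ hm (by rw [update_of_ne hrw]; exact h1)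
        (by rw [update_of_ne hyw]; exact hAy C hC hCw)
      rw [update_of_ne hlw] at h2
      rw [update_of_ne hlw'] at h3
      exact ⟨h1, h2, h3⟩
    obtain ⟨r1', l1v, m1v⟩ := oth C1 hC1 w1 h10
    obtain ⟨r2', l2v, m2v⟩ := oth C2 hC2 w2 h20
    obtain ⟨e, he⟩ := Option.ne_none_iff_exists'.mp (hAy C1 hC1 w1)
    have he2 : C2 y = some (!e) := by
      rcases ne_none_cases (hAy C2 hC2 w2) e with h | h
      · exfalso
        exact h12 (fac_inj' w1 w2 (S.uy _ (c.mem hC1 w1) _ (c.mem hC2 w2)
          (by rw [update_of_ne hrw]; exact r1') (by rw [update_of_ne hrw]; exact r2') e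
          (by rw [update_of_ne hyw]; exact he) (by rw [update_of_ne hyw]; exact h)))
      · exact h
    have hC0l : C0 l = none := hC0x l hlw S.S.lr S.S.ly
    have hC0l' : C0 l' = none := hC0x l' hlw' S.lr' S.ly'
    have hBl := c.allB a S.S.hl S.S.dl
    -- a cube with the other value at `l`
    obtain ⟨Db, hDb, hDbw, hDbm⟩ := c.h.toPH.meet hC0 hC0w (fun x => if x = l then !l0 else false)
    have hDbl : Db l = some (!l0) := by
      rcases ne_none_cases (hBl Db hDb hDbw) l0 with h | h
      · exfalso
        have := hDbm l hlw _ h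
        rw [hC0l] at this
        simp at this
      · exact h
    -- uniqueness
    have U : ∀ X ∈ F, ∀ X' ∈ F, X w = some (!a) → X' w = some (!a) → X l = some l0 →
        X' l = some l0 → X l' ≠ some (!m0) → X' l' ≠ some (!m0) → X = X' := by
      intro X hX X' hX' wX wX' lX lX' mX mX'
      by_contra hXX
      have hXb : X ≠ Db := Ctx.ne_of_val lX hDbl
      have hXb' : X' ≠ Db := Ctx.ne_of_val lX' hDbl
      have hall : ∀ D ∈ F, D w = some (!a) → D = X ∨ D = X' ∨ D = Db := by
        intro D hD hDw
        by_contra hnot
        push Not at hnot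
        exact c.not_four (!a) ⟨hD, hDw⟩ ⟨hX, wX⟩ ⟨hX', wX'⟩ ⟨hDb, hDbw⟩ hnot.1 hnot.2.1 hnot.2.2
          hXX hXb hXb'
      -- `Db` does not contain `l'`
      have hDb' : Db l' = none := by
        apply c.h.toPH.only hC0 hC0w hlw' hC0l' (fun x => if x = l then !l0 else false)
        intro cc D hD hDw hDm
        rcases hall D hD hDw with h | h | h
        · exfalso
          have := hDm l hlw l0 (by rw [h]; exact lX)
          rw [hC0l] at this
          simp [update_of_ne S.ll] at this
        · exfalso
          have := hDm l hlw l0 (by rw [h]; exact lX')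
          rw [hC0l] at this
          simp [update_of_ne S.ll] at this
        · exact h
      have hXm : X l' = some m0 := by
        rcases opt_cases (X l') m0 with h | h | h
        · exact absurd (c.lackB a S.hl' S.dl' hX wX h hDb hDbw hDb') hXb
        · exact h
        · exact absurd h mX
      have hXm' : X' l' = some m0 := by
        rcases opt_cases (X' l') m0 with h | h | h
        · exact absurd (c.lackB a S.hl' S.dl' hX' wX' h hDb hDbw hDb') hXb'
        · exact h
        · exact absurd h mX'
      -- the part of `C0` with the other value at `l'`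
      obtain ⟨E, hE, hEw, hEm⟩ := c.h.toPH.meet hC0 hC0w
        (fun x => if x = l then l0 else if x = l' then !m0 else false)
      rcases hall E hE hEw with h | h | h
      · have := hEm l' hlw' m0 (by rw [h]; exact hXm)
        rw [hC0l'] at this
        simp [Ne.symm S.ll] at this
      · have := hEm l' hlw' m0 (by rw [h]; exact hXm')
        rw [hC0l'] at this
        simp [Ne.symm S.ll] at this
      · have := hEm l hlw (!l0) (by rw [h]; exact hDbl)
        rw [hC0l] at this
        simp at this
    -- three cubes meeting `C0`, `C1`, `C2`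
    obtain ⟨D0, hD0, hD0w, hD0m⟩ := c.h.toPH.meet hC0 hC0w
      (fun x => if x = l then l0 else if x = l' then m0 else false)
    have hD0l : D0 l = some l0 := by
      rcases ne_none_cases (hBl D0 hD0 hD0w) l0 with h | h
      · exact h
      · exfalso
        have := hD0m l hlw _ h
        rw [hC0l] at this
        simp at this
    have hD0l' : D0 l' ≠ some (!m0) := by
      intro h
      have := hD0m l' hlw' _ h
      rw [hC0l'] at this
      simp [Ne.symm S.ll] at this
    have meetC : ∀ C ∈ F, C w = some a → C l = some l0 → C l' = some m0 →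
        ∀ x, x ≠ w → ∀ v, C x = some v → D0 x ≠ some (!v) := by
      intro C hC hCw hCl hCl' x hx v hv hD0x
      obtain ⟨D, hD, hDw, hDm⟩ := c.h.toPH.meet hC hCw (fun _ => false)
      have hDl : D l = some l0 := by
        rcases ne_none_cases (hBl D hD hDw) l0 with h | h
        · exact h
        · exfalso
          have := hDm l hlw _ h
          rw [hCl] at this
          simp at this
      have hDl' : D l' ≠ some (!m0) := by
        intro h
        have := hDm l' hlw' _ h
        rw [hCl'] at this
        simp at this
      have heq := U D hD D0 hD0 hDw hD0w hDl hD0l hDl' hD0l'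
      rw [← heq] at hD0x
      have := hDm x hx _ hD0x
      rw [hv] at this
      simp at this
    have hD0r : D0 r = none := by
      rcases opt_cases (D0 r) b with h | h | h
      · exact h
      · exact absurd (by simpa using h) (meetC C1 hC1 w1 l1v m1v r hrw _ r1')
      · exfalso
        have := hD0m r hrw _ h
        rw [hC0r] at this
        simp at this
    have hD0y : D0 y = none := by
      rcases opt_cases (D0 y) e with h | h | h
      · exact h
      · exact absurd (by simpa using h) (meetC C2 hC2 w2 l2v m2v y hyw _ he2)
      · exact absurd h (meetC C1 hC1 w1 l1v m1v y hyw _ he)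
    -- go back
    obtain ⟨G, hG, hGw, hGm⟩ := c.h.toPH.meet hD0 hD0w
      (fun x => if x = r then b else if x = y then !ε else false)
    rw [Bool.not_not] at hGw
    have hGr : G r = some b := by
      rcases ne_none_cases (full G hG hGw) b with h | h
      · exact h
      · exfalso
        have := hGm r hrw _ h
        rw [hD0r] at this
        simp at this
    have hG0 : G = C0 := hex G hG hGw hGr
    have := hGm y hyw ε (by rw [hG0]; exact hε)
    rw [hD0y] at this
    simp [S.yr] at this

theorem kap_mem (c : Ctx2 V F w) {a : Bool} {r y l l' : ℕ} {b l0 m0 : Bool}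
    (S : St (V.erase w) (fac F w a) r y b l l' l0 m0)
    (hno : ∀ C ∈ F, C w = some a → C r ≠ some b) (j : Bool) : pr r b y j ∈ F := by
  have hrw := (Finset.mem_erase.mp S.hr).1
  have hyw := (Finset.mem_erase.mp S.hy).1
  have := c.h
  obtain ⟨C, hC, hCw, he⟩ := PH.mem_fac.mp (S.kap j)
  rcases opt_cases (C w) a with h | h | h
  · have : C = pr r b y j := by
      funext x
      by_cases hx : x = w
      · subst hx
        rw [h, pr_ne b j (Ne.symm hrw) (Ne.symm hyw)]
      · have := congrFun he x
        rwa [update_of_ne hx] at this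
    exact this ▸ hC
  · exfalso
    apply hno C hC h
    have := congrFun he r
    rwa [update_of_ne hrw, pr_fst b j (Ne.symm S.yr)] at this
  · exact absurd h hCw

theorem concl (c : Ctx2 V F w) : Concl V F := by
  have hVw := card_erase' c.good.1
  have hV := c.hV
  have hst : ∀ a, ∃ r y b l l' l0 m0, St (V.erase w) (fac F w a) r y b l l' l0 m0 := by
    intro a
    rcases (c.T a).p2' (c.hT a) (fun v hv => c.dgT a hv) (c.nu a) (by omega) with h | h
    · exact h
    · exfalso
      obtain ⟨r, y, l, m, l0, m0, hr, hy, hyr, hdy, S, S', uq⟩ := h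
      exact c.no_two_sides hr hy hdy S S' uq
  obtain ⟨r, y, b, l, l', l0, m0, S⟩ := hst false
  obtain ⟨r1, y1, b1, l1, l1', l01, m01, S'⟩ := hst true
  have n0 := c.no_kappa S (by simpa using S')
  have n1 := c.no_kappa S' (by simpa using S)
  have k0 := c.kap_mem S n0
  have k1 := c.kap_mem S' n1
  have hrw := (Finset.mem_erase.mp S.hr).1
  have hyw := (Finset.mem_erase.mp S.hy).1
  have hlw := (Finset.mem_erase.mp S.S.hl).1
  have hrw1 := (Finset.mem_erase.mp S'.hr).1
  have hyw1 := (Finset.mem_erase.mp S'.hy).1
  have hlw1 := (Finset.mem_erase.mp S'.S.hl).1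
  have hdw : dg F w = 6 := by
    have h1 := dg_eq F w true
    have h2 := c.c3 true
    have h3 := c.c3 (!true)
    omega
  have hdl : dg F l = 6 := by
    have h1 := c.h.toPH.dg_fac (v := w) (u := l) false hlw
    have h2 := dg2_le F w (!false) l
    have h3 := c.c3 (!false)
    have h4 := S.S.dl
    have h5 := c.lev l (Finset.mem_erase.mp S.S.hl).2
    omega
  have hdl1 : dg F l1 = 6 := by
    have h1 := c.h.toPH.dg_fac (v := w) (u := l1) true hlw1
    have h2 := dg2_le F w (!true) l1
    have h3 := c.c3 (!true)
    have h4 := S'.S.dl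
    have h5 := c.lev l1 (Finset.mem_erase.mp S'.S.hl).2
    omega
  by_cases hll : l = l1
  · -- third variable is `y`
    subst hll
    have hmem1 : ∀ j, pr r b y j ∈ fac F w true := by
      intro j
      have h1 : pr r b y j w = none := pr_ne b j (Ne.symm hrw) (Ne.symm hyw)
      have h2 : update (pr r b y j) w none ∈ fac F w true :=
        PH.mem_fac_of (k0 j) (by rw [h1]; simp)
      rwa [show update (pr r b y j) w none = pr r b y j from by
        rw [← h1]; exact update_eq_self _ _] at h2
    have hmem0 : ∀ j, pr r1 b1 y1 j ∈ fac F w false := by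
      intro j
      have h1 : pr r1 b1 y1 j w = none := pr_ne b1 j (Ne.symm hrw1) (Ne.symm hyw1)
      have h2 : update (pr r1 b1 y1 j) w none ∈ fac F w false :=
        PH.mem_fac_of (k1 j) (by rw [h1]; simp)
      rwa [show update (pr r1 b1 y1 j) w none = pr r1 b1 y1 j from by
        rw [← h1]; exact update_eq_self _ _] at h2
    have hyy : y = y1 := by
      have hr1 : r1 = r ∨ r1 = y := by
        by_contra hnot
        push Not at hnot
        exact S'.full _ (hmem1 true) (pr_ne b true hnot.1 hnot.2)
      rcases hr1 with hr1 | hr1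
      · subst hr1
        by_cases hbb : b = b1
        · subst hbb
          obtain ⟨j', hj'⟩ := S'.kb _ (hmem1 true) (pr_fst b true (Ne.symm S.yr))
          by_contra hne
          have := congrFun hj' y
          rw [pr_snd, pr_ne b j' S.yr hne] at this
          cases this
        · exfalso
          obtain ⟨C, hC, hCl⟩ := (c.T true).nd l S'.S.hl
          have hCr : C r1 = some b := by
            have := S'.S.val C hC hCl
            rw [this]
            cases b <;> cases b1 <;> simp_all
          have hne : ∀ j, C ≠ pr r1 b y j := by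
            rintro j rfl
            exact hCl (pr_ne b j S.S.lr S.S.ly)
          have clash : ∀ j, C y = some (!j) := by
            intro j
            obtain ⟨v, cc, hv1, hv2⟩ := (c.T true).hit _ (hmem1 j) _ hC (Ne.symm (hne j))
            by_cases hvr : v = r1
            · subst hvr
              rw [pr_fst b j (Ne.symm S.yr)] at hv1
              cases hv1
              rw [hCr] at hv2
              exact absurd hv2 (some_ne_not b)
            · by_cases hvy : v = y
              · subst hvy
                rw [pr_snd] at hv1
                cases hv1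
                exact hv2
              · rw [pr_ne b j hvr hvy] at hv1
                cases hv1
          have := clash true
          rw [clash false] at this
          cases this
      · exfalso
        subst hr1
        obtain ⟨j', hj'⟩ := S'.kb _ (hmem1 b1) (pr_snd r b r1 b1)
        have hy1 : y1 = r := by
          by_contra hne
          have := congrFun hj' y1
          rw [pr_snd, pr_ne b b1 hne S'.yr] at this
          cases this
        subst hy1
        have hm := hmem0 (!b)
        have h1 : pr r1 b1 y1 (!b) y1 = some (!b) := pr_snd _ _ _ _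
        have h2 : pr r1 b1 y1 (!b) r1 ≠ none := by
          rw [pr_fst b1 (!b) (Ne.symm S'.yr)]; simp
        have h3 := S.S.yl _ hm h1 h2
        rw [pr_ne b1 (!b) S.S.ly S.S.lr] at h3
        cases h3
    subst hyy
    have hdy : dg F y = 6 := by
      have h1 := c.h.toPH.dg_fac (v := w) (u := y) false hyw
      have h4 := S.dy
      have h4' := S'.dy
      have h5 := c.lev y (Finset.mem_erase.mp S.hy).2
      simp only [Bool.not_false] at h1
      -- at most two cubes with `w = true` contain `y`
      have h6 : dg2 F w true y + 2 ≤ dg (fac F w true) y := by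
        have e1 : dg2 F w true y =
            (((F.filter (fun C => C w = some true ∧ C y ≠ none)).image
              (fun C => update C w none)) : Finset Cube).card := by
          rw [Finset.card_image_of_injOn]
          · rfl
          · intro C hC D hD he
            simp only [Finset.coe_filter, Set.mem_ofPred_eq] at hC hD
            exact fac_inj' hC.2.1 hD.2.1 he
        have e2 : ({pr r b y true, pr r b y false} : Finset Cube).card = 2 := by
          rw [Finset.card_insert_of_notMem, Finset.card_singleton]
          rw [Finset.mem_singleton]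
          intro h
          have := congrFun h y
          rw [pr_snd, pr_snd] at this
          cases this
        rw [e1, ← e2, ← Finset.card_union_of_disjoint]
        · unfold dg
          apply Finset.card_le_card
          intro D hD
          simp only [Finset.mem_union, Finset.mem_image, Finset.mem_filter, Finset.mem_insert,
            Finset.mem_singleton] at hD ⊢
          rcases hD with ⟨C, ⟨hC, hCw, hCy⟩, rfl⟩ | rfl | rfl
          · exact ⟨c.mem hC hCw, by rw [update_of_ne hyw]; exact hCy⟩
          · exact ⟨hmem1 true, by rw [pr_snd]; simp⟩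
          · exact ⟨hmem1 false, by rw [pr_snd]; simp⟩
        · rw [Finset.disjoint_left]
          intro D hD hD'
          simp only [Finset.mem_image, Finset.mem_filter, Finset.mem_insert,
            Finset.mem_singleton] at hD hD'
          obtain ⟨C, ⟨hC, hCw, hCy⟩, rfl⟩ := hD
          have hclash : ∀ j, update C w none ≠ pr r b y j := by
            intro j he
            have hne : C ≠ pr r b y j := by
              rintro rfl
              rw [pr_ne b j (Ne.symm hrw) (Ne.symm hyw)] at hCw
              cases hCw
            obtain ⟨v, cc, hv1, hv2⟩ := c.h.hit _ hC _ (k0 j) hne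
            by_cases hvw : v = w
            · subst hvw
              rw [pr_ne b j (Ne.symm hrw) (Ne.symm hyw)] at hv2
              cases hv2
            · have := congrFun he v
              rw [update_of_ne hvw, hv1, hv2] at this
              exact some_ne_not cc this
          rcases hD' with h | h
          · exact hclash _ h
          · exact hclash _ h
      omega
    exact ⟨r, y, b, Ne.symm S.yr, k0, w, c.good.1, l, (Finset.mem_erase.mp S.S.hl).2, y,
      (Finset.mem_erase.mp S.hy).2, Ne.symm hlw, Ne.symm hyw, S.S.ly, hdw, hdl, hdy⟩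
  · exact ⟨r, y, b, Ne.symm S.yr, k0, w, c.good.1, l, (Finset.mem_erase.mp S.S.hl).2, l1,
      (Finset.mem_erase.mp S'.S.hl).2, Ne.symm hlw, Ne.symm hlw1, hll, hdw, hdl, hdl1⟩

end Ctx2

/-- deficiency four, all degrees at least six, at least six variables, no unit cube -/
theorem UH.four_concl {V : Finset ℕ} {F : Finset Cube} (h : UH V F) (hL : Lev 2 4 V F)
    (hV : 6 ≤ V.card) (hn : NoUnit F) : Concl V F := by
  obtain ⟨w, hw, hcw⟩ := exists_good_uncovered h (by omega)
  obtain ⟨k0, h01, h02, h03⟩ := h.facet_lev hw hL false
  obtain ⟨k1, h11, h12, h13⟩ := h.facet_lev hw hL true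
  have h5 := dg_eq F w true
  have h6 := hL.2 w hw.1
  simp only [Bool.not_false, Bool.not_true] at *
  by_cases h0 : k0 = 1
  · have c : Ctx V F w false 4 :=
      ⟨h, hw, by rw [h02.1, h0], nounit_fac h.toPH hn hcw false, hL.2, by simp; omega, by omega⟩
    exact c.four_case hV
  · by_cases h1 : k1 = 1
    · have c : Ctx V F w true 4 :=
        ⟨h, hw, by rw [h12.1, h1], nounit_fac h.toPH hn hcw true, hL.2, by simp; omega, by omega⟩
      exact c.four_case hV
    · have c : Ctx2 V F w := by
        refine ⟨h, hw, ?_, fun a => nounit_fac h.toPH hn hcw a, fun v hv => hL.2 v hv, ?_, hV⟩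
        · intro a
          cases a
          · rw [h02.1]; omega
          · rw [h12.1]; omega
        · intro a
          cases a <;> omega
      exact c.concl

end Pool.Agent.Lib.MP_9abcb7_co
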