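import Pool.Agent.Lib.MP_9abcb7_co.Two

set_option autoImplicit false

open Function

namespace Pool.Agent.Lib.MP_9abcb7_co

open scoped Classical

theorem bool3 {x y z : Option Bool} {e e' e'' : Bool} (h1 : x = some e) (h2 : y = some (!e))
    (h3 : x = some e') (h4 : z = some (!e')) (h5 : y = some e'') (h6 : z = some (!e'')) : False := by
  subst h1 h2 h4
  cases e <;> cases e' <;> cases e'' <;> simp_all

/-- the situation where both facets have deficiency two -/
structure Ctx2 (V : Finset ℕ) (F : Finset Cube) (w : ℕ) : Prop where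
  h : UH V F
  good : Good V F w
  hT : ∀ a, (fac F w a).card = (V.erase w).card + 2
  nu : ∀ a, NoUnit (fac F w a)
  lev : ∀ v ∈ V, 6 ≤ dg F v
  c3 : ∀ a, ct F w a = 3
  hV : 6 ≤ V.card

namespace Ctx2

variable {V : Finset ℕ} {F : Finset Cube} {w : ℕ}

theorem T (c : Ctx2 V F w) (a : Bool) : UH (V.erase w) (fac F w a) := c.h.facet c.good a

theorem lack (c : Ctx2 V F w) (a : Bool) {x : ℕ} (hx : x ∈ V.erase w) :
    cn F (fun D => D w = some (!a) ∧ D x = none) + 3 ≤ dg (fac F w a) x := by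
  obtain ⟨hxw, hxV⟩ := Finset.mem_erase.mp hx
  have h1 := lack_eq F w (!a) x
  have h2 := c.h.toPH.dg_fac (v := w) (u := x) a hxw
  have h3 := c.lev x hxV
  have h4 := c.c3 (!a)
  omega

theorem lack' (c : Ctx2 V F w) (a : Bool) {x : ℕ} (hx : x ∈ V.erase w) :
    cn F (fun D => D w = some a ∧ D x = none) + 3 ≤ dg (fac F w (!a)) x := by
  have := c.lack (!a) hx
  rwa [Bool.not_not] at this

theorem dgT (c : Ctx2 V F w) (a : Bool) {x : ℕ} (hx : x ∈ V.erase w) :
    3 ≤ dg (fac F w a) x := by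
  have := c.lack a hx
  omega

theorem allB (c : Ctx2 V F w) (a : Bool) {x : ℕ} (hx : x ∈ V.erase w)
    (hd : dg (fac F w a) x = 3) : ∀ D ∈ F, D w = some (!a) → D x ≠ none := by
  intro D hD hDw hDx
  have h1 := c.lack a hx
  have h2 : 1 ≤ cn F (fun D => D w = some (!a) ∧ D x = none) := cn_pos hD ⟨hDw, hDx⟩
  omega

theorem lackB (c : Ctx2 V F w) (a : Bool) {x : ℕ} (hx : x ∈ V.erase w)
    (hd : dg (fac F w a) x = 4) {D E : Cube} (hD : D ∈ F) (hDw : D w = some (!a)) (hDx : D x = none)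
    (hE : E ∈ F) (hEw : E w = some (!a)) (hEx : E x = none) : D = E := by
  have := c.lack a hx
  exact cn_le_one (show cn F (fun D => D w = some (!a) ∧ D x = none) ≤ 1 by omega)
    hD ⟨hDw, hDx⟩ hE ⟨hEw, hEx⟩

theorem mem (c : Ctx2 V F w) {a : Bool} {C : Cube} (hC : C ∈ F) (hw : C w = some a) :
    update C w none ∈ fac F w a := by
  have := c.h
  exact PH.mem_fac_of hC (by rw [hw]; exact some_ne_not a)

theorem threeA (c : Ctx2 V F w) (a : Bool) : ∃ X Y Z, (X ∈ F ∧ X w = some a) ∧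
    (Y ∈ F ∧ Y w = some a) ∧ (Z ∈ F ∧ Z w = some a) ∧ X ≠ Y ∧ X ≠ Z ∧ Y ≠ Z := by
  have h3 : (F.filter (fun C => C w = some a)).card = 3 := c.c3 a
  obtain ⟨X, Y, Z, h1, h2, h4, h5⟩ := Finset.card_eq_three.mp h3
  have hX : X ∈ F.filter (fun C => C w = some a) := by rw [h5]; simp
  have hY : Y ∈ F.filter (fun C => C w = some a) := by rw [h5]; simp
  have hZ : Z ∈ F.filter (fun C => C w = some a) := by rw [h5]; simp
  exact ⟨X, Y, Z, Finset.mem_filter.mp hX, Finset.mem_filter.mp hY, Finset.mem_filter.mp hZ, h1, h2, h4⟩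

/-- not four distinct cubes on one side -/
theorem not_four (c : Ctx2 V F w) (a : Bool) {W X Y Z : Cube} (hW : W ∈ F ∧ W w = some a)
    (hX : X ∈ F ∧ X w = some a) (hY : Y ∈ F ∧ Y w = some a) (hZ : Z ∈ F ∧ Z w = some a)
    (h1 : W ≠ X) (h2 : W ≠ Y) (h3 : W ≠ Z) (h4 : X ≠ Y) (h5 : X ≠ Z) (h6 : Y ≠ Z) : False := by
  have hsub : ({W, X, Y, Z} : Finset Cube) ⊆ F.filter (fun C => C w = some a) := by
    intro U hU
    simp only [Finset.mem_insert, Finset.mem_singleton] at hU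
    rw [Finset.mem_filter]
    rcases hU with rfl | rfl | rfl | rfl <;> assumption
  have := Finset.card_le_card hsub
  rw [Finset.card_insert_of_notMem (by simp [h1, h2, h3]),
    Finset.card_insert_of_notMem (by simp [h4, h5]),
    Finset.card_insert_of_notMem (by simpa using h6), Finset.card_singleton] at this
  have h3 : (F.filter (fun C => C w = some a)).card = 3 := c.c3 a
  omega

theorem cell (c : Ctx2 V F w) {a : Bool} {u v : ℕ} (hu : u ∈ V.erase w)
    (hdu : dg (fac F w a) u = 3) (hv : v ∈ V.erase w) (hdv : dg (fac F w a) v = 3) (huv : u ≠ v)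
    {C : Cube} (hC : C ∈ F) (hw : C w = some a) {i j : Bool} (hi : C u ≠ some (!i))
    (hj : C v ≠ some (!j)) :
    ∃ D ∈ F, D w = some (!a) ∧ D u = some i ∧ D v = some j ∧
      ∀ y, y ≠ w → ∀ c, C y = some c → D y ≠ some (!c) :=
  c.h.toPH.meet2 hC hw (Finset.mem_erase.mp hu).1
    (Finset.mem_erase.mp hv).1 huv (c.allB a hu hdu) (c.allB a hv hdv) hi hj

/-- four cells are impossible -/
theorem no_cells (c : Ctx2 V F w) {a : Bool} {u v : ℕ}
    (H : ∀ i j, ∃ D ∈ F, D w = some (!a) ∧ D u = some i ∧ D v = some j) : False := by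
  obtain ⟨D1, a1, b1, c1, d1⟩ := H true true
  obtain ⟨D2, a2, b2, c2, d2⟩ := H true false
  obtain ⟨D3, a3, b3, c3, d3⟩ := H false true
  obtain ⟨D4, a4, b4, c4, d4⟩ := H false false
  refine c.not_four (!a) ⟨a1, b1⟩ ⟨a2, b2⟩ ⟨a3, b3⟩ ⟨a4, b4⟩ ?_ ?_ ?_ ?_ ?_ ?_
  · rintro rfl; rw [d1] at d2; cases d2
  · rintro rfl; rw [c1] at c3; cases c3
  · rintro rfl; rw [c1] at c4; cases c4
  · rintro rfl; rw [c2] at c3; cases c3
  · rintro rfl; rw [c2] at c4; cases c4
  · rintro rfl; rw [d3] at d4; cases d4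

theorem caseA (c : Ctx2 V F w) {a : Bool} {l m y : ℕ} (hl : l ∈ V.erase w)
    (hdl : dg (fac F w a) l = 3) (hm : m ∈ V.erase w) (hdm : dg (fac F w a) m = 3) (hlm : l ≠ m)
    (hy : y ∈ V.erase w) (hdy : dg (fac F w a) y = 4)
    {C1 C2 C3 : Cube} (h1 : C1 ∈ F) (w1 : C1 w = some a) (h2 : C2 ∈ F) (w2 : C2 w = some a)
    (h3 : C3 ∈ F) (w3 : C3 w = some a) {i e j : Bool} (l1 : C1 l = some i) (l2 : C2 l = some i)
    (m1 : C1 m = none) (m2 : C2 m = none) (y1 : C1 y = some e) (y2 : C2 y = some (!e))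
    (m3 : C3 m = some j) (l3 : C3 l = none) : False := by
  have hyw := (Finset.mem_erase.mp hy).1
  -- cells
  have key : ∀ j', ∃ D ∈ F, D w = some (!a) ∧ D l = some i ∧ D m = some j' ∧ D y = none := by
    intro j'
    obtain ⟨D, hD, hDw, hDl, hDm, hDy⟩ := c.cell hl hdl hm hdm hlm h1 w1 (i := i) (j := j')
      (by rw [l1]; exact some_ne_not _) (by rw [m1]; simp)
    obtain ⟨E, hE, hEw, hEl, hEm, hEy⟩ := c.cell hl hdl hm hdm hlm h2 w2 (i := i) (j := j')
      (by rw [l2]; exact some_ne_not _) (by rw [m2]; simp)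
    obtain ⟨G, hG, hGw, hGl, hGm, -⟩ := c.cell hl hdl hm hdm hlm h1 w1 (i := i) (j := !j')
      (by rw [l1]; exact some_ne_not _) (by rw [m1]; simp)
    obtain ⟨K, hK, hKw, hKl, hKm, -⟩ := c.cell hl hdl hm hdm hlm h3 w3 (i := !i) (j := j)
      (by rw [l3]; simp) (by rw [m3]; exact some_ne_not _)
    have hDE : D = E := by
      by_contra hne
      exact c.not_four (!a) ⟨hD, hDw⟩ ⟨hE, hEw⟩ ⟨hG, hGw⟩ ⟨hK, hKw⟩ hne
        (Ctx.ne_of_val hDm hGm) (Ctx.ne_of_val hDl hKl) (Ctx.ne_of_val hEm hGm)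
        (Ctx.ne_of_val hEl hKl) (Ctx.ne_of_val hGl hKl)
    refine ⟨D, hD, hDw, hDl, hDm, ?_⟩
    rw [← hDE] at hEy
    rcases opt_cases (D y) e with h | h | h
    · exact h
    · exact absurd (by simpa using h) (hEy y hyw _ y2)
    · exact absurd h (hDy y hyw _ y1)
  obtain ⟨D1, a1, b1, c1, d1, e1⟩ := key true
  obtain ⟨D2, a2, b2, c2, d2, e2⟩ := key false
  have := c.lackB a hy hdy a1 b1 e1 a2 b2 e2
  rw [this, d2] at d1
  cases d1

theorem pairA (c : Ctx2 V F w) {a : Bool} {r y l m : ℕ} {b : Bool} {l0 : Bool}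
    (hrw : r ≠ w) (hyw : y ≠ w) (S : SideL (V.erase w) (fac F w a) r y b l l0)
    (hm : m ∈ V.erase w) (hdm : dg (fac F w a) m = 3) (hlm : l ≠ m)
    (uq : ∀ C ∈ fac F w a, ∀ C' ∈ fac F w a, C r = some b → C' r = some b → ∀ e, C y = some e →
        C' y = some e → C = C')
    {X Y : Cube} (hX : X ∈ F) (wX : X w = some a) (hY : Y ∈ F) (wY : Y w = some a) (hXY : X ≠ Y)
    (lX : X l ≠ none) (lY : Y l ≠ none) (mX : X m = none) (mY : Y m = none) :
    ∃ i e, X l = some i ∧ Y l = some i ∧ X y = some e ∧ Y y = some (!e) := by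
  have hlw := (Finset.mem_erase.mp S.hl).1
  obtain ⟨i, hi⟩ := Option.ne_none_iff_exists'.mp lX
  have hYi : Y l = some i := by
    rcases ne_none_cases lY i with h | h
    · exact h
    · exfalso
      apply c.no_cells (a := a) (u := l) (v := m)
      intro i' j
      by_cases hii : i' = i
      · subst hii
        obtain ⟨D, hD, hDw, hDl, hDm, -⟩ := c.cell S.hl S.dl hm hdm hlm hX wX (i := i') (j := j)
          (by rw [hi]; exact some_ne_not _) (by rw [mX]; simp)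
        exact ⟨D, hD, hDw, hDl, hDm⟩
      · have hii' : i' = !i := by cases i <;> cases i' <;> simp_all
        subst hii'
        obtain ⟨D, hD, hDw, hDl, hDm, -⟩ := c.cell S.hl S.dl hm hdm hlm hY wY (i := !i) (j := j)
          (by rw [h]; exact some_ne_not _) (by rw [mY]; simp)
        exact ⟨D, hD, hDw, hDl, hDm⟩
  have mX' := c.mem hX wX
  have mY' := c.mem hY wY
  have val : ∀ C ∈ F, C w = some a → C l ≠ none → C r = some b := by
    intro C hC hw hCl
    have := S.val _ (c.mem hC hw) (by rw [update_of_ne hlw]; exact hCl)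
    rwa [update_of_ne hrw] at this
  have yl : ∀ C ∈ F, C w = some a → C l ≠ none → C y ≠ none → C l = some l0 := by
    intro C hC hw hCl hCy
    have := S.yl _ (c.mem hC hw) (by rw [update_of_ne hrw]; exact val C hC hw hCl)
      (by rw [update_of_ne hyw]; exact hCy)
    rwa [update_of_ne hlw] at this
  have yn : ∀ C ∈ F, C w = some a → C y = none → C l ≠ none → C l = some (!l0) := by
    intro C hC hw hCy hCl
    have := S.yn _ (c.mem hC hw) (by rw [update_of_ne hyw]; exact hCy)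
      (by rw [update_of_ne hlw]; exact hCl)
    rwa [update_of_ne hlw] at this
  have un : ¬ (X l = some (!l0) ∧ Y l = some (!l0)) := by
    rintro ⟨e1, e2⟩
    exact hXY (fac_inj' wX wY (S.un _ mX' _ mY' (by rw [update_of_ne hlw]; exact e1)
      (by rw [update_of_ne hlw]; exact e2)))
  have yX : X y ≠ none := by
    intro h
    have h1 := yn X hX wX h lX
    exact un ⟨h1, by rw [hYi, ← hi]; exact h1⟩
  have yY : Y y ≠ none := by
    intro h
    have h1 := yn Y hY wY h lY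
    exact un ⟨by rw [hi, ← hYi]; exact h1, h1⟩
  obtain ⟨e, he⟩ := Option.ne_none_iff_exists'.mp yX
  refine ⟨i, e, hi, hYi, he, ?_⟩
  rcases ne_none_cases yY e with h | h
  · exfalso
    exact hXY (fac_inj' wX wY (uq _ mX' _ mY' (by rw [update_of_ne hrw]; exact val X hX wX lX)
      (by rw [update_of_ne hrw]; exact val Y hY wY lY) e (by rw [update_of_ne hyw]; exact he)
      (by rw [update_of_ne hyw]; exact h)))
  · exact h

/-- two nontrivial sides are impossible -/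
theorem no_two_sides (c : Ctx2 V F w) {a : Bool} {r y l m : ℕ} {l0 m0 : Bool}
    (hr : r ∈ V.erase w) (hy : y ∈ V.erase w)
    (hdy : dg (fac F w a) y = 4)
    (S : SideL (V.erase w) (fac F w a) r y false l l0)
    (S' : SideL (V.erase w) (fac F w a) r y true m m0)
    (uq : ∀ b, ∀ C ∈ fac F w a, ∀ C' ∈ fac F w a, C r = some b → C' r = some b → ∀ e,
        C y = some e → C' y = some e → C = C') : False := by
  have hrw := (Finset.mem_erase.mp hr).1
  have hyw := (Finset.mem_erase.mp hy).1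
  have hlw := (Finset.mem_erase.mp S.hl).1
  have hmw := (Finset.mem_erase.mp S'.hl).1
  have val : ∀ C ∈ F, C w = some a → C l ≠ none → C r = some false := by
    intro C hC hw hCl
    have := S.val _ (c.mem hC hw) (by rw [update_of_ne hlw]; exact hCl)
    rwa [update_of_ne hrw] at this
  have val' : ∀ C ∈ F, C w = some a → C m ≠ none → C r = some true := by
    intro C hC hw hCl
    have := S'.val _ (c.mem hC hw) (by rw [update_of_ne hmw]; exact hCl)
    rwa [update_of_ne hrw] at this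
  have hlm : l ≠ m := by
    rintro rfl
    obtain ⟨C, hC, hCl⟩ := (c.T a).nd l S.hl
    have e1 := S.val C hC hCl
    have e2 := S'.val C hC hCl
    rw [e1] at e2; cases e2
  have lm : ∀ C ∈ F, C w = some a → C l ≠ none → C m = none := by
    intro C hC hw hCl
    by_contra hCm
    have e1 := val C hC hw hCl
    have e2 := val' C hC hw hCm
    rw [e1] at e2; cases e2
  have ml : ∀ C ∈ F, C w = some a → C m ≠ none → C l = none := by
    intro C hC hw hCm
    by_contra hCl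
    exact hCm (lm C hC hw hCl)
  have hor : ∀ C ∈ F, C w = some a → C l = none → C m ≠ none := by
    intro C hC hw hCl hCm
    apply c.no_cells (a := a) (u := l) (v := m)
    intro i j
    obtain ⟨D, hD, hDw, hDl, hDm, -⟩ := c.cell S.hl S.dl S'.hl S'.dl hlm hC hw (i := i) (j := j)
      (by rw [hCl]; simp) (by rw [hCm]; simp)
    exact ⟨D, hD, hDw, hDl, hDm⟩
  -- two cubes with `l`, one with `m`
  have LLM : ∀ X Y Z, (X ∈ F ∧ X w = some a) → (Y ∈ F ∧ Y w = some a) → (Z ∈ F ∧ Z w = some a) →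
      X ≠ Y → X l ≠ none → Y l ≠ none → Z m ≠ none → False := by
    rintro X Y Z ⟨hX, wX⟩ ⟨hY, wY⟩ ⟨hZ, wZ⟩ hXY lX lY mZ
    obtain ⟨i, e, e1, e2, e3, e4⟩ := c.pairA hrw hyw S S'.hl S'.dl hlm (uq false) hX wX hY wY hXY
      lX lY (lm X hX wX lX) (lm Y hY wY lY)
    obtain ⟨j, hj⟩ := Option.ne_none_iff_exists'.mp mZ
    exact c.caseA S.hl S.dl S'.hl S'.dl hlm hy hdy hX wX hY wY hZ wZ e1 e2 (lm X hX wX lX)
      (lm Y hY wY lY) e3 e4 hj (ml Z hZ wZ mZ)
  have MML : ∀ X Y Z, (X ∈ F ∧ X w = some a) → (Y ∈ F ∧ Y w = some a) → (Z ∈ F ∧ Z w = some a) →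
      X ≠ Y → X m ≠ none → Y m ≠ none → Z l ≠ none → False := by
    rintro X Y Z ⟨hX, wX⟩ ⟨hY, wY⟩ ⟨hZ, wZ⟩ hXY mX mY lZ
    obtain ⟨i, e, e1, e2, e3, e4⟩ := c.pairA hrw hyw S' S.hl S.dl (Ne.symm hlm) (uq true) hX wX hY wY
      hXY mX mY (ml X hX wX mX) (ml Y hY wY mY)
    obtain ⟨j, hj⟩ := Option.ne_none_iff_exists'.mp lZ
    exact c.caseA S'.hl S'.dl S.hl S.dl (Ne.symm hlm) hy hdy hX wX hY wY hZ wZ e1 e2
      (ml X hX wX mX) (ml Y hY wY mY) e3 e4 hj (lm Z hZ wZ lZ)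
  obtain ⟨X, Y, Z, hX, hY, hZ, hXY, hXZ, hYZ⟩ := c.threeA a
  by_cases lX : X l = none
  · have mX := hor X hX.1 hX.2 lX
    by_cases lY : Y l = none
    · have mY := hor Y hY.1 hY.2 lY
      by_cases lZ : Z l = none
      · have mZ := hor Z hZ.1 hZ.2 lZ
        obtain ⟨i, e, e1, e2, e3, e4⟩ := c.pairA hrw hyw S' S.hl S.dl (Ne.symm hlm) (uq true) hX.1 hX.2
          hY.1 hY.2 hXY mX mY lX lY
        obtain ⟨i', e', f1, f2, f3, f4⟩ := c.pairA hrw hyw S' S.hl S.dl (Ne.symm hlm) (uq true) hX.1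
          hX.2 hZ.1 hZ.2 hXZ mX mZ lX lZ
        obtain ⟨i'', e'', g1, g2, g3, g4⟩ := c.pairA hrw hyw S' S.hl S.dl (Ne.symm hlm) (uq true) hY.1
          hY.2 hZ.1 hZ.2 hYZ mY mZ lY lZ
        exact bool3 e3 e4 f3 f4 g3 g4
      · exact MML X Y Z hX hY hZ hXY mX mY lZ
    · by_cases lZ : Z l = none
      · exact MML X Z Y hX hZ hY hXZ mX (hor Z hZ.1 hZ.2 lZ) lY
      · exact LLM Y Z X hY hZ hX hYZ lY lZ mX
  · by_cases lY : Y l = none
    · have mY := hor Y hY.1 hY.2 lY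
      by_cases lZ : Z l = none
      · exact MML Y Z X hY hZ hX hYZ mY (hor Z hZ.1 hZ.2 lZ) lX
      · exact LLM X Z Y hX hZ hY hXZ lX lZ mY
    · by_cases lZ : Z l = none
      · exact LLM X Y Z hX hY hZ hXY lX lY (hor Z hZ.1 hZ.2 lZ)
      · obtain ⟨i, e, e1, e2, e3, e4⟩ := c.pairA hrw hyw S S'.hl S'.dl hlm (uq false) hX.1 hX.2
          hY.1 hY.2 hXY lX lY (lm X hX.1 hX.2 lX) (lm Y hY.1 hY.2 lY)
        obtain ⟨i', e', f1, f2, f3, f4⟩ := c.pairA hrw hyw S S'.hl S'.dl hlm (uq false) hX.1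
          hX.2 hZ.1 hZ.2 hXZ lX lZ (lm X hX.1 hX.2 lX) (lm Z hZ.1 hZ.2 lZ)
        obtain ⟨i'', e'', g1, g2, g3, g4⟩ := c.pairA hrw hyw S S'.hl S'.dl hlm (uq false) hY.1
          hY.2 hZ.1 hZ.2 hYZ lY lZ (lm Y hY.1 hY.2 lY) (lm Z hZ.1 hZ.2 lZ)
        exact bool3 e3 e4 f3 f4 g3 g4

end Ctx2

end Pool.Agent.Lib.MP_9abcb7_co
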